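import Pool.Agent.TH345.CC.Stmts
import Pool.Agent.Helper859.Br.C1

set_option autoImplicit false

open Filter Topology Set Metric Bornology

namespace Pool.TH345.CC.Aff2

theorem affine : S_affine := by
  intro k hk hi ht
  rw [← Metric.cobounded_eq_cocompact] at ht
  set k1 : ℂ → ℂ := fun z => k z - k 0 with hk1
  have hd : Differentiable ℂ k1 := hk.sub_const _
  have hinj : Function.Injective k1 := fun x y h => hi (sub_left_injective h)
  have h0 : k1 0 = 0 := sub_self _
  have ht1 : Tendsto k1 (cobounded ℂ) (cobounded ℂ) := by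
    rw [← tendsto_norm_atTop_iff_cobounded]
    have h1 : Tendsto (fun z => ‖k z‖) (cobounded ℂ) atTop := tendsto_norm_atTop_iff_cobounded.2 ht
    refine tendsto_atTop_mono (fun z => ?_) (tendsto_atTop_add_const_right _ (-‖k 0‖) h1)
    have := norm_sub_norm_le (k z) (k 0)
    change ‖k z‖ + -‖k 0‖ ≤ ‖k z - k 0‖
    linarith
  set j : ℂ → ℂ := fun w => (k1 w⁻¹)⁻¹ with hj
  have hj0 : j 0 = 0 := by
    simp only [hj, inv_zero, h0]
  have hjc : ContinuousAt j 0 := by
    rw [continuousAt_iff_punctured_nhds, hj0]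
    exact tendsto_inv₀_cobounded.comp (ht1.comp tendsto_inv₀_nhdsNE_zero)
  have hjd : Differentiable ℂ j := by
    have h1 : DifferentiableOn ℂ j (univ \ {0}) := by
      intro w hw
      have hw0 : w ≠ 0 := hw.2
      have h2 : k1 w⁻¹ ≠ 0 := by
        rw [← h0]
        exact fun h => inv_ne_zero hw0 (hinj h)
      have h3 : DifferentiableAt ℂ (fun w : ℂ => k1 w⁻¹) w :=
        (hd _).comp w (differentiableAt_inv hw0)
      exact (h3.inv h2).differentiableWithinAt
    have h2 := (Complex.differentiableOn_compl_singleton_and_continuousAt_iff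
      (univ_mem : (univ : Set ℂ) ∈ 𝓝 0)).1 ⟨h1, hjc⟩
    exact differentiableOn_univ.1 h2
  have hji : Function.Injective j := fun w v h => inv_injective (hinj (inv_injective h))
  have hder : deriv j 0 ≠ 0 :=
    Pool.Agent.Helper859.Br.C1.deriv_ne_zero_of_injOn isOpen_univ hjd.differentiableOn hji.injOn
      (mem_univ _)
  have h1 : Tendsto (fun t : ℂ => t⁻¹ • (j (0 + t) - j 0)) (𝓝[≠] 0) (𝓝 (deriv j 0)) :=
    (hjd 0).hasDerivAt.tendsto_slope_zero
  have h2 : Tendsto (fun t : ℂ => t * k1 t⁻¹) (𝓝[≠] 0) (𝓝 (deriv j 0)⁻¹) := by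
    refine (h1.inv₀ hder).congr fun t => ?_
    rw [zero_add, hj0, sub_zero, smul_eq_mul, mul_inv, inv_inv]
    change t * ((k1 t⁻¹)⁻¹)⁻¹ = t * k1 t⁻¹
    rw [inv_inv]
  have h3 : Tendsto (fun z : ℂ => z⁻¹ * k1 z) (cobounded ℂ) (𝓝 (deriv j 0)⁻¹) := by
    have h4 : Tendsto (fun z : ℂ => z⁻¹) (cobounded ℂ) (𝓝[≠] 0) := tendsto_inv₀_cobounded'
    refine (h2.comp h4).congr fun z => ?_
    simp [Function.comp]
  have hm : Differentiable ℂ (dslope k1 0) := by
    rw [← differentiableOn_univ, Complex.differentiableOn_dslope univ_mem]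
    exact hd.differentiableOn
  have hmt : Tendsto (dslope k1 0) (cocompact ℂ) (𝓝 (deriv j 0)⁻¹) := by
    rw [← Metric.cobounded_eq_cocompact]
    refine h3.congr' ?_
    have h5 : ∀ᶠ z : ℂ in cobounded ℂ, z ≠ 0 := by
      have h6 : ({0}ᶜ : Set ℂ) ∈ cobounded ℂ :=
        Bornology.isBounded_def.1 (Bornology.isBounded_singleton (x := (0 : ℂ)))
      filter_upwards [h6] with z hz
      exact hz
    filter_upwards [h5] with z hz
    rw [dslope_of_ne _ hz, slope_def_field, h0, sub_zero, sub_zero, div_eq_inv_mul]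
  have hmc : ∀ z, dslope k1 0 z = (deriv j 0)⁻¹ := fun z =>
    hm.apply_eq_of_tendsto_cocompact z hmt
  refine ⟨(deriv j 0)⁻¹, k 0, inv_ne_zero hder, fun z => ?_⟩
  have h6 : k1 z = (deriv j 0)⁻¹ * z := by
    by_cases hz : z = 0
    · rw [hz, h0, mul_zero]
    · have h7 := hmc z
      rw [dslope_of_ne _ hz, slope_def_field, h0, sub_zero, sub_zero] at h7
      rw [← h7, div_mul_cancel₀ _ hz]
  have h8 : k z - k 0 = (deriv j 0)⁻¹ * z := h6
  rw [← h8]
  ring

end Pool.TH345.CC.Aff2
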