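import Pool.Agent.TH345.CC.Stmts

/-! # Conformal charts: attraction to a given point (ATTR) -/

set_option autoImplicit false

open Filter Topology Set Metric

namespace Pool.TH345.CC

theorem attr : S_attr := by
  intro G _ X _ _ α hX hα hmin ξ
  -- the group is infinite
  have hG : Infinite G := by
    by_contra hfin
    rw [not_infinite_iff_finite] at hfin
    have h1 : (range fun g => α.map g ξ).Finite := finite_range _
    have h2 : (range fun g => α.map g ξ) = univ := by
      rw [← h1.isClosed.closure_eq]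
      exact (hmin ξ).closure_eq
    rw [h2] at h1
    exact infinite_univ h1
  obtain ⟨φ, -, p, q₀, hpq⟩ := hα (fun n => Infinite.natEmbedding G n) (by
    rw [← Nat.cofinite_eq_atTop]
    exact (Infinite.natEmbedding G).injective.tendsto_cofinite)
  -- move the repelling point away from `ξ`
  have hne : ({ξ}ᶜ : Set X).Nonempty := by
    obtain ⟨y, hy⟩ := exists_ne ξ
    exact ⟨y, hy⟩
  obtain ⟨q, ⟨m', hm'⟩, hq⟩ := (hmin q₀).exists_mem_open (isOpen_compl_singleton (x := ξ)) hne
  dsimp only at hm'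
  refine ⟨q, hq, fun V hV W hW => ?_⟩
  obtain ⟨p', ⟨m, hm⟩, hp'⟩ := (hmin p).exists_mem_open (isOpen_interior (s := V))
    ⟨ξ, mem_interior_iff_mem_nhds.2 hV⟩
  dsimp only at hm
  have hU : (α.map m) ⁻¹' V ∈ 𝓝 p := by
    refine (α.cont m).continuousAt.preimage_mem_nhds ?_
    rw [hm]
    exact mem_interior_iff_mem_nhds.1 hp'
  have hW' : (α.map m') ⁻¹' W ∈ 𝓝 q₀ := by
    refine (α.cont m').continuousAt.preimage_mem_nhds ?_
    rw [hm']
    exact hW
  obtain ⟨n, hn⟩ := (hpq _ hU _ hW').exists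
  refine ⟨m * Infinite.natEmbedding G (φ n) * m'⁻¹, fun x hx => ?_⟩
  rw [α.map_mul, α.map_mul]
  refine hn _ fun hcon => hx ?_
  have h3 : α.map m' (α.map m'⁻¹ x) = x := by
    rw [← α.map_mul, mul_inv_cancel, α.map_one]
  have h4 : α.map m' (α.map m'⁻¹ x) ∈ W := hcon
  rwa [h3] at h4

end Pool.TH345.CC
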