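import Pool.Agent.TH345.CC.Stmts

set_option autoImplicit false

open Filter Topology Set Metric

namespace Pool.TH345.CC.Comp2

theorem conj_conj_analytic {g : ℂ → ℂ} {w : ℂ} (hg : AnalyticAt ℂ g w) :
    AnalyticAt ℂ (fun v => (starRingEnd ℂ) (g ((starRingEnd ℂ) v))) ((starRingEnd ℂ) w) := by
  rw [Complex.analyticAt_iff_eventually_differentiableAt] at hg ⊢
  have h1 : Tendsto (fun v : ℂ => (starRingEnd ℂ) v) (𝓝 ((starRingEnd ℂ) w)) (𝓝 w) := by
    have h2 : ContinuousAt (fun v : ℂ => (starRingEnd ℂ) v) ((starRingEnd ℂ) w) :=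
      Complex.continuous_conj.continuousAt
    rw [ContinuousAt, Complex.conj_conj] at h2
    exact h2
  filter_upwards [h1.eventually hg] with v hv
  have h3 := hv.hasDerivAt.conj_conj
  rw [Complex.conj_conj] at h3
  exact h3.differentiableAt

theorem comp : S_comp := by
  intro f g z hf hg
  rcases hf with hf | hf
  · rcases hg with hg | hg
    · exact Or.inl (hg.comp hf)
    · exact Or.inr (hg.comp hf)
  · rcases hg with hg | hg
    · right
      have h1 := (conj_conj_analytic hg).comp_of_eq hf rfl
      refine h1.congr (Eventually.of_forall fun v => ?_)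
      simp [Function.comp]
    · left
      have h1 := (conj_conj_analytic hg).comp_of_eq hf rfl
      refine h1.congr (Eventually.of_forall fun v => ?_)
      simp [Function.comp]

end Pool.TH345.CC.Comp2
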