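import Pool.Agent.TH345.CC.Stmts
import Pool.Agent.Helper859.SP.T15

/-! # CC-DICH (job 5457, helper460) -/

set_option autoImplicit false

open Filter Topology Set Metric

namespace Pool.TH345.CC

namespace Dich

theorem deriv_zero {f : ℂ → ℂ} {z : ℂ} (h1 : DifferentiableAt ℂ f z)
    (h2 : DifferentiableAt ℂ (fun w => (starRingEnd ℂ) (f w)) z) : deriv f z = 0 := by
  have e1 := h1.hasDerivAt.complexToReal_fderiv
  have e2 := h2.hasDerivAt.complexToReal_fderiv
  have e3 : HasFDerivAt (fun w => (starRingEnd ℂ) (f w))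
      ((Complex.conjCLE : ℂ →L[ℝ] ℂ).comp (deriv f z • (1 : ℂ →L[ℝ] ℂ))) z :=
    ((Complex.conjCLE : ℂ →L[ℝ] ℂ).hasFDerivAt).comp z e1
  have e4 := e3.unique e2
  have a1 := congrArg (fun L : ℂ →L[ℝ] ℂ => L 1) e4
  have a2 := congrArg (fun L : ℂ →L[ℝ] ℂ => L Complex.I) e4
  simp at a1 a2
  rw [← a1] at a2
  have a3 : (starRingEnd ℂ) (deriv f z) * Complex.I = 0 := by linear_combination (-1 / 2) * a2
  rcases mul_eq_zero.1 a3 with h | h
  · exact (map_eq_zero _).1 h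
  · exact absurd h Complex.I_ne_zero

end Dich

theorem dich : S_dich := by
  intro f Ω hO hP hi hc
  by_cases hA : Ω ⊆ {z | AnalyticAt ℂ f z}
  · exact Or.inl fun z hz => (hA hz).differentiableAt.differentiableWithinAt
  by_cases hB : Ω ⊆ {z | AnalyticAt ℂ (fun w => (starRingEnd ℂ) (f w)) z}
  · exact Or.inr fun z hz => (hB hz).differentiableAt.differentiableWithinAt
  exfalso
  obtain ⟨z1, hz1, hz1A⟩ := not_subset.1 hA
  obtain ⟨z2, hz2, hz2B⟩ := not_subset.1 hB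
  obtain ⟨z, hz, hzA, hzB⟩ := hP _ _ (isOpen_analyticAt ℂ f)
    (isOpen_analyticAt ℂ (fun w => (starRingEnd ℂ) (f w))) (fun w hw => hc w hw)
    ⟨z2, hz2, (hc z2 hz2).resolve_right hz2B⟩ ⟨z1, hz1, (hc z1 hz1).resolve_left hz1A⟩
  have h1 : deriv f z ≠ 0 :=
    Pool.Agent.Helper859.SP.T15.deriv_ne_zero_of_injOn (U := Ω ∩ {z | AnalyticAt ℂ f z})
      (hO.inter (isOpen_analyticAt ℂ f))
      (fun w hw => (hw.2 : AnalyticAt ℂ f w).differentiableAt.differentiableWithinAt)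
      (hi.mono inter_subset_left) ⟨hz, hzA⟩
  exact h1 (Dich.deriv_zero (hzA : AnalyticAt ℂ f z).differentiableAt
    (hzB : AnalyticAt ℂ (fun w => (starRingEnd ℂ) (f w)) z).differentiableAt)

end Pool.TH345.CC
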