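import Pool.Agent.TH345.CC.Stmts

/-! # Finitely many return maps suffice -/

set_option autoImplicit false

open Filter Topology Set Metric

namespace Pool.TH345.CC

open Pool.Agent.TH631.RC (Action IsConvergence)

namespace FinAux

/-- Finitely many translates of `U` cover the space. -/
theorem cover {G : Type} [Group G] {X : Type} [MetricSpace X] [CompactSpace X]
    (α : Action G X) {U : Set X} (hm : Minimal α) (hU : IsOpen U) (hne : U.Nonempty) :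
    ∃ H : Finset G, ∀ x : X, ∃ h ∈ H, α.map h⁻¹ x ∈ U := by
  have h1 : (univ : Set X) ⊆ ⋃ g : G, α.map g⁻¹ ⁻¹' U := by
    intro x _
    obtain ⟨y, ⟨g, hg⟩, hyU⟩ := (hm x).exists_mem_open hU hne
    refine mem_iUnion.2 ⟨g⁻¹, ?_⟩
    rw [mem_preimage, inv_inv]
    rw [← hg] at hyU
    exact hyU
  obtain ⟨H, hH⟩ := isCompact_univ.elim_finite_subcover (fun g : G => α.map g⁻¹ ⁻¹' U)
    (fun g => hU.preimage (α.cont g⁻¹)) h1
  refine ⟨H, fun x => ?_⟩
  obtain ⟨h, hh⟩ := mem_iUnion.1 (hH (mem_univ x))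
  obtain ⟨hh1, hh2⟩ := mem_iUnion.1 hh
  exact ⟨h, hh1, hh2⟩

/-- The germ condition at one point. -/
def Germ {G : Type} [Group G] {X : Type} [TopologicalSpace X] (α : Action G X)
    (U : Set X) (φ : X → ℂ) (g : G) : Prop :=
  ∀ x ∈ U, α.map g x ∈ U → ∃ F : ℂ → ℂ, ConfAt F (φ x) ∧
    ∀ᶠ y in 𝓝 x, φ (α.map g y) = F (φ y)

/-- Composition through a point of `U`. -/
theorem germ_comp (hc : S_comp) {G : Type} [Group G] {X : Type} [TopologicalSpace X]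
    (α : Action G X) (U : Set X) (φ : X → ℂ) {g₁ g₂ : G} (h₁ : Germ α U φ g₁)
    (h₂ : Germ α U φ g₂) {x : X} (hx : x ∈ U) (hx1 : α.map g₁ x ∈ U)
    (hx2 : α.map (g₂ * g₁) x ∈ U) :
    ∃ F : ℂ → ℂ, ConfAt F (φ x) ∧ ∀ᶠ y in 𝓝 x, φ (α.map (g₂ * g₁) y) = F (φ y) := by
  obtain ⟨F₁, hF₁, he₁⟩ := h₁ x hx hx1
  rw [α.map_mul] at hx2
  obtain ⟨F₂, hF₂, he₂⟩ := h₂ _ hx1 hx2
  have h0 : φ (α.map g₁ x) = F₁ (φ x) := he₁.self_of_nhds
  rw [h0] at hF₂
  refine ⟨fun w => F₂ (F₁ w), hc F₁ F₂ (φ x) hF₁ hF₂, ?_⟩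
  have ht : Tendsto (α.map g₁) (𝓝 x) (𝓝 (α.map g₁ x)) := (α.cont g₁).continuousAt
  filter_upwards [he₁, ht.eventually he₂] with y hy1 hy2
  rw [α.map_mul, hy2, hy1]

end FinAux

theorem fin (hc : S_comp) : S_fin := by
  classical
  intro G _ X _ _ α U hfg hm hU hne
  obtain ⟨H, hH⟩ := FinAux.cover α hm hU hne
  obtain ⟨T, hT⟩ := hfg.out
  let H' : Finset G := insert 1 H
  let S : Finset G := insert 1 (T ∪ T.image (·⁻¹))
  refine ⟨((H' ×ˢ S) ×ˢ H').image (fun p => p.1.1⁻¹ * p.1.2 * p.2), fun φ _ hR => ?_⟩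
  have hS₀ : ∀ b ∈ H', ∀ s ∈ S, ∀ a ∈ H', FinAux.Germ α U φ (b⁻¹ * s * a) := by
    intro b hb s hs a ha
    refine hR _ ?_
    rw [Finset.mem_coe, Finset.mem_image]
    exact ⟨((b, s), a), Finset.mem_product.2 ⟨Finset.mem_product.2 ⟨hb, hs⟩, ha⟩, rfl⟩
  have hstep : ∀ s ∈ S, ∀ w : G, (∀ b ∈ H', ∀ a ∈ H', FinAux.Germ α U φ (b⁻¹ * w * a)) →
      ∀ b ∈ H', ∀ a ∈ H', FinAux.Germ α U φ (b⁻¹ * (s * w) * a) := by
    intro s hs w hw b hb a ha x hx hx2
    obtain ⟨c, hcH, hcx⟩ := hH (α.map (w * a) x)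
    have hcH' : c ∈ H' := Finset.mem_insert_of_mem hcH
    have he : b⁻¹ * (s * w) * a = (b⁻¹ * s * c) * (c⁻¹ * w * a) := by group
    rw [he] at hx2 ⊢
    refine FinAux.germ_comp hc α U φ (hw c hcH' a ha) (hS₀ b hb s hs c hcH') hx ?_ hx2
    rw [mul_assoc, α.map_mul]
    exact hcx
  have hall : ∀ w : G, ∀ b ∈ H', ∀ a ∈ H', FinAux.Germ α U φ (b⁻¹ * w * a) := by
    intro w
    have hw : w ∈ Subgroup.closure (T : Set G) := by rw [hT]; exact Subgroup.mem_top w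
    induction hw using Subgroup.closure_induction_left with
    | one => exact fun b hb a ha => hS₀ b hb 1 (Finset.mem_insert_self _ _) a ha
    | mul_left s hs y hy ih =>
      exact hstep s (Finset.mem_insert_of_mem (Finset.mem_union_left _ hs)) y ih
    | inv_mul_cancel s hs y hy ih =>
      exact hstep s⁻¹ (Finset.mem_insert_of_mem (Finset.mem_union_right _
        (Finset.mem_image_of_mem _ hs))) y ih
  intro g _
  have h1 := hall g 1 (Finset.mem_insert_self _ _) 1 (Finset.mem_insert_self _ _)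
  rw [inv_one, one_mul, mul_one] at h1
  exact h1

end Pool.TH345.CC
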