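import Pool.Agent.TH345.CC.Stmts

/-! CC-FIX (helper503, for helper345). -/

set_option autoImplicit false
open Filter Topology Set Metric
namespace Pool.TH345.CC

theorem fix : S_fix := by
  intro F c r hr hd hm
  -- the contraction estimate
  have hcon : ∀ w ∈ closedBall c (r / 4), ∀ z ∈ ball w (3 * r / 4),
      dist (F z) (F w) ≤ (2 / 3) * dist z w := by
    intro w hw z hz
    have hsub : ball w (3 * r / 4) ⊆ ball c r := by
      intro u hu
      rw [mem_ball] at hu ⊢
      rw [mem_closedBall] at hw
      have := dist_triangle u w c
      linarith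
    have hw' : w ∈ ball c r := by
      rw [mem_closedBall] at hw
      rw [mem_ball]
      linarith
    have hmaps : MapsTo F (ball w (3 * r / 4)) (ball (F w) (r / 2)) := by
      intro u hu
      have h1 := hm (hsub hu)
      have h2 := hm hw'
      rw [mem_ball] at h1 h2 ⊢
      have h3 := dist_triangle (F u) c (F w)
      rw [dist_comm c (F w)] at h3
      linarith
    have h := Complex.dist_le_div_mul_dist_of_mapsTo_ball (hd.mono hsub)
      (hmaps.mono_right ball_subset_closedBall) hz
    have e : r / 2 / (3 * r / 4) = 2 / 3 := by field_simp; norm_num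
    rw [e] at h
    exact h
  have hself : MapsTo F (closedBall c (r / 4)) (closedBall c (r / 4)) := by
    intro u hu
    have : u ∈ ball c r := by
      rw [mem_closedBall] at hu
      rw [mem_ball]
      linarith
    exact ball_subset_closedBall (hm this)
  have hcw : ContractingWith (2 / 3 : NNReal) (hself.restrict F _ _) := by
    refine ⟨by
      rw [← NNReal.coe_lt_coe]; norm_num, ?_⟩
    apply LipschitzWith.of_dist_le_mul
    intro x y
    have hx : (x : ℂ) ∈ ball (y : ℂ) (3 * r / 4) := by
      have h1 := x.2
      have h2 := y.2
      rw [mem_closedBall] at h1 h2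
      rw [mem_ball]
      have h3 := dist_triangle (x : ℂ) c (y : ℂ)
      rw [dist_comm c (y : ℂ)] at h3
      linarith
    have h := hcon y y.2 x hx
    have e : ((2 / 3 : NNReal) : ℝ) = 2 / 3 := by norm_num
    rw [e]
    exact h
  obtain ⟨a, ha, hfa, -⟩ := hcw.exists_fixedPoint' (isClosed_closedBall.isComplete) hself
    (mem_closedBall_self (by positivity) : c ∈ closedBall c (r / 4)) (edist_ne_top _ _)
  have ha' : dist a c ≤ r / 4 := ha
  refine ⟨a, ?_, hfa, r / 4, by positivity, ?_, ?_⟩
  · rw [mem_ball]; linarith
  · intro u hu
    rw [mem_ball] at hu ⊢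
    have := dist_triangle u a c
    linarith
  · intro z hz
    have hz' : z ∈ ball a (3 * r / 4) := by
      rw [mem_ball] at hz ⊢
      linarith
    have h := hcon a ha z hz'
    have hfa' : F a = a := hfa
    rw [hfa', dist_eq_norm, dist_eq_norm] at h
    exact h

end Pool.TH345.CC
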