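import Pool.Agent.TH345.CC.Stmts

/-! # Boundary maps of isometries of hyperbolic 3-space are conformal (helper619) -/

set_option autoImplicit false

open Filter Topology Set Metric

namespace Pool.TH345.CC

namespace Germ619

open Pool.Agent.TH289.C Pool.TH345.LC

theorem nsq (x : E3) : ‖x‖ ^ 2 = x 0 ^ 2 + x 1 ^ 2 + x 2 ^ 2 := by
  rw [EuclideanSpace.norm_sq_eq, Fin.sum_univ_three]
  simp only [Real.norm_eq_abs, sq_abs]

theorem inn (x y : E3) : inner ℝ x y = x 0 * y 0 + x 1 * y 1 + x 2 * y 2 := by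
  rw [PiLp.inner_apply, Fin.sum_univ_three]
  simp
  ring

theorem ns (w : ℂ) : ‖w‖ ^ 2 = w.re ^ 2 + w.im ^ 2 := by
  rw [← Complex.normSq_eq_norm_sq, Complex.normSq_apply]; ring

theorem li_sg (w : ℂ) : li (sg w) = ((1 : ℝ), (!₂[2 * w.re / (w.re ^ 2 + w.im ^ 2 + 1),
    2 * w.im / (w.re ^ 2 + w.im ^ 2 + 1),
    (w.re ^ 2 + w.im ^ 2 - 1) / (w.re ^ 2 + w.im ^ 2 + 1)] : E3)) := by
  rw [← ns]; rfl

theorem li_np : li np = ((1 : ℝ), (!₂[0, 0, 1] : E3)) := rfl

theorem li_sg0 : li (sg 0) = ((1 : ℝ), (!₂[0, 0, -1] : E3)) := by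
  rw [li_sg]
  simp

theorem li_sg1 : li (sg 1) = ((1 : ℝ), (!₂[1, 0, 0] : E3)) := by
  rw [li_sg]
  norm_num

theorem decomp (f : (ℝ × E3) ≃L[ℝ] (ℝ × E3)) (p q r s : ℝ) :
    f (p, !₂[q, r, s]) = p • f (1, 0) + q • f (0, !₂[1, 0, 0]) + r • f (0, !₂[0, 1, 0]) +
      s • f (0, !₂[0, 0, 1]) := by
  rw [← map_smul, ← map_smul, ← map_smul, ← map_smul, ← map_add, ← map_add, ← map_add]
  congr 1
  apply Prod.ext
  · simp
  · ext i
    fin_cases i <;> simp

/-- The boundary map of an isometry which fixes three points is the identity or a reflection. -/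
theorem rigid (T : IsoGrp E3) (hn : T • np = np) (h0 : T • sg 0 = sg 0) (h1 : T • sg 1 = sg 1) :
    (∀ v, T • sg v = sg v) ∨ (∀ v, T • sg v = sg ((starRingEnd ℂ) v)) := by
  obtain ⟨a, ha, ea⟩ := smul_spec T np
  obtain ⟨b, hb, eb⟩ := smul_spec T (sg 0)
  obtain ⟨c, hc, ec⟩ := smul_spec T (sg 1)
  rw [hn] at ea
  rw [h0] at eb
  rw [h1] at ec
  have i1 : inner ℝ (np : E3) (sg 0 : E3) ≠ (1 : ℝ) := by
    have h := bf_li np (sg 0)
    rw [li_np, li_sg0] at h
    simp only [bf, inn] at h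
    intro h2
    rw [inn] at h2
    rw [h2] at h
    simp at h
  have i2 : inner ℝ (np : E3) (sg 1 : E3) ≠ (1 : ℝ) := by
    have h := bf_li np (sg 1)
    rw [li_np, li_sg1] at h
    simp only [bf, inn] at h
    intro h2
    rw [inn] at h2
    rw [h2] at h
    simp at h
  have i3 : inner ℝ (sg 0 : E3) (sg 1 : E3) ≠ (1 : ℝ) := by
    have h := bf_li (sg 0) (sg 1)
    rw [li_sg0, li_sg1] at h
    simp only [bf, inn] at h
    intro h2
    rw [inn] at h2
    rw [h2] at h
    simp at h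
  have e1 := mul_eq_one ea eb i1
  have e2 := mul_eq_one ea ec i2
  have e3 := mul_eq_one eb ec i3
  have e4 : b = c := mul_left_cancel₀ ha.ne' (by rw [e1, e2])
  have e5 : b = 1 := by rw [← e4] at e3; nlinarith
  have e6 : a = 1 := by rw [e5, mul_one] at e1; exact e1
  have e7 : c = 1 := by rw [← e4, e5]
  rw [e6, one_smul] at ea
  rw [e5, one_smul] at eb
  rw [e7, one_smul] at ec
  set f : (ℝ × E3) ≃L[ℝ] (ℝ × E3) := (T : (ℝ × E3) ≃L[ℝ] (ℝ × E3)) with hf
  have hiso : IsIso f := T.2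
  have k0 : f (1, 0) = (1, 0) := by
    have h : ((1 : ℝ), (0 : E3)) = (1 / 2 : ℝ) • (li np + li (sg 0)) := by
      rw [li_np, li_sg0]
      apply Prod.ext
      · simp
        norm_num
      · ext i
        fin_cases i <;> simp
    rw [h, map_smul, map_add, ea, eb]
  have k3 : f (0, !₂[0, 0, 1]) = (0, !₂[0, 0, 1]) := by
    have h : ((0 : ℝ), (!₂[0, 0, 1] : E3)) = (1 / 2 : ℝ) • (li np - li (sg 0)) := by
      rw [li_np, li_sg0]
      apply Prod.ext
      · simp
      · ext i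
        fin_cases i <;> simp
        norm_num
    rw [h, map_smul, map_sub, ea, eb]
  have k1 : f (0, !₂[1, 0, 0]) = (0, !₂[1, 0, 0]) := by
    have h : ((0 : ℝ), (!₂[1, 0, 0] : E3)) = li (sg 1) - (1, 0) := by
      rw [li_sg1]
      apply Prod.ext
      · simp
      · ext i
        fin_cases i <;> simp
    rw [h, map_sub, ec, k0]
  obtain ⟨t, u, hu⟩ : ∃ (t : ℝ) (u : E3), f (0, !₂[0, 1, 0]) = (t, u) := ⟨_, _, rfl⟩
  have b0 := bf_iso hiso (0, !₂[0, 1, 0]) (1, 0)
  have b1 := bf_iso hiso (0, !₂[0, 1, 0]) (0, !₂[1, 0, 0])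
  have b3 := bf_iso hiso (0, !₂[0, 1, 0]) (0, !₂[0, 0, 1])
  have bq := hiso.1 (0, !₂[0, 1, 0])
  rw [hu, k0] at b0
  rw [hu, k1] at b1
  rw [hu, k3] at b3
  rw [hu] at bq
  have t0 : t = 0 := by
    simp only [bf, inn] at b0
    simpa using b0
  have u0 : u 0 = 0 := by
    simp only [bf, inn] at b1
    simpa using b1
  have u2 : u 2 = 0 := by
    simp only [bf, inn] at b3
    simpa using b3
  have u1 : u 1 ^ 2 = 1 := by
    simp only [qf, nsq] at bq
    rw [u0, u2, t0] at bq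
    simpa using bq
  have hu' : u = !₂[0, u 1, 0] := by
    ext i
    fin_cases i
    · simpa using u0
    · simp
    · simpa using u2
  have key : ∀ v : ℂ, f (li (sg v)) = ((1 : ℝ), (!₂[2 * v.re / (v.re ^ 2 + v.im ^ 2 + 1),
      u 1 * (2 * v.im / (v.re ^ 2 + v.im ^ 2 + 1)),
      (v.re ^ 2 + v.im ^ 2 - 1) / (v.re ^ 2 + v.im ^ 2 + 1)] : E3)) := by
    intro v
    rw [li_sg, decomp, k0, k1, k3, hu, t0, hu']
    apply Prod.ext
    · simp
    · ext i
      fin_cases i
      · simp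
      · simp
        ring
      · simp
  have hz : (u 1 - 1) * (u 1 + 1) = 0 := by linear_combination u1
  rcases mul_eq_zero.1 hz with h | h
  · left
    have h := sub_eq_zero.1 h
    intro v
    refine smul_eq_of one_pos ?_
    rw [← hf, key, h, one_smul, one_mul, li_sg]
  · right
    have h := eq_neg_of_add_eq_zero_left h
    intro v
    refine smul_eq_of one_pos ?_
    rw [← hf, key, h, one_smul, li_sg]
    apply Prod.ext
    · rfl
    · ext i
      fin_cases i
      · simp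
      · simp
        ring
      · simp

theorem sg_inj (hs : S_ster) {v w : ℂ} (h : sg v = sg w) : v = w := by
  obtain ⟨π, hπ, -⟩ := hs
  rw [← hπ v, h, hπ]

/-- The boundary map of an isometry which fixes the north pole. -/
theorem fixnp (hl : S_lor) (hs : S_ster) (T : IsoGrp E3) (hn : T • np = np) :
    ∃ c d : ℂ, c ≠ 0 ∧ ((∀ v, T • sg v = sg (c * v + d)) ∨
      (∀ v, T • sg v = sg (c * (starRingEnd ℂ) v + d))) := by
  have hs' := hs
  obtain ⟨π, hπ, hπ', hnp, -⟩ := hs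
  have hne : ∀ v, T • sg v ≠ np := by
    intro v h
    rw [← hn] at h
    exact hnp v (smul_left_cancel T h)
  have h0 : T • sg 0 = sg (π (T • sg 0)) := (hπ' _ (hne 0)).symm
  have h1 : T • sg 1 = sg (π (T • sg 1)) := (hπ' _ (hne 1)).symm
  obtain ⟨d, hd⟩ : ∃ d, d = π (T • sg 0) := ⟨_, rfl⟩
  obtain ⟨d', hd'⟩ : ∃ d', d' = π (T • sg 1) := ⟨_, rfl⟩
  rw [← hd] at h0
  rw [← hd'] at h1
  have hc : d' - d ≠ 0 := by
    intro h
    have h2 : d' = d := sub_eq_zero.1 h
    rw [h2, ← h0] at h1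
    have h3 := sg_inj hs' (smul_left_cancel T h1)
    exact one_ne_zero h3
  obtain ⟨A, hA, hA'⟩ := hl.1 (d' - d) d hc
  have hS := rigid (A⁻¹ * T) (by rw [mul_smul, hn, inv_smul_eq_iff, hA])
    (by rw [mul_smul, h0, inv_smul_eq_iff, hA', mul_zero, zero_add])
    (by rw [mul_smul, h1, inv_smul_eq_iff, hA', mul_one, sub_add_cancel])
  refine ⟨d' - d, d, hc, ?_⟩
  rcases hS with h | h
  · left
    intro v
    have := h v
    rw [mul_smul, inv_smul_eq_iff, hA'] at this
    exact this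
  · right
    intro v
    have := h v
    rw [mul_smul, inv_smul_eq_iff, hA'] at this
    exact this

theorem an1 (c d w : ℂ) : AnalyticAt ℂ (fun v : ℂ => c * v + d) w := by
  fun_prop

theorem conf1 (c d w : ℂ) : ConfAt (fun v : ℂ => c * v + d) w := Or.inl (an1 c d w)

theorem conf2 (c d w : ℂ) : ConfAt (fun v : ℂ => c * (starRingEnd ℂ) v + d) w := by
  right
  refine (an1 ((starRingEnd ℂ) c) ((starRingEnd ℂ) d) w).congr (Eventually.of_forall fun v => ?_)
  simp

theorem an3 (c d q w : ℂ) (h : c * w + d ≠ 0) :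
    AnalyticAt ℂ (fun v : ℂ => q + (c * v + d)⁻¹) w :=
  analyticAt_const.add ((an1 c d w).inv h)

theorem conf3 (c d q w : ℂ) (h : c * w + d ≠ 0) :
    ConfAt (fun v : ℂ => q + (c * v + d)⁻¹) w := Or.inl (an3 c d q w h)

theorem conf4 (c d q w : ℂ) (h : c * (starRingEnd ℂ) w + d ≠ 0) :
    ConfAt (fun v : ℂ => q + (c * (starRingEnd ℂ) v + d)⁻¹) w := by
  right
  have h2 : (starRingEnd ℂ) c * w + (starRingEnd ℂ) d ≠ 0 := by
    intro h3
    apply h
    have := congrArg (starRingEnd ℂ) h3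
    simpa using this
  refine (an3 ((starRingEnd ℂ) c) ((starRingEnd ℂ) d) ((starRingEnd ℂ) q) w h2).congr
    (Eventually.of_forall fun v => ?_)
  simp

theorem main (hl : S_lor) (hs : S_ster) (T : IsoGrp E3) (w w2 : ℂ) (h : T • sg w = sg w2) :
    ∃ F : ℂ → ℂ, ConfAt F w ∧ ∀ᶠ v in 𝓝 w, T • sg v = sg (F v) := by
  by_cases hn : T • np = np
  · obtain ⟨c, d, -, h1 | h1⟩ := fixnp hl hs T hn
    · exact ⟨_, conf1 c d w, Eventually.of_forall h1⟩
    · exact ⟨_, conf2 c d w, Eventually.of_forall h1⟩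
  · have hs' := hs
    obtain ⟨π, hπ, hπ', hnp, -⟩ := hs'
    obtain ⟨q, hq⟩ : ∃ q, T • np = sg q := ⟨_, (hπ' _ hn).symm⟩
    obtain ⟨B, hB, hB'⟩ := hl.1 1 (-q) one_ne_zero
    obtain ⟨I, hI, hI0, hI'⟩ := hl.2.2
    have hwq : w2 - q ≠ 0 := by
      intro h2
      rw [sub_eq_zero.1 h2, ← hq] at h
      exact hnp w (smul_left_cancel T h)
    have hBT : ∀ x : Sph E3, (I * B * T) • x = I • B • T • x := fun x => by
      rw [mul_smul, mul_smul]
    have hTn : (I * B * T) • np = np := by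
      rw [hBT, hq, hB', one_mul, add_neg_cancel, hI0]
    have hTw : (I * B * T) • sg w = sg (w2 - q)⁻¹ := by
      rw [hBT, h, hB', one_mul, ← sub_eq_add_neg, hI' _ hwq]
    have hback : ∀ v z : ℂ, z ≠ 0 → (I * B * T) • sg v = sg z → T • sg v = sg (q + z⁻¹) := by
      intro v z hz hv
      apply smul_left_cancel B
      apply smul_left_cancel I
      rw [← hBT, hv, hB']
      have : 1 * (q + z⁻¹) + -q = z⁻¹ := by ring
      rw [this, hI' _ (inv_ne_zero hz), inv_inv]
    obtain ⟨c, d, -, h1 | h1⟩ := fixnp hl hs (I * B * T) hTn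
    · have hne : c * w + d ≠ 0 := by
        have := sg_inj hs ((h1 w).symm.trans hTw)
        rw [this]
        exact inv_ne_zero hwq
      refine ⟨_, conf3 c d q w hne, ?_⟩
      have hc : ContinuousAt (fun v : ℂ => c * v + d) w := by fun_prop
      filter_upwards [hc.eventually_ne hne] with v hv
      exact hback v _ hv (h1 v)
    · have hne : c * (starRingEnd ℂ) w + d ≠ 0 := by
        have := sg_inj hs ((h1 w).symm.trans hTw)
        rw [this]
        exact inv_ne_zero hwq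
      refine ⟨_, conf4 c d q w hne, ?_⟩
      have hc : ContinuousAt (fun v : ℂ => c * (starRingEnd ℂ) v + d) w :=
        (continuousAt_const.mul Complex.continuous_conj.continuousAt).add continuousAt_const
      filter_upwards [hc.eventually_ne hne] with v hv
      exact hback v _ hv (h1 v)

end Germ619

theorem germ (hc : S_comp) (hl : S_lor) (hs : S_ster) (T : Pool.TH345.LC.IsoGrp E3) (w w2 : ℂ)
    (h : T • sg w = sg w2) :
    ∃ F : ℂ → ℂ, ConfAt F w ∧ ∀ᶠ v in 𝓝 w, T • sg v = sg (F v) :=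
  Germ619.main hl hs T w w2 h

end Pool.TH345.CC
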