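import Pool.Agent.TH345.CC.Stmts
import Pool.Agent.Helper859.Br.C1

set_option autoImplicit false

set_option linter.unusedSectionVars false

open Filter Topology Set Metric

namespace Pool.TH345.CC.Glob2

open Pool.Agent.TH631.RC (Action IsConvergence)

variable {G : Type} [Group G] {X : Type} [MetricSpace X] [CompactSpace X] {α : Action G X}
  {U : Set X} {φ : X → ℂ} {g : G} {a : X} {R : ℝ} {F : ℂ → ℂ}

theorem exists_inv [Nonempty X] (hφ : Chart U φ) : ∃ χ : ℂ → X, (∀ x ∈ U, χ (φ x) = x) ∧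
    (∀ z ∈ φ '' U, χ z ∈ U ∧ φ (χ z) = z) ∧ ∀ z ∈ φ '' U, ContinuousAt χ z := by
  have h1 : ∀ x ∈ U, Function.invFunOn φ U (φ x) = x := fun x hx =>
    hφ.inj.leftInvOn_invFunOn hx
  refine ⟨Function.invFunOn φ U, h1, fun z hz => ⟨Function.invFunOn_mem hz,
    Function.invFunOn_eq hz⟩, ?_⟩
  rintro _ ⟨x, hx, rfl⟩
  rw [ContinuousAt, h1 x hx]
  intro V hV
  obtain ⟨V', hV', hV'o, hxV'⟩ := _root_.mem_nhds_iff.1 hV
  have h2 : IsOpen (φ '' (V' ∩ U)) := hφ.image _ inter_subset_right (hV'o.inter hφ.isOpen)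
  rw [mem_map]
  refine mem_of_superset (h2.mem_nhds ⟨x, ⟨hxV', hx⟩, rfl⟩) ?_
  rintro _ ⟨y, ⟨hy, hyU⟩, rfl⟩
  change Function.invFunOn φ U (φ y) ∈ V
  rw [h1 y hyU]
  exact hV' hy

theorem act_inv (α : Action G X) (k : G) (x : X) : α.map k⁻¹ (α.map k x) = x := by
  rw [← α.map_mul, inv_mul_cancel, α.map_one]

theorem act_inv' (α : Action G X) (k : G) (x : X) : α.map k (α.map k⁻¹ x) = x := by
  rw [← α.map_mul, mul_inv_cancel, α.map_one]

theorem act_inj (α : Action G X) (k : G) {x y : X} (h : α.map k x = α.map k y) : x = y := by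
  rw [← act_inv α k x, h, act_inv]

theorem main (hk : S_koenigs) (hcomp : S_comp) (hα : IsConvergence α) (hφ : Chart U φ)
    (hr : Returns α univ U φ) (hL : Lox α U φ g a R F) :
    ∃ (b : X) (Θ : ℂ → X), Global α b Θ := by
  classical
  have : Nonempty X := ⟨a⟩
  obtain ⟨χ, hχ1, hχ2, hχ3⟩ := exists_inv hφ
  have hF0 : F 0 = 0 := by
    have h1 := (hL.maps a hL.mem (by rw [hL.zero]; exact mem_ball_self hL.pos)).2
    rw [hL.fix, hL.zero] at h1
    exact h1.symm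
  have hFinj : InjOn F (ball 0 R) := by
    intro z hz z' hz' h
    obtain ⟨x, hx, rfl⟩ := hL.sub hz
    obtain ⟨x', hx', rfl⟩ := hL.sub hz'
    obtain ⟨h1, h2⟩ := hL.maps x hx hz
    obtain ⟨h3, h4⟩ := hL.maps x' hx' hz'
    rw [← h2, ← h4] at h
    rw [act_inj α g (hφ.inj h1 h3 h)]
  have hlam : deriv F 0 ≠ 0 :=
    Pool.Agent.Helper859.Br.C1.deriv_ne_zero_of_injOn isOpen_ball hL.diff hFinj (mem_ball_self hL.pos)
  obtain ⟨s, κ, hs, hsR, hκd, hκi, hκ0, hκb, hκF⟩ := hk F R (2 / 3) hL.pos (by norm_num)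
    (by norm_num) hL.diff hF0 hL.contr hlam
  set lam := deriv F 0 with hlamdef
  have hsub : ball (0 : ℂ) s ⊆ ball 0 R := ball_subset_ball hsR
  set D : Set X := {x | x ∈ U ∧ φ x ∈ ball (0 : ℂ) s} with hD
  have hDo : IsOpen D := hφ.cont.isOpen_inter_preimage hφ.isOpen isOpen_ball
  have haD : a ∈ D := ⟨hL.mem, by rw [hL.zero]; exact mem_ball_self hs⟩
  have hstep : ∀ x ∈ D, α.map g x ∈ D ∧ φ (α.map g x) = F (φ x) ∧
      ‖φ (α.map g x)‖ ≤ (2 / 3) * ‖φ x‖ := by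
    rintro x ⟨hx, hx'⟩
    obtain ⟨h1, h2⟩ := hL.maps x hx (hsub hx')
    have h3 := hL.contr _ (hsub hx')
    rw [← h2] at h3
    refine ⟨⟨h1, ?_⟩, h2, h3⟩
    rw [mem_ball_zero_iff] at hx' ⊢
    have := norm_nonneg (φ x)
    linarith
  have hiter : ∀ n : ℕ, ∀ x ∈ D, α.map (g ^ n) x ∈ D ∧
      ‖φ (α.map (g ^ n) x)‖ ≤ (2 / 3) ^ n * ‖φ x‖ ∧
      κ (φ (α.map (g ^ n) x)) = lam ^ n * κ (φ x) := by
    intro n
    induction n with
    | zero =>
      intro x hx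
      simp only [pow_zero, α.map_one, one_mul]
      exact ⟨hx, le_rfl, trivial⟩
    | succ n ih =>
      intro x hx
      obtain ⟨h1, h2, h3⟩ := ih x hx
      obtain ⟨h4, h5, h6⟩ := hstep _ h1
      have h7 : α.map (g ^ (n + 1)) x = α.map g (α.map (g ^ n) x) := by
        rw [← α.map_mul, pow_succ']
      rw [h7]
      refine ⟨h4, ?_, ?_⟩
      · calc _ ≤ (2 / 3) * ‖φ (α.map (g ^ n) x)‖ := h6
          _ ≤ (2 / 3) * ((2 / 3) ^ n * ‖φ x‖) := by gcongr
          _ = _ := by ring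
      · rw [h5, hκF _ h1.2, h3]
        ring
  -- a second point of `D`
  obtain ⟨x₁, hx₁D, hx₁⟩ : ∃ x₁ ∈ D, φ x₁ ≠ 0 := by
    have h1 : ((s / 2 : ℝ) : ℂ) ∈ ball (0 : ℂ) s := by
      rw [mem_ball_zero_iff, Complex.norm_real, Real.norm_of_nonneg (by positivity)]
      linarith
    obtain ⟨x, hx, hx'⟩ := hL.sub (hsub h1)
    refine ⟨x, ⟨hx, by rw [hx']; exact h1⟩, ?_⟩
    rw [hx']
    exact_mod_cast (by positivity : (s / 2 : ℝ) ≠ 0)
  have hne : a ≠ x₁ := by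
    rintro rfl
    exact hx₁ hL.zero
  have hDuniv : D ≠ univ := by
    intro h
    have h1 : φ '' U = ball 0 s := by
      apply Subset.antisymm
      · rintro _ ⟨x, hx, rfl⟩
        have : x ∈ D := by rw [h]; exact mem_univ _
        exact this.2
      · exact hsub.trans hL.sub
    have hU : U = univ := by
      apply eq_univ_of_forall
      intro x
      have : x ∈ D := by rw [h]; exact mem_univ _
      exact this.1
    have h2 : IsCompact (ball (0 : ℂ) s) := by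
      rw [← h1, hU]
      exact isCompact_univ.image_of_continuousOn (by rw [← hU]; exact hφ.cont)
    have h3 : IsClosed (ball (0 : ℂ) s) := h2.isClosed
    have h4 := h3.closure_eq
    rw [closure_ball (0 : ℂ) hs.ne'] at h4
    have h5 : ((s : ℝ) : ℂ) ∈ closedBall (0 : ℂ) s := by
      rw [mem_closedBall_zero_iff, Complex.norm_real, Real.norm_of_nonneg hs.le]
    rw [h4, mem_ball_zero_iff, Complex.norm_real, Real.norm_of_nonneg hs.le] at h5
    exact lt_irrefl _ h5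
  have hginj : Function.Injective fun n : ℕ => g ^ n := by
    have key : ∀ k : ℕ, 0 < k → g ^ k ≠ 1 := by
      intro k hk0 h
      have h1 := (hiter k x₁ hx₁D).2.1
      rw [h, α.map_one] at h1
      have h2 : (2 / 3 : ℝ) ^ k < 1 := pow_lt_one₀ (by norm_num) (by norm_num) hk0.ne'
      have h3 : 0 < ‖φ x₁‖ := norm_pos_iff.2 hx₁
      nlinarith
    have key2 : ∀ m n : ℕ, m < n → g ^ m ≠ g ^ n := by
      intro m n hmn h
      apply key (n - m) (by omega)
      have h1 : g ^ m * g ^ (n - m) = g ^ m * 1 := by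
        rw [← pow_add, mul_one, h]
        congr 1
        omega
      exact mul_left_cancel h1
    intro m n h
    rcases lt_trichotomy m n with h1 | h1 | h1
    · exact absurd h (key2 m n h1)
    · exact h1
    · exact absurd h.symm (key2 n m h1)
  have hgt : Tendsto (fun n : ℕ => g ^ n) atTop cofinite := by
    rw [← Nat.cofinite_eq_atTop]
    exact hginj.tendsto_cofinite
  have hlim : ∀ x ∈ D, Tendsto (fun n : ℕ => α.map (g ^ n) x) atTop (𝓝 a) := by
    intro x hx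
    have h1 : Tendsto (fun n : ℕ => φ (α.map (g ^ n) x)) atTop (𝓝 0) := by
      rw [tendsto_zero_iff_norm_tendsto_zero]
      refine squeeze_zero (fun n => norm_nonneg _) (fun n => (hiter n x hx).2.1) ?_
      have := (tendsto_pow_atTop_nhds_zero_of_lt_one (by norm_num : (0 : ℝ) ≤ 2 / 3)
        (by norm_num)).mul_const ‖φ x‖
      simpa using this
    have h2 : ContinuousAt χ 0 := hχ3 0 (hL.sub (mem_ball_self hL.pos))
    have h3 : χ 0 = a := by
      rw [← hL.zero]; exact hχ1 a hL.mem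
    have h4 := h2.tendsto.comp h1
    rw [h3] at h4
    refine h4.congr fun n => ?_
    exact hχ1 _ (hiter n x hx).1.1
  obtain ⟨ψ, hψ, p, b, hpb⟩ := hα _ hgt
  have hcv : ∀ x, x ≠ b → Tendsto (fun n : ℕ => α.map (g ^ (ψ n)) x) atTop (𝓝 p) := by
    intro x hx
    rw [tendsto_def]
    intro V hV
    have h1 := hpb V hV {x}ᶜ (isOpen_compl_singleton.mem_nhds (Ne.symm hx))
    filter_upwards [h1] with n hn
    exact hn x (by simp)
  have hpa : p = a := by
    obtain ⟨x, hx, hxb⟩ : ∃ x ∈ D, x ≠ b := by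
      by_cases h : a = b
      · exact ⟨x₁, hx₁D, fun h' => hne (h.trans h'.symm)⟩
      · exact ⟨a, haD, h⟩
    exact tendsto_nhds_unique (hcv x hxb) ((hlim x hx).comp hψ.tendsto_atTop)
  subst hpa
  have hent : ∀ x, x ≠ b → ∃ n : ℕ, α.map (g ^ n) x ∈ D := by
    intro x hx
    obtain ⟨n, hn⟩ := ((hcv x hx).eventually_mem (hDo.mem_nhds haD)).exists
    exact ⟨_, hn⟩
  have hmono : ∀ (x : X) (m n : ℕ), m ≤ n → α.map (g ^ m) x ∈ D → α.map (g ^ n) x ∈ D := by
    intro x m n hmn h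
    have h1 : α.map (g ^ n) x = α.map (g ^ (n - m)) (α.map (g ^ m) x) := by
      rw [← α.map_mul, ← pow_add]
      congr 2
      omega
    rw [h1]
    exact (hiter _ _ h).1
  have hEo : ∀ n : ℕ, IsOpen {x | α.map (g ^ n) x ∈ D} := fun n => hDo.preimage (α.cont _)
  have hdir : Directed (· ⊆ ·) fun n : ℕ => {x | α.map (g ^ n) x ∈ D} := by
    intro m n
    exact ⟨max m n, fun x hx => hmono x m _ (le_max_left _ _) hx,
      fun x hx => hmono x n _ (le_max_right _ _) hx⟩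
  have hbD : ∀ n : ℕ, α.map (g ^ n) b ∉ D := by
    intro n hn
    have h1 : (univ : Set X) ⊆ ⋃ n : ℕ, {x | α.map (g ^ n) x ∈ D} := by
      intro x _
      rw [mem_iUnion]
      by_cases hx : x = b
      · exact ⟨n, by rw [hx]; exact hn⟩
      · exact hent x hx
    obtain ⟨N, hN⟩ := isCompact_univ.elim_directed_cover _ hEo h1 hdir
    apply hDuniv
    apply eq_univ_of_forall
    intro x
    have h2 := hN (mem_univ (α.map (g ^ N)⁻¹ x))
    have h3 : α.map (g ^ N) (α.map (g ^ N)⁻¹ x) ∈ D := h2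
    rwa [act_inv'] at h3
  -- the coordinate
  have hlamn : ∀ n : ℕ, lam ^ n ≠ 0 := fun n => pow_ne_zero n hlam
  set Ψ : X → ℂ := fun x => if h : ∃ n : ℕ, α.map (g ^ n) x ∈ D then
    (lam ^ (Nat.find h))⁻¹ * κ (φ (α.map (g ^ (Nat.find h)) x)) else 0 with hΨdef
  have hΨ : ∀ (x : X) (n : ℕ), α.map (g ^ n) x ∈ D →
      Ψ x = (lam ^ n)⁻¹ * κ (φ (α.map (g ^ n) x)) := by
    intro x n hn
    have hex : ∃ n : ℕ, α.map (g ^ n) x ∈ D := ⟨n, hn⟩
    have h0 := Nat.find_spec hex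
    have hle : Nat.find hex ≤ n := Nat.find_min' hex hn
    have h1 : α.map (g ^ n) x = α.map (g ^ (n - Nat.find hex)) (α.map (g ^ (Nat.find hex)) x) := by
      rw [← α.map_mul, ← pow_add]
      congr 2
      omega
    have h2 : Ψ x = (lam ^ (Nat.find hex))⁻¹ * κ (φ (α.map (g ^ (Nat.find hex)) x)) := by
      rw [hΨdef]
      simp only [dif_pos hex]
    rw [h2, h1, (hiter _ _ h0).2.2]
    have h3 : lam ^ n = lam ^ (Nat.find hex) * lam ^ (n - Nat.find hex) := by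
      rw [← pow_add]
      congr 1
      omega
    rw [h3]
    have := hlamn (Nat.find hex)
    have := hlamn (n - Nat.find hex)
    field_simp
  have hΨinj : ∀ x y, x ≠ b → y ≠ b → Ψ x = Ψ y → x = y := by
    intro x y hx hy h
    obtain ⟨n, hn⟩ := hent x hx
    obtain ⟨m, hm⟩ := hent y hy
    have h1 := hmono x n _ (le_max_left n m) hn
    have h2 := hmono y m _ (le_max_right n m) hm
    rw [hΨ x _ h1, hΨ y _ h2] at h
    have h3 := mul_left_cancel₀ (inv_ne_zero (hlamn _)) h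
    have h4 := hκi h1.2 h2.2 h3
    exact act_inj α _ (hφ.inj h1.1 h2.1 h4)
  obtain ⟨hOo, ki, hkid, hki, -⟩ := Pool.Agent.Helper859.Br.C1.inv_facts isOpen_ball hκd hκi
  set O : Set ℂ := κ '' ball 0 s with hO
  have hki2 : ∀ v ∈ O, ki v ∈ ball (0 : ℂ) s ∧ κ (ki v) = v := by
    rintro _ ⟨z, hz, rfl⟩
    rw [hki z hz]
    exact ⟨hz, rfl⟩
  obtain ⟨δ, hδ, hδO⟩ := Metric.isOpen_iff.1 hOo 0 ⟨0, mem_ball_self hs, hκ0⟩
  have hlam1 : ‖lam‖ < 1 := by
    have h1 : HasDerivAt F lam 0 := by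
      have : DifferentiableAt ℂ F 0 := hL.diff.differentiableAt (ball_mem_nhds 0 hL.pos)
      exact this.hasDerivAt
    have h2 := h1.tendsto_slope_zero
    have h3 : ‖lam‖ ≤ 2 / 3 := by
      refine le_of_tendsto h2.norm ?_
      have h4 : ball (0 : ℂ) R ∈ 𝓝[≠] (0 : ℂ) := mem_nhdsWithin_of_mem_nhds (ball_mem_nhds 0 hL.pos)
      filter_upwards [h4, self_mem_nhdsWithin] with t ht ht0
      have ht0' : t ≠ 0 := ht0
      rw [zero_add, hF0, sub_zero, norm_smul, norm_inv]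
      have h5 := hL.contr t ht
      have h6 : 0 < ‖t‖ := norm_pos_iff.2 ht0'
      rw [inv_mul_le_iff₀ h6]
      linarith
    linarith
  have hsmall : ∀ w : ℂ, ∃ n : ℕ, lam ^ n * w ∈ ball (0 : ℂ) δ := by
    intro w
    have h1 : Tendsto (fun n : ℕ => lam ^ n * w) atTop (𝓝 0) := by
      have := (tendsto_pow_atTop_nhds_zero_of_norm_lt_one hlam1).mul_const w
      simpa using this
    obtain ⟨n, hn⟩ := (h1.eventually_mem (ball_mem_nhds 0 hδ)).exists
    exact ⟨n, hn⟩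
  have hyD : ∀ v ∈ ball (0 : ℂ) δ, χ (ki v) ∈ D ∧ φ (χ (ki v)) = ki v := by
    intro v hv
    obtain ⟨h1, h2⟩ := hki2 v (hδO hv)
    obtain ⟨h3, h4⟩ := hχ2 (ki v) (hL.sub (hsub h1))
    exact ⟨⟨h3, by rw [h4]; exact h1⟩, h4⟩
  set θ : ℕ → ℂ → X := fun n w => α.map (g ^ n)⁻¹ (χ (ki (lam ^ n * w))) with hθdef
  have hθ : ∀ (n : ℕ) (w : ℂ), lam ^ n * w ∈ ball (0 : ℂ) δ →
      α.map (g ^ n) (θ n w) = χ (ki (lam ^ n * w)) ∧ θ n w ≠ b ∧ Ψ (θ n w) = w := by
    intro n w hw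
    obtain ⟨h1, h2⟩ := hyD _ hw
    have h3 : α.map (g ^ n) (θ n w) = χ (ki (lam ^ n * w)) := act_inv' α _ _
    refine ⟨h3, ?_, ?_⟩
    · intro h
      rw [h] at h3
      exact hbD n (by rw [h3]; exact h1)
    · rw [hΨ (θ n w) n (by rw [h3]; exact h1), h3, h2, (hki2 _ (hδO hw)).2,
        inv_mul_cancel_left₀ (hlamn n)]
  choose N hN using hsmall
  set Θ : ℂ → X := fun w => θ (N w) w with hΘdef
  have hΘb : ∀ w, Θ w ≠ b := fun w => (hθ (N w) w (hN w)).2.1
  have hΘΨ : ∀ w, Ψ (Θ w) = w := fun w => (hθ (N w) w (hN w)).2.2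
  have hΘn : ∀ (n : ℕ) (w : ℂ), lam ^ n * w ∈ ball (0 : ℂ) δ → Θ w = θ n w := by
    intro n w hw
    obtain ⟨-, h2, h3⟩ := hθ n w hw
    exact hΨinj _ _ (hΘb w) h2 (by rw [hΘΨ, h3])
  have hΨΘ : ∀ x, x ≠ b → Θ (Ψ x) = x := fun x hx =>
    hΨinj _ _ (hΘb _) hx (hΘΨ _)
  have hnear : ∀ (n : ℕ) (w : ℂ), lam ^ n * w ∈ ball (0 : ℂ) δ →
      ∀ᶠ v in 𝓝 w, lam ^ n * v ∈ ball (0 : ℂ) δ := by
    intro n w hw
    have h1 : ContinuousAt (fun v : ℂ => lam ^ n * v) w := by fun_prop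
    exact h1.eventually_mem (isOpen_ball.mem_nhds hw)
  have hkic : ∀ v ∈ ball (0 : ℂ) δ, ContinuousAt ki v := fun v hv =>
    (hkid.differentiableAt (hOo.mem_nhds (hδO hv))).continuousAt
  have hyc : ∀ (n : ℕ) (w : ℂ), lam ^ n * w ∈ ball (0 : ℂ) δ →
      ContinuousAt (fun v => χ (ki (lam ^ n * v))) w := by
    intro n w hw
    have h1 : ContinuousAt (fun v : ℂ => lam ^ n * v) w := by fun_prop
    have h2 : ContinuousAt (fun v : ℂ => ki (lam ^ n * v)) w :=
      ContinuousAt.comp (f := fun v : ℂ => lam ^ n * v) (hkic _ hw) h1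
    exact ContinuousAt.comp (f := fun v : ℂ => ki (lam ^ n * v))
      (hχ3 _ (hL.sub (hsub (hki2 _ (hδO hw)).1))) h2
  refine ⟨b, Θ, ⟨?_, ?_, ?_, ?_, ?_⟩⟩
  · rw [continuous_iff_continuousAt]
    intro w
    obtain ⟨n, hn⟩ : ∃ n, lam ^ n * w ∈ ball (0 : ℂ) δ := ⟨N w, hN w⟩
    have h1 : ContinuousAt (θ n) w := (α.cont _).continuousAt.comp (hyc n w hn)
    refine h1.congr ?_
    filter_upwards [hnear n w hn] with v hv
    exact (hΘn n v hv).symm
  · intro w w' h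
    rw [← hΘΨ w, h, hΘΨ]
  · apply Subset.antisymm
    · rintro _ ⟨w, rfl⟩
      exact hΘb w
    · intro x hx
      exact ⟨Ψ x, hΨΘ x hx⟩
  · intro W hW
    obtain ⟨W', hW', hW'o, hbW'⟩ := _root_.mem_nhds_iff.1 hW
    have h1 : W'ᶜ ⊆ ⋃ n : ℕ, {x | α.map (g ^ n) x ∈ D} := by
      intro x hx
      rw [mem_iUnion]
      exact hent x fun h => hx (by rw [h]; exact hbW')
    obtain ⟨M, hM⟩ := hW'o.isClosed_compl.isCompact.elim_directed_cover _ hEo h1 hdir
    have h2 : (closedBall (0 : ℂ) (‖lam ^ M‖⁻¹ * (2 * s)))ᶜ ∈ cocompact ℂ :=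
      (isCompact_closedBall _ _).compl_mem_cocompact
    rw [mem_map]
    refine mem_of_superset h2 fun w hw => ?_
    by_contra hcon
    apply hw
    have h3 : Θ w ∈ W'ᶜ := fun h => hcon (hW' h)
    have h4 : α.map (g ^ M) (Θ w) ∈ D := hM h3
    have h5 := hΨ (Θ w) M h4
    rw [hΘΨ] at h5
    rw [mem_closedBall_zero_iff, h5, norm_mul, norm_inv]
    have h6 := hκb _ h4.2
    have h7 := h4.2
    rw [mem_ball_zero_iff] at h7
    have h8 : 0 ≤ ‖lam ^ M‖⁻¹ := by positivity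
    gcongr
    linarith
  · intro h w w' hw
    obtain ⟨n, hn⟩ : ∃ n, lam ^ n * w ∈ ball (0 : ℂ) δ := ⟨N w, hN w⟩
    obtain ⟨m, hm⟩ : ∃ m, lam ^ m * w' ∈ ball (0 : ℂ) δ := ⟨N w', hN w'⟩
    set k : G := g ^ m * h * (g ^ n)⁻¹ with hkdef
    have hk1 : ∀ v, lam ^ n * v ∈ ball (0 : ℂ) δ →
        α.map k (χ (ki (lam ^ n * v))) = α.map (g ^ m) (α.map h (Θ v)) := by
      intro v hv
      rw [hΘn n v hv, hkdef, α.map_mul, α.map_mul]
    set x₂ := χ (ki (lam ^ n * w)) with hx₂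
    have hx₂D : x₂ ∈ D := (hyD _ hn).1
    have hkx : α.map k x₂ ∈ D := by
      rw [hx₂, hk1 w hn, hw, hΘn m w' hm, (hθ m w' hm).1]
      exact (hyD _ hm).1
    obtain ⟨F', hF', hF''⟩ := hr k (mem_univ _) x₂ hx₂D.1 hkx.1
    have hφx₂ : φ x₂ = ki (lam ^ n * w) := (hyD _ hn).2
    refine ⟨fun v => (lam ^ m)⁻¹ * κ (F' (ki (lam ^ n * v))), ?_, ?_⟩
    · have h1 : ConfAt (fun v => ki (lam ^ n * v)) w := by
        left
        have h2 : AnalyticAt ℂ ki (lam ^ n * w) := hkid.analyticAt (hOo.mem_nhds (hδO hn))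
        have h3 : AnalyticAt ℂ (fun v : ℂ => lam ^ n * v) w := by fun_prop
        exact h2.comp_of_eq h3 rfl
      have h2 : ConfAt (fun v => F' (ki (lam ^ n * v))) w := by
        refine hcomp _ F' w h1 ?_
        rw [← hφx₂]
        exact hF'
      refine hcomp (fun v => F' (ki (lam ^ n * v))) (fun z => (lam ^ m)⁻¹ * κ z) w h2 ?_
      left
      have h3 : F' (ki (lam ^ n * w)) ∈ ball (0 : ℂ) s := by
        rw [← hφx₂, ← hF''.self_of_nhds]
        exact hkx.2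
      exact analyticAt_const.mul (hκd.analyticAt (isOpen_ball.mem_nhds h3))
    · have h1 := (hyc n w hn).tendsto.eventually hF''
      have h2 : ∀ᶠ v in 𝓝 w, α.map k (χ (ki (lam ^ n * v))) ∈ D := by
        have h3 : ContinuousAt (fun v => α.map k (χ (ki (lam ^ n * v)))) w :=
          (α.cont k).continuousAt.comp (hyc n w hn)
        exact h3.eventually_mem (hDo.mem_nhds hkx)
      filter_upwards [h1, h2, hnear n w hn] with v hv1 hv2 hv3
      rw [hk1 v hv3] at hv1 hv2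
      rw [(hyD _ hv3).2] at hv1
      have h4 : α.map h (Θ v) ≠ b := by
        intro h5
        rw [h5] at hv2
        exact hbD m hv2
      rw [← hΨΘ _ h4, hΨ _ m hv2, hv1]

theorem global (hk : S_koenigs) (hc : S_comp) : S_global := by
  intro G _ X _ _ α U φ g a R F hα hφ hr hL
  exact main hk hc hα hφ hr hL

end Pool.TH345.CC.Glob2
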