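import Pool.Agent.TH345.CC.Stmts

/-! # Koenigs linearisation -/

set_option autoImplicit false

open Filter Topology Set Metric

namespace Pool.TH345.CC

namespace Koe_

theorem exists_rad {F : ℂ → ℂ} {R q : ℝ} (hR : 0 < R) (hq : q < 1)
    (hF : DifferentiableOn ℂ F (ball 0 R)) (hF0 : F 0 = 0)
    (hb : ∀ z ∈ ball (0 : ℂ) R, ‖F z‖ ≤ q * ‖z‖) (hl : deriv F 0 ≠ 0) :
    ∃ s r C : ℝ, 0 < s ∧ s ≤ R ∧ 0 < r ∧ r < 1 ∧ r ^ 2 < ‖deriv F 0‖ ∧ 0 ≤ C ∧
      ∀ z ∈ ball (0 : ℂ) s, ‖F z‖ ≤ r * ‖z‖ ∧ ‖F z - deriv F 0 * z‖ ≤ C * ‖z‖ ^ 2 := by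
  have hmem : ball (0 : ℂ) R ∈ 𝓝 (0 : ℂ) := ball_mem_nhds 0 hR
  have hG : DifferentiableOn ℂ (dslope F 0) (ball 0 R) :=
    (Complex.differentiableOn_dslope hmem).2 hF
  have hG0 : dslope F 0 0 = deriv F 0 := dslope_same F 0
  have hGd : DifferentiableAt ℂ (dslope F 0) 0 := hG.differentiableAt hmem
  have hFG : ∀ z, F z = z * dslope F 0 z := by
    intro z
    have := sub_smul_dslope F 0 z
    rw [hF0, sub_zero, sub_zero, smul_eq_mul] at this
    exact this.symm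
  obtain ⟨L, hL⟩ : ∃ L : ℝ, L = ‖deriv F 0‖ := ⟨_, rfl⟩
  have hL0 : 0 < L := by rw [hL]; exact norm_pos_iff.2 hl
  have hLq : L ≤ q := by
    have h1 : Tendsto (fun z => ‖dslope F 0 z‖) (𝓝[≠] 0) (𝓝 L) := by
      rw [hL, ← hG0]
      exact (hGd.continuousAt.norm.tendsto).mono_left nhdsWithin_le_nhds
    refine le_of_tendsto h1 ?_
    filter_upwards [nhdsWithin_le_nhds hmem, self_mem_nhdsWithin] with z hz hz0
    have h2 := hb z hz
    rw [hFG z, norm_mul, mul_comm] at h2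
    exact le_of_mul_le_mul_right h2 (norm_pos_iff.2 hz0)
  have hL1 : L < 1 := lt_of_le_of_lt hLq hq
  have hs0 : 0 < Real.sqrt L := Real.sqrt_pos.2 hL0
  have hss : Real.sqrt L * Real.sqrt L = L := Real.mul_self_sqrt hL0.le
  have hs1 : Real.sqrt L < 1 := by
    rw [Real.sqrt_lt' one_pos]
    simpa using hL1
  have hLs : L < Real.sqrt L := by nlinarith
  obtain ⟨r, hr⟩ : ∃ r : ℝ, r = (L + Real.sqrt L) / 2 := ⟨_, rfl⟩
  have hLr : L < r := by rw [hr]; linarith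
  have hrs : r < Real.sqrt L := by rw [hr]; linarith
  have hr0 : 0 < r := hL0.trans hLr
  have e1 : ∀ᶠ z in 𝓝 (0 : ℂ), ‖dslope F 0 z‖ < r :=
    hGd.continuousAt.norm.eventually_lt_const (by show ‖dslope F 0 0‖ < r; rw [hG0, ← hL]; exact hLr)
  obtain ⟨C, hC⟩ := (hGd.isBigO_sub).bound
  obtain ⟨ε, hε, hεb⟩ := Metric.eventually_nhds_iff_ball.1 (e1.and hC)
  refine ⟨min ε R, r, max C 0, lt_min hε hR, min_le_right _ _, hr0, hrs.trans hs1, ?_,
    le_max_right _ _, ?_⟩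
  · rw [← hL]
    nlinarith
  · intro z hz
    have hz' : z ∈ ball (0 : ℂ) ε := ball_subset_ball (min_le_left _ _) hz
    obtain ⟨h1, h2⟩ := hεb z hz'
    rw [hG0, sub_zero] at h2
    constructor
    · rw [hFG z, norm_mul, mul_comm]
      exact mul_le_mul_of_nonneg_right h1.le (norm_nonneg _)
    · have h3 : F z - deriv F 0 * z = z * (dslope F 0 z - deriv F 0) := by
        rw [mul_sub, ← hFG z]
        ring
      rw [h3, norm_mul]
      calc ‖z‖ * ‖dslope F 0 z - deriv F 0‖ ≤ ‖z‖ * (max C 0 * ‖z‖) := by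
            refine mul_le_mul_of_nonneg_left (h2.trans ?_) (norm_nonneg _)
            exact mul_le_mul_of_nonneg_right (le_max_left _ _) (norm_nonneg _)
        _ = max C 0 * ‖z‖ ^ 2 := by ring

/-- the terms of the series -/
noncomputable def dd (F : ℂ → ℂ) (l : ℂ) (n : ℕ) (z : ℂ) : ℂ :=
  (F (F^[n] z) - l * F^[n] z) / l ^ (n + 1)

theorem sum_dd (F : ℂ → ℂ) {l : ℂ} (hl : l ≠ 0) (z : ℂ) (n : ℕ) :
    ∑ i ∈ Finset.range n, dd F l i z = F^[n] z / l ^ n - z := by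
  induction n with
  | zero => simp
  | succ n ih =>
    rw [Finset.sum_range_succ, ih, dd, Function.iterate_succ_apply']
    field_simp
    ring

theorem koe {F : ℂ → ℂ} {l : ℂ} {s r C : ℝ} (hs : 0 < s) (hr0 : 0 < r) (hr1 : r < 1)
    (hrl : r ^ 2 < ‖l‖) (hC : 0 ≤ C) (hl : l ≠ 0) (hF : DifferentiableOn ℂ F (ball 0 s))
    (h1 : ∀ z ∈ ball (0 : ℂ) s, ‖F z‖ ≤ r * ‖z‖)
    (h2 : ∀ z ∈ ball (0 : ℂ) s, ‖F z - l * z‖ ≤ C * ‖z‖ ^ 2) :
    ∃ (t : ℝ) (κ : ℂ → ℂ), 0 < t ∧ t ≤ s ∧ DifferentiableOn ℂ κ (ball 0 t) ∧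
      InjOn κ (ball 0 t) ∧ κ 0 = 0 ∧ (∀ z ∈ ball (0 : ℂ) t, ‖κ z‖ ≤ 2 * ‖z‖) ∧
      ∀ z ∈ ball (0 : ℂ) t, κ (F z) = l * κ z := by
  have hl0 : 0 < ‖l‖ := norm_pos_iff.2 hl
  have hmap : MapsTo F (ball 0 s) (ball 0 s) := by
    intro z hz
    have h3 := h1 z hz
    rw [mem_ball_zero_iff] at hz ⊢
    nlinarith [norm_nonneg z]
  have hit : ∀ n : ℕ, ∀ z ∈ ball (0 : ℂ) s, F^[n] z ∈ ball (0 : ℂ) s ∧
      ‖F^[n] z‖ ≤ r ^ n * ‖z‖ := by
    intro n z hz
    induction n with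
    | zero => exact ⟨hz, by simp⟩
    | succ n ih =>
      rw [Function.iterate_succ_apply']
      refine ⟨hmap ih.1, (h1 _ ih.1).trans ?_⟩
      calc r * ‖F^[n] z‖ ≤ r * (r ^ n * ‖z‖) := mul_le_mul_of_nonneg_left ih.2 hr0.le
        _ = r ^ (n + 1) * ‖z‖ := by ring
  have hdit : ∀ n : ℕ, DifferentiableOn ℂ (F^[n]) (ball 0 s) := by
    intro n
    induction n with
    | zero => exact differentiableOn_id
    | succ n ih =>
      have : F^[n + 1] = F ∘ F^[n] := Function.iterate_succ' F n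
      rw [this]
      exact hF.comp ih fun z hz => (hit n z hz).1
  obtain ⟨ρ, hρ⟩ : ∃ ρ : ℝ, ρ = r ^ 2 / ‖l‖ := ⟨_, rfl⟩
  have hρ0 : 0 ≤ ρ := by rw [hρ]; positivity
  have hρ1 : ρ < 1 := by rw [hρ, div_lt_one hl0]; exact hrl
  have hdd : ∀ (n : ℕ) (z : ℂ), z ∈ ball (0 : ℂ) s →
      ‖dd F l n z‖ ≤ C / ‖l‖ * ρ ^ n * ‖z‖ ^ 2 := by
    intro n z hz
    obtain ⟨h3, h4⟩ := hit n z hz
    rw [dd, norm_div, norm_pow, div_le_iff₀ (by positivity)]
    refine (h2 _ h3).trans ?_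
    have h5 : ‖F^[n] z‖ ^ 2 ≤ (r ^ n * ‖z‖) ^ 2 := pow_le_pow_left₀ (norm_nonneg _) h4 2
    calc C * ‖F^[n] z‖ ^ 2 ≤ C * (r ^ n * ‖z‖) ^ 2 := mul_le_mul_of_nonneg_left h5 hC
      _ = C / ‖l‖ * ρ ^ n * ‖z‖ ^ 2 * ‖l‖ ^ (n + 1) := by
        rw [hρ, div_pow]
        field_simp
        ring
  have hsum : Summable fun n : ℕ => C / ‖l‖ * ρ ^ n :=
    (summable_geometric_of_lt_one hρ0 hρ1).mul_left _
  obtain ⟨κ, hκ⟩ : ∃ κ : ℂ → ℂ, κ = fun z => z + ∑' n, dd F l n z := ⟨_, rfl⟩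
  have hdiff : DifferentiableOn ℂ κ (ball 0 s) := by
    rw [hκ]
    refine differentiableOn_id.add ?_
    refine Complex.differentiableOn_tsum_of_summable_norm (hsum.mul_right (s ^ 2)) (fun n => ?_)
      isOpen_ball (fun n z hz => ?_)
    · unfold dd
      refine DifferentiableOn.div_const ?_ _
      refine DifferentiableOn.sub (hF.comp (hdit n) fun z hz => (hit n z hz).1) ?_
      exact (hdit n).const_mul l
    · refine (hdd n z hz).trans ?_
      have h3 : ‖z‖ ^ 2 ≤ s ^ 2 :=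
        pow_le_pow_left₀ (norm_nonneg _) (mem_ball_zero_iff.1 hz).le 2
      exact mul_le_mul_of_nonneg_left h3 (by positivity)
  have hsumz : ∀ z ∈ ball (0 : ℂ) s, Summable fun n => dd F l n z := fun z hz =>
    Summable.of_norm_bounded (hsum.mul_right (‖z‖ ^ 2)) fun n => hdd n z hz
  have hlim : ∀ z ∈ ball (0 : ℂ) s, Tendsto (fun n => F^[n] z / l ^ n) atTop (𝓝 (κ z)) := by
    intro z hz
    have h3 := (hsumz z hz).hasSum.tendsto_sum_nat
    simp_rw [sum_dd F hl z] at h3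
    have h4 := h3.add_const z
    rw [hκ]
    simp only [sub_add_cancel] at h4
    rwa [add_comm] at h4
  have hbd : ∀ z ∈ ball (0 : ℂ) s, ‖κ z - z‖ ≤ (∑' n, C / ‖l‖ * ρ ^ n) * ‖z‖ ^ 2 := by
    intro z hz
    have h3 : κ z - z = ∑' n, dd F l n z := by rw [hκ]; ring
    rw [h3, ← tsum_mul_right]
    exact tsum_of_norm_bounded (hsum.mul_right (‖z‖ ^ 2)).hasSum fun n => hdd n z hz
  have h0s : (0 : ℂ) ∈ ball (0 : ℂ) s := mem_ball_self hs
  have hF0 : F 0 = 0 := by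
    have := h1 0 h0s
    rw [norm_zero, mul_zero] at this
    exact norm_le_zero_iff.1 this
  have hκ0 : κ 0 = 0 := by
    have := hbd 0 h0s
    rw [norm_zero, sub_zero] at this
    norm_num at this
    exact this
  -- the derivative
  have hder : HasDerivAt κ 1 0 := by
    have h3 : HasFDerivAt (fun z => κ z - z) (0 : ℂ →L[ℂ] ℂ) 0 := by
      refine Asymptotics.IsBigO.hasFDerivAt (n := 2) ?_ (by norm_num)
      refine Asymptotics.IsBigO.of_bound (∑' n, C / ‖l‖ * ρ ^ n) ?_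
      filter_upwards [ball_mem_nhds (0 : ℂ) hs] with z hz
      rw [sub_zero]
      simpa using hbd z hz
    have h4 : HasDerivAt (fun z => κ z - z) 0 0 := by
      have := h3.hasDerivAt
      simpa using this
    have h5 := h4.add (hasDerivAt_id (0 : ℂ))
    rw [zero_add] at h5
    refine h5.congr_of_eventuallyEq (Eventually.of_forall fun z => ?_)
    simp
  have hstr : HasStrictDerivAt κ 1 0 := by
    have h3 := (hdiff.analyticAt (ball_mem_nhds 0 hs)).hasStrictDerivAt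
    rwa [hder.deriv] at h3
  obtain ⟨u, hu, hua⟩ := hstr.hasStrictFDerivAt.approximates_deriv_on_nhds
    (c := 1 / 2) (Or.inr (by norm_num))
  have hua' : ∀ x ∈ u, ∀ y ∈ u, ‖κ x - κ y - (x - y)‖ ≤ 1 / 2 * ‖x - y‖ := by
    intro x hx y hy
    have h3 := hua x hx y hy
    simpa using h3
  obtain ⟨ε, hε, hεu⟩ := Metric.mem_nhds_iff.1 hu
  have hsub1 : ball (0 : ℂ) (min ε s) ⊆ u := (ball_subset_ball (min_le_left _ _)).trans hεu
  have hsub2 : ball (0 : ℂ) (min ε s) ⊆ ball 0 s := ball_subset_ball (min_le_right _ _)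
  refine ⟨min ε s, κ, lt_min hε hs, min_le_right _ _, hdiff.mono hsub2, ?_, hκ0, ?_, ?_⟩
  · intro x hx y hy hxy
    have h3 := hua' x (hsub1 hx) y (hsub1 hy)
    rw [hxy, sub_self, zero_sub, norm_neg] at h3
    have h4 : ‖x - y‖ = 0 := le_antisymm (by linarith [norm_nonneg (x - y)]) (norm_nonneg _)
    exact sub_eq_zero.1 (norm_eq_zero.1 h4)
  · intro z hz
    have h3 := hua' z (hsub1 hz) 0 (hεu (mem_ball_self hε))
    rw [hκ0, sub_zero, sub_zero] at h3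
    have h4 : ‖κ z‖ ≤ ‖κ z - z‖ + ‖z‖ := by
      have := norm_add_le (κ z - z) z
      simpa using this
    linarith [norm_nonneg z]
  · intro z hz
    have hz' := hsub2 hz
    have h3 := hlim (F z) (hmap hz')
    have h4 := ((hlim z hz').comp (tendsto_add_atTop_nat 1)).const_mul l
    refine tendsto_nhds_unique h3 (h4.congr fun n => ?_)
    simp only [Function.comp_apply]
    rw [Function.iterate_succ_apply]
    field_simp
    ring

end Koe_

theorem koenigs : S_koenigs := by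
  intro F R q hR _ hq1 hF hF0 hb hl
  obtain ⟨s, r, C, hs, hsR, hr0, hr1, hrl, hC, h⟩ := Koe_.exists_rad hR hq1 hF hF0 hb hl
  obtain ⟨t, κ, ht, hts, hk⟩ := Koe_.koe hs hr0 hr1 hrl hC hl (hF.mono (ball_subset_ball hsR))
    (fun z hz => (h z hz).1) (fun z hz => (h z hz).2)
  exact ⟨t, κ, ht, hts.trans hsR, hk⟩

end Pool.TH345.CC
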