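import Pool.Agent.TH345.CC.Stmts

/-! # Isometries of hyperbolic 3-space with given boundary maps -/

set_option autoImplicit false

open Filter Topology Set Metric

namespace Pool.TH345.CC

namespace H985

open Pool.Agent.TH289.C Pool.TH345.LC

/-- A linear map preserving the Lorentz form and the upper sheet gives an isometry. -/
theorem mkIso (f : (ℝ × E3) →ₗ[ℝ] (ℝ × E3)) (hq : ∀ v, qf (f v) = qf v)
    (hp : 0 < (f (1, 0)).1) :
    ∃ T : IsoGrp E3, ∀ v, (T : (ℝ × E3) ≃L[ℝ] (ℝ × E3)) v = f v := by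
  have hb : ∀ v w, bf (f v) (f w) = bf v w := by
    intro v w
    have h1 := qf_add (f v) (f w)
    have h2 := qf_add v w
    rw [← map_add, hq, hq, hq] at h1
    linarith
  have hinj : Function.Injective f := by
    rw [← LinearMap.ker_eq_bot, LinearMap.ker_eq_bot']
    intro v hv
    have h1 := hb v (v.1, -v.2)
    rw [hv] at h1
    have h2 : bf (0 : ℝ × E3) (f (v.1, -v.2)) = 0 := by simp [bf]
    rw [h2] at h1
    have h3 : bf v (v.1, -v.2) = v.1 ^ 2 + ‖v.2‖ ^ 2 := by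
      simp only [bf, inner_neg_right, real_inner_self_eq_norm_sq]
      ring
    rw [h3] at h1
    have h4 : v.1 ^ 2 = 0 := by nlinarith [sq_nonneg v.1, sq_nonneg ‖v.2‖]
    have h5 : ‖v.2‖ ^ 2 = 0 := by nlinarith [sq_nonneg v.1, sq_nonneg ‖v.2‖]
    exact Prod.ext (pow_eq_zero_iff (two_ne_zero)|>.1 h4)
      (norm_eq_zero.1 (pow_eq_zero_iff (two_ne_zero)|>.1 h5))
  let e : (ℝ × E3) ≃L[ℝ] (ℝ × E3) := (LinearEquiv.ofInjectiveEndo f hinj).toContinuousLinearEquiv
  have he : ∀ v, e v = f v := fun v => rfl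
  exact ⟨⟨e, fun v => by rw [he, hq], by rw [he]; exact hp⟩, he⟩

theorem nsq (x : E3) : ‖x‖ ^ 2 = x 0 ^ 2 + x 1 ^ 2 + x 2 ^ 2 := by
  rw [EuclideanSpace.norm_sq_eq, Fin.sum_univ_three]
  simp only [Real.norm_eq_abs, sq_abs]

/-- The linear map with the given components. -/
def lf (α β γ δ : (ℝ × E3) →ₗ[ℝ] ℝ) : (ℝ × E3) →ₗ[ℝ] (ℝ × E3) where
  toFun v := (α v, !₂[β v, γ v, δ v])
  map_add' v w := by
    apply Prod.ext
    · exact map_add α v w
    · ext i
      fin_cases i <;> simp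
  map_smul' c v := by
    apply Prod.ext
    · simp
    · ext i
      fin_cases i <;> simp

theorem lf_apply (α β γ δ : (ℝ × E3) →ₗ[ℝ] ℝ) (v : ℝ × E3) :
    lf α β γ δ v = (α v, !₂[β v, γ v, δ v]) := rfl

/-- A linear form. -/
def fo (p q r s : ℝ) : (ℝ × E3) →ₗ[ℝ] ℝ where
  toFun v := p * v.1 + q * v.2 0 + r * v.2 1 + s * v.2 2
  map_add' v w := by
    simp only [Prod.fst_add, Prod.snd_add, PiLp.add_apply]
    ring
  map_smul' c v := by
    simp only [Prod.smul_fst, Prod.smul_snd, PiLp.smul_apply, smul_eq_mul, RingHom.id_apply]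
    ring

theorem fo_apply (p q r s : ℝ) (v : ℝ × E3) :
    fo p q r s v = p * v.1 + q * v.2 0 + r * v.2 1 + s * v.2 2 := rfl

theorem ns (w : ℂ) : ‖w‖ ^ 2 = w.re ^ 2 + w.im ^ 2 := by
  rw [← Complex.normSq_eq_norm_sq, Complex.normSq_apply]; ring

theorem li_sg (w : ℂ) : li (sg w) = ((1 : ℝ), (!₂[2 * w.re / (w.re ^ 2 + w.im ^ 2 + 1),
    2 * w.im / (w.re ^ 2 + w.im ^ 2 + 1),
    (w.re ^ 2 + w.im ^ 2 - 1) / (w.re ^ 2 + w.im ^ 2 + 1)] : E3)) := by
  rw [← ns]; rfl

theorem li_np : li np = ((1 : ℝ), (!₂[0, 0, 1] : E3)) := rfl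

theorem affine_map (c d : ℂ) (hc : c ≠ 0) :
    ∃ T : IsoGrp E3, T • np = np ∧ ∀ w, T • sg w = sg (c * w + d) := by
  have hk : 0 < ‖c‖ := norm_pos_iff.2 hc
  set k : ℝ := ‖c‖ with hkdef
  have hk2 : k ^ 2 = c.re ^ 2 + c.im ^ 2 := ns c
  have hk0 : k ≠ 0 := hk.ne'
  -- `u = t - x2`, `v = t + x2`, `a = x0`, `b = x1`
  -- u' = u / k, a' = (c1 a - c2 b + d1 u) / k, b' = (c1 b + c2 a + d2 u) / k,
  -- v' = (k^2 v + 2 ((c1 a - c2 b) d1 + (c1 b + c2 a) d2) + (d1^2 + d2^2) u) / k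
  let D : ℝ := d.re ^ 2 + d.im ^ 2
  let P : ℝ := c.re * d.re + c.im * d.im
  let Q : ℝ := - c.im * d.re + c.re * d.im
  let f := lf (fo ((1 + k ^ 2 + D) / (2 * k)) (P / k) (Q / k) ((-1 + k ^ 2 - D) / (2 * k)))
    (fo (d.re / k) (c.re / k) (-c.im / k) (-d.re / k))
    (fo (d.im / k) (c.im / k) (c.re / k) (-d.im / k))
    (fo ((-1 + k ^ 2 + D) / (2 * k)) (P / k) (Q / k) ((1 + k ^ 2 - D) / (2 * k)))
  have hf : ∀ v, f v = (fo ((1 + k ^ 2 + D) / (2 * k)) (P / k) (Q / k)
      ((-1 + k ^ 2 - D) / (2 * k)) v,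
      !₂[fo (d.re / k) (c.re / k) (-c.im / k) (-d.re / k) v,
        fo (d.im / k) (c.im / k) (c.re / k) (-d.im / k) v,
        fo ((-1 + k ^ 2 + D) / (2 * k)) (P / k) (Q / k) ((1 + k ^ 2 - D) / (2 * k)) v]) :=
    fun v => rfl
  have hq : ∀ v, qf (f v) = qf v := by
    intro v
    rw [hf]
    unfold qf
    rw [nsq, nsq]
    simp only [fo_apply, D, P, Q]
    simp only [Matrix.cons_val_zero, Matrix.cons_val_one, Matrix.cons_val]
    field_simp
    rw [hk2]
    ring
  have hp : 0 < (f (1, 0)).1 := by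
    rw [hf]
    simp only [fo_apply, D]
    simp
    positivity
  obtain ⟨T, hT⟩ := mkIso f hq hp
  refine ⟨T, ?_, fun w => ?_⟩
  · refine smul_eq_of hk ?_
    rw [hT, li_np, hf]
    apply Prod.ext
    · simp only [fo_apply, D, P, Q]
      simp
      field_simp
      ring
    · ext i
      fin_cases i
      · simp [fo_apply]
        field_simp
        ring
      · simp [fo_apply]
        field_simp
        ring
      · simp [fo_apply]
        field_simp
        ring
  · have hN : 0 < w.re ^ 2 + w.im ^ 2 + 1 := by positivity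
    have hN' : 0 < (c * w + d).re ^ 2 + (c * w + d).im ^ 2 + 1 := by positivity
    refine smul_eq_of (c := ((c * w + d).re ^ 2 + (c * w + d).im ^ 2 + 1) /
      (k * (w.re ^ 2 + w.im ^ 2 + 1))) (by positivity) ?_
    rw [hT, li_sg, li_sg, hf]
    have hN0 := hN.ne'
    have hN1 := hN'.ne'
    apply Prod.ext
    · simp only [fo_apply, D, P, Q]
      simp
      field_simp
      rw [hk2]
      ring
    · ext i
      fin_cases i
      · simp [fo_apply]
        field_simp
        ring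
      · simp [fo_apply]
        field_simp
        ring
      · simp [fo_apply]
        field_simp
        rw [hk2]
        ring

theorem conj_map :
    ∃ T : IsoGrp E3, T • np = np ∧ ∀ w, T • sg w = sg ((starRingEnd ℂ) w) := by
  let f := lf (fo 1 0 0 0) (fo 0 1 0 0) (fo 0 0 (-1) 0) (fo 0 0 0 1)
  have hf : ∀ v, f v = (fo 1 0 0 0 v, !₂[fo 0 1 0 0 v, fo 0 0 (-1) 0 v, fo 0 0 0 1 v]) :=
    fun v => rfl
  have hq : ∀ v, qf (f v) = qf v := by
    intro v
    rw [hf]
    unfold qf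
    rw [nsq, nsq]
    simp only [fo_apply]
    simp
  have hp : 0 < (f (1, 0)).1 := by
    rw [hf]
    simp [fo_apply]
  obtain ⟨T, hT⟩ := mkIso f hq hp
  refine ⟨T, ?_, fun w => ?_⟩
  · refine smul_eq_of one_pos ?_
    rw [hT, li_np, hf, one_smul]
    apply Prod.ext
    · simp [fo_apply]
    · ext i
      fin_cases i <;> simp [fo_apply]
  · refine smul_eq_of one_pos ?_
    rw [hT, li_sg, li_sg, hf, one_smul]
    apply Prod.ext
    · simp [fo_apply]
    · ext i
      fin_cases i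
      · simp [fo_apply]
      · simp [fo_apply]
        ring
      · simp [fo_apply]

theorem inv_map :
    ∃ T : IsoGrp E3, T • np = sg 0 ∧ T • sg 0 = np ∧ ∀ w, w ≠ 0 → T • sg w = sg w⁻¹ := by
  let f := lf (fo 1 0 0 0) (fo 0 1 0 0) (fo 0 0 (-1) 0) (fo 0 0 0 (-1))
  have hf : ∀ v, f v = (fo 1 0 0 0 v, !₂[fo 0 1 0 0 v, fo 0 0 (-1) 0 v, fo 0 0 0 (-1) v]) :=
    fun v => rfl
  have hq : ∀ v, qf (f v) = qf v := by
    intro v
    rw [hf]
    unfold qf
    rw [nsq, nsq]
    simp only [fo_apply]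
    simp
  have hp : 0 < (f (1, 0)).1 := by
    rw [hf]
    simp [fo_apply]
  obtain ⟨T, hT⟩ := mkIso f hq hp
  refine ⟨T, ?_, ?_, fun w hw => ?_⟩
  · refine smul_eq_of one_pos ?_
    rw [hT, li_np, li_sg, hf, one_smul]
    apply Prod.ext
    · simp [fo_apply]
    · ext i
      fin_cases i <;> simp [fo_apply]
  · refine smul_eq_of one_pos ?_
    rw [hT, li_np, li_sg, hf, one_smul]
    apply Prod.ext
    · simp [fo_apply]
    · ext i
      fin_cases i <;> simp [fo_apply]
  · refine smul_eq_of one_pos ?_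
    rw [hT, li_sg, li_sg, hf, one_smul]
    have hN : w.re ^ 2 + w.im ^ 2 ≠ 0 := by
      rw [← ns]
      exact pow_ne_zero 2 (norm_ne_zero_iff.2 hw)
    have hre : (w⁻¹).re = w.re / (w.re ^ 2 + w.im ^ 2) := by
      rw [Complex.inv_re, Complex.normSq_apply]; ring
    have him : (w⁻¹).im = -w.im / (w.re ^ 2 + w.im ^ 2) := by
      rw [Complex.inv_im, Complex.normSq_apply]; ring
    have hs : (w⁻¹).re ^ 2 + (w⁻¹).im ^ 2 = 1 / (w.re ^ 2 + w.im ^ 2) := by
      rw [hre, him]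
      field_simp
    rw [hs, hre, him]
    have hN1 : w.re ^ 2 + w.im ^ 2 + 1 ≠ 0 := by positivity
    have hN2 : 1 + (w.re ^ 2 + w.im ^ 2) ≠ 0 := by positivity
    apply Prod.ext
    · simp [fo_apply]
    · ext i
      fin_cases i
      · simp only [fo_apply]
        simp
        field_simp
        ring
      · simp only [fo_apply]
        simp
        field_simp
        ring
      · simp only [fo_apply]
        simp
        field_simp
        ring

end H985

theorem lor : S_lor :=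
  ⟨H985.affine_map, H985.conj_map, H985.inv_map⟩

end Pool.TH345.CC

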