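import Pool.Agent.TH345.CC.Stmts

/-! # Existence of an attracting fixed point in the chart -/

set_option autoImplicit false

open Filter Topology Set Metric

namespace Pool.TH345.CC

namespace LOX

open Pool.Agent.TH631.RC (Action IsConvergence)

variable {G : Type} [Group G] {X : Type}

theorem map_inj [TopologicalSpace X] (α : Action G X) (g : G) : Function.Injective (α.map g) := by
  intro x y h
  have h1 := congrArg (α.map g⁻¹) h
  rwa [← α.map_mul, ← α.map_mul, inv_mul_cancel, α.map_one, α.map_one] at h1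

/-- the inverse of the chart -/
noncomputable def chi [Nonempty X] (U : Set X) (φ : X → ℂ) : ℂ → X := Function.invFunOn φ U

theorem chi_mem [Nonempty X] {U : Set X} {φ : X → ℂ} {z : ℂ} (hz : z ∈ φ '' U) :
    chi U φ z ∈ U := Function.invFunOn_mem hz

theorem phi_chi [Nonempty X] {U : Set X} {φ : X → ℂ} {z : ℂ} (hz : z ∈ φ '' U) :
    φ (chi U φ z) = z := Function.invFunOn_eq hz

theorem chi_phi [Nonempty X] {U : Set X} {φ : X → ℂ} (hinj : InjOn φ U) {x : X} (hx : x ∈ U) :
    chi U φ (φ x) = x :=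
  hinj (chi_mem ⟨x, hx, rfl⟩) hx (phi_chi ⟨x, hx, rfl⟩)

theorem confAt_congr {f F : ℂ → ℂ} {z : ℂ} (h : ConfAt F z) (he : f =ᶠ[𝓝 z] F) : ConfAt f z := by
  rcases h with h | h
  · exact Or.inl (h.congr he.symm)
  · refine Or.inr (h.congr ?_)
    filter_upwards [he] with w hw
    rw [hw]

/-- the end of the proof, for an element which is holomorphic -/
theorem fin [MetricSpace X] [Nonempty X] (α : Action G X) {U : Set X} {φ : X → ℂ}
    (hch : Chart U φ) (hf : S_fix) (g : G) (c : ℂ) (r : ℝ) (hr : 0 < r)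
    (hsub : ball c r ⊆ φ '' U)
    (hg : ∀ x ∈ U, φ x ∈ ball c r → α.map g x ∈ U ∧ φ (α.map g x) ∈ ball c (r / 4))
    (hd : DifferentiableOn ℂ (fun z => φ (α.map g (chi U φ z))) (ball c r)) :
    ∃ (t : ℂ) (g : G) (a : X) (R : ℝ) (F : ℂ → ℂ), Lox α U (fun x => φ x - t) g a R F := by
  have hmaps : MapsTo (fun z => φ (α.map g (chi U φ z))) (ball c r) (ball c (r / 4)) := by
    intro z hz
    have h1 := hsub hz
    exact (hg _ (chi_mem h1) (by rw [phi_chi h1]; exact hz)).2
  obtain ⟨a0, ha0, hfix, R, hR, hRsub, hcon⟩ := hf _ c r hr hd hmaps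
  have ha1 := hsub ha0
  have hgU : α.map g (chi U φ a0) ∈ U :=
    (hg _ (chi_mem ha1) (by rw [phi_chi ha1]; exact ha0)).1
  have hball : ∀ z : ℂ, z ∈ ball (0 : ℂ) R → z + a0 ∈ ball a0 R := by
    intro z hz
    rw [mem_ball_zero_iff] at hz
    rw [mem_ball_iff_norm, add_sub_cancel_right]
    exact hz
  refine ⟨a0, g, chi U φ a0, R, fun z => φ (α.map g (chi U φ (z + a0))) - a0, ?_⟩
  refine ⟨chi_mem ha1, ?_, ?_, hR, ?_, ?_, ?_, ?_⟩
  · apply hch.inj hgU (chi_mem ha1)
    rw [phi_chi ha1]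
    exact hfix
  · show φ (chi U φ a0) - a0 = 0
    rw [phi_chi ha1, sub_self]
  · intro z hz
    obtain ⟨x, hx, hxz⟩ := hsub (hRsub (hball z hz))
    refine ⟨x, hx, ?_⟩
    show φ x - a0 = z
    rw [hxz, add_sub_cancel_right]
  · intro x hx hxR
    have h1 : φ x ∈ ball c r := by
      apply hRsub
      have := hball _ hxR
      rwa [sub_add_cancel] at this
    refine ⟨(hg x hx h1).1, ?_⟩
    show φ (α.map g x) - a0 = φ (α.map g (chi U φ (φ x - a0 + a0))) - a0
    rw [sub_add_cancel, chi_phi hch.inj hx]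
  · have h2 : DifferentiableOn ℂ (fun z : ℂ => z + a0) (ball 0 R) := by fun_prop
    have h3 := (hd.mono hRsub).comp h2 (fun z hz => hball z hz)
    exact h3.sub_const a0
  · intro z hz
    have h4 := hcon _ (hball z hz)
    rw [add_sub_cancel_right] at h4
    exact h4

end LOX

open LOX in
theorem lox (ha : S_attr) (hf : S_fix) (hd : S_dich) (hc : S_comp) : S_lox := by
  intro G _ X _ _ α U φ hconv hmin hch hret
  obtain ⟨ξ, hξ⟩ := hch.nonempty
  have : Nonempty X := ⟨ξ⟩
  have hopen : IsOpen (φ '' U) := hch.image U Subset.rfl hch.isOpen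
  obtain ⟨r0, hr0, hr0U⟩ := Metric.isOpen_iff.1 hopen (φ ξ) ⟨ξ, hξ, rfl⟩
  have hinf : Infinite X := by
    have h1 : (φ '' U).Infinite := by
      intro hfin
      have h2 : (ball (φ ξ) r0).Finite := hfin.subset hr0U
      have h3 : (𝓝[≠] (φ ξ)).NeBot := inferInstance
      exact (infinite_of_mem_nhds (φ ξ) (ball_mem_nhds _ hr0)) h2
    have h4 : U.Infinite := fun h => h1 (h.image φ)
    exact infinite_univ_iff.1 (h4.mono (subset_univ U))
  obtain ⟨q, hq, hattr⟩ := ha G X α hinf hconv hmin ξ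
  obtain ⟨A, W, hA, hW, hξA, hqW, hdisj⟩ := t2_separation hq.symm
  have hAU : IsOpen (φ '' (A ∩ U)) := hch.image _ inter_subset_right (hA.inter hch.isOpen)
  obtain ⟨r1, hr1, hr1A⟩ := Metric.isOpen_iff.1 hAU (φ ξ) ⟨ξ, ⟨hξA, hξ⟩, rfl⟩
  set r : ℝ := min r0 r1 with hr
  have hrpos : 0 < r := lt_min hr0 hr1
  have hsub : ball (φ ξ) r ⊆ φ '' U := (ball_subset_ball (min_le_left _ _)).trans hr0U
  have hsubA : ∀ x ∈ U, φ x ∈ ball (φ ξ) r → x ∉ W := by
    intro x hx hxr hxW
    obtain ⟨y, ⟨hyA, hyU⟩, hyx⟩ := hr1A (ball_subset_ball (min_le_right _ _) hxr)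
    have : y = x := hch.inj hyU hx hyx
    rw [this] at hyA
    exact disjoint_left.1 hdisj hyA hxW
  have hV : {x | x ∈ U ∧ φ x ∈ ball (φ ξ) (r / 4)} ∈ 𝓝 ξ := by
    have h1 : φ ⁻¹' (ball (φ ξ) (r / 4)) ∈ 𝓝 ξ :=
      (hch.cont.continuousAt (hch.isOpen.mem_nhds hξ)).preimage_mem_nhds
        (ball_mem_nhds _ (by positivity))
    exact inter_mem (hch.isOpen.mem_nhds hξ) h1
  obtain ⟨g, hg⟩ := hattr _ hV W (hW.mem_nhds hqW)
  have hgD : ∀ x ∈ U, φ x ∈ ball (φ ξ) r → α.map g x ∈ U ∧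
      φ (α.map g x) ∈ ball (φ ξ) (r / 4) := fun x hx hxr => hg x (hsubA x hx hxr)
  have hconf : ∀ z ∈ ball (φ ξ) r, ConfAt (fun z => φ (α.map g (chi U φ z))) z := by
    intro z hz
    have h1 := hsub hz
    have h2 := chi_mem h1
    have h3 := phi_chi h1
    obtain ⟨F, hF, hev⟩ := hret g (mem_univ g) (chi U φ z) h2
      (hgD _ h2 (by rw [h3]; exact hz)).1
    rw [h3] at hF
    apply confAt_congr hF
    obtain ⟨O, hO, hOo, hzO⟩ := _root_.eventually_nhds_iff.1 hev
    have h4 : φ '' (O ∩ U) ∈ 𝓝 z := by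
      refine (hch.image _ inter_subset_right (hOo.inter hch.isOpen)).mem_nhds ?_
      exact ⟨chi U φ z, ⟨hzO, h2⟩, h3⟩
    filter_upwards [h4] with w hw
    obtain ⟨y, ⟨hyO, hyU⟩, rfl⟩ := hw
    show φ (α.map g (chi U φ (φ y))) = F (φ y)
    rw [chi_phi hch.inj hyU]
    exact hO y hyO
  have hinj : InjOn (fun z => φ (α.map g (chi U φ z))) (ball (φ ξ) r) := by
    intro z hz z' hz' h
    have h1 := hsub hz
    have h1' := hsub hz'
    have h2 := hch.inj (hgD _ (chi_mem h1) (by rw [phi_chi h1]; exact hz)).1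
      (hgD _ (chi_mem h1') (by rw [phi_chi h1']; exact hz')).1 h
    have h3 := map_inj α g h2
    rw [← phi_chi h1, ← phi_chi h1', h3]
  rcases hd _ _ isOpen_ball (convex_ball _ _).isPreconnected hinj hconf with h | h
  · exact fin α hch hf g (φ ξ) r hrpos hsub hgD h
  · have hle : ball (φ ξ) (r / 4) ⊆ ball (φ ξ) r := ball_subset_ball (by linarith)
    refine fin α hch hf (g * g) (φ ξ) r hrpos hsub ?_ ?_
    · intro x hx hxr
      rw [α.map_mul]
      have h1 := hgD x hx hxr
      exact hgD _ h1.1 (hle h1.2)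
    · intro z hz
      apply DifferentiableAt.differentiableWithinAt
      have h1 := hsub hz
      have h2 := hgD _ (chi_mem h1) (by rw [phi_chi h1]; exact hz)
      have h3 : DifferentiableAt ℂ (fun w => (starRingEnd ℂ) (φ (α.map g (chi U φ w)))) z :=
        h.differentiableAt (isOpen_ball.mem_nhds hz)
      have h4 : DifferentiableAt ℂ (fun w => (starRingEnd ℂ) (φ (α.map g (chi U φ w))))
          (φ (α.map g (chi U φ z))) :=
        h.differentiableAt (isOpen_ball.mem_nhds (hle h2.2))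
      have h5 := h4.star_star
      have h6 : DifferentiableAt ℂ ((star ∘ (fun w => (starRingEnd ℂ) (φ (α.map g (chi U φ w)))) ∘
          star) ∘ (fun w => (starRingEnd ℂ) (φ (α.map g (chi U φ w))))) z := by
        apply DifferentiableAt.comp
        · exact h5
        · exact h3
      refine h6.congr_of_eventuallyEq ?_
      filter_upwards [isOpen_ball.mem_nhds hz] with w hw
      have e1 := hsub hw
      have e2 := hgD _ (chi_mem e1) (by rw [phi_chi e1]; exact hw)
      simp only [Function.comp_apply, starRingEnd_apply, star_star]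
      rw [α.map_mul, chi_phi hch.inj e2.1]

end Pool.TH345.CC
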