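import Pool.Agent.TH345.CC.Stmts
set_option autoImplicit false
open Filter Topology Set Metric
namespace Pool.TH345.CC

namespace MoebAux889

lemma confAt_congr {f g : ℂ → ℂ} {z : ℂ} (hf : ConfAt f z) (h : f =ᶠ[𝓝 z] g) : ConfAt g z := by
  rcases hf with hf | hf
  · exact Or.inl (hf.congr h)
  · refine Or.inr (hf.congr ?_)
    filter_upwards [h] with w hw
    rw [hw]

lemma tendsto_e {e : ℂ → ℂ} (hee : ∀ z, e (e z) = z) (hec : Continuous e) :
    Tendsto e (cocompact ℂ) (cocompact ℂ) := by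
  let E : ℂ ≃ₜ ℂ := ⟨⟨e, e, hee, hee⟩, hec, hec⟩
  exact E.isClosedEmbedding.tendsto_cocompact

lemma case1 (ha : S_affine) {k e : ℂ → ℂ} (hee : ∀ z, e (e z) = z) (hec : Continuous e)
    (hk : Function.Injective k) (hinf : Tendsto k (cocompact ℂ) (cocompact ℂ))
    (hd : Differentiable ℂ (fun w => e (k w))) :
    ∃ c d : ℂ, c ≠ 0 ∧ ∀ w, k w = e (c * w + d) := by
  obtain ⟨c, d, hc, h⟩ := ha (fun w => e (k w)) hd (fun w w' hww => hk (by
    have := congrArg e hww
    simpa only [hee] using this)) ((tendsto_e hee hec).comp hinf)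
  refine ⟨c, d, hc, fun w => ?_⟩
  rw [← h w, hee]

lemma case2 (ha : S_affine) {k e : ℂ → ℂ} {p q0 : ℂ} (hee : ∀ z, e (e z) = z)
    (hec : Continuous e) (hk : InjOn k {p}ᶜ) (hq : ∀ w, w ≠ p → k w ≠ q0)
    (h1 : Tendsto k (𝓝[≠] p) (cocompact ℂ)) (h2 : Tendsto k (cocompact ℂ) (𝓝 q0))
    (hd : DifferentiableOn ℂ (fun w => e (k w)) {p}ᶜ) :
    ∃ c q : ℂ, c ≠ 0 ∧ q0 = e q ∧ ∀ w, w ≠ p → k w = e (q + (c * (w - p))⁻¹) := by
  classical
  obtain ⟨q, hqq⟩ : ∃ q, q = e q0 := ⟨_, rfl⟩
  have hne : ∀ w, w ≠ p → e (k w) - q ≠ 0 := by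
    intro w hw h0
    apply hq w hw
    have h3 : e (k w) = e q0 := by rw [← hqq]; exact sub_eq_zero.1 h0
    have := congrArg e h3
    rwa [hee, hee] at this
  obtain ⟨K, hK⟩ : ∃ K : ℂ → ℂ, K = fun w => if w = p then 0 else (e (k w) - q)⁻¹ := ⟨_, rfl⟩
  have hKp : K p = 0 := by rw [hK]; simp
  have hKw : ∀ w, w ≠ p → K w = (e (k w) - q)⁻¹ := by
    intro w hw
    rw [hK]
    simp [hw]
  have hKd : DifferentiableOn ℂ K {p}ᶜ := by
    have h3 : DifferentiableOn ℂ (fun w => (e (k w) - q)⁻¹) {p}ᶜ :=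
      (hd.sub (differentiableOn_const q)).inv fun w hw => hne w hw
    exact h3.congr fun w hw => hKw w hw
  have hKc : ContinuousAt K p := by
    rw [continuousAt_iff_punctured_nhds, hKp]
    have h3 : Tendsto (fun w => e (k w) - q) (𝓝[≠] p) (cocompact ℂ) := by
      have h4 : Tendsto (fun z : ℂ => z - q) (cocompact ℂ) (cocompact ℂ) :=
        (Homeomorph.subRight q).isClosedEmbedding.tendsto_cocompact
      exact h4.comp ((tendsto_e hee hec).comp h1)
    rw [← Metric.cobounded_eq_cocompact] at h3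
    have h5 := (tendsto_inv₀_cobounded (α := ℂ)).comp h3
    refine h5.congr' ?_
    filter_upwards [self_mem_nhdsWithin] with w hw
    exact (hKw w hw).symm
  have hKD : Differentiable ℂ K := by
    have h3 : DifferentiableOn ℂ K univ := by
      rw [← Complex.differentiableOn_compl_singleton_and_continuousAt_iff (c := p) univ_mem]
      refine ⟨?_, hKc⟩
      rwa [← compl_eq_univ_sdiff]
    exact differentiableOn_univ.1 h3
  have hKi : Function.Injective K := by
    intro w w' h
    by_cases hw : w = p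
    · by_cases hw' : w' = p
      · rw [hw, hw']
      · exfalso
        rw [hw, hKp, hKw w' hw'] at h
        exact inv_ne_zero (hne w' hw') h.symm
    · by_cases hw' : w' = p
      · exfalso
        rw [hw', hKp, hKw w hw] at h
        exact inv_ne_zero (hne w hw) h
      · rw [hKw w hw, hKw w' hw'] at h
        apply hk hw hw'
        have h3 : e (k w) = e (k w') := by
          have := inv_injective h
          exact sub_left_injective this
        have := congrArg e h3
        rwa [hee, hee] at this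
  have hKt : Tendsto K (cocompact ℂ) (cocompact ℂ) := by
    have hev : ∀ᶠ w in cocompact ℂ, w ≠ p := by
      have := (isCompact_singleton (x := p)).compl_mem_cocompact
      filter_upwards [this] with w hw
      exact hw
    have h3 : Tendsto (fun w => e (k w) - q) (cocompact ℂ) (𝓝[≠] 0) := by
      rw [tendsto_nhdsWithin_iff]
      constructor
      · have h4 : Tendsto (fun w => e (k w) - q) (cocompact ℂ) (𝓝 (e q0 - q)) :=
          ((hec.tendsto q0).comp h2).sub_const q
        rwa [← hqq, sub_self] at h4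
      · filter_upwards [hev] with w hw
        exact hne w hw
    have h5 := (tendsto_inv₀_nhdsNE_zero (α := ℂ)).comp h3
    rw [Metric.cobounded_eq_cocompact] at h5
    refine h5.congr' ?_
    filter_upwards [hev] with w hw
    exact (hKw w hw).symm
  obtain ⟨c, d, hc, h⟩ := ha K hKD hKi hKt
  have hd0 : d = -(c * p) := by
    have := h p
    rw [hKp] at this
    linear_combination -this
  refine ⟨c, q, hc, by rw [hqq, hee], fun w hw => ?_⟩
  have h3 : (e (k w) - q)⁻¹ = c * (w - p) := by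
    rw [← hKw w hw, h w, hd0]
    ring
  have h4 : e (k w) = q + (c * (w - p))⁻¹ := by
    rw [← h3, inv_inv]
    ring
  rw [← h4, hee]

end MoebAux889

open MoebAux889

theorem moeb (ha : S_affine) (hd : S_dich) (hc : S_comp) : S_moeb := by
  intro G _ X _ _ α b Θ hΘ h
  classical
  obtain ⟨H, hH⟩ : ∃ H : X → X, H = α.map h := ⟨_, rfl⟩
  obtain ⟨H', hH'⟩ : ∃ H' : X → X, H' = α.map h⁻¹ := ⟨_, rfl⟩
  have hHc : Continuous H := hH ▸ α.cont h
  have hHH : ∀ x, H' (H x) = x := by
    intro x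
    rw [hH, hH', ← α.map_mul, inv_mul_cancel, α.map_one]
  have hHH' : ∀ x, H (H' x) = x := by
    intro x
    rw [hH, hH', ← α.map_mul, mul_inv_cancel, α.map_one]
  have hHi : Function.Injective H := Function.LeftInverse.injective hHH
  rw [← hH]
  -- the inverse of the coordinate
  obtain ⟨P, hP⟩ : ∃ P : X → ℂ, P = Function.invFun Θ := ⟨_, rfl⟩
  have hPT : ∀ w, P (Θ w) = w := by
    intro w
    rw [hP]
    exact Function.leftInverse_invFun hΘ.inj w
  have hTb : ∀ w, Θ w ≠ b := by
    intro w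
    have : Θ w ∈ range Θ := ⟨w, rfl⟩
    rw [hΘ.range] at this
    exact this
  have hTP : ∀ x, x ≠ b → Θ (P x) = x := by
    intro x hx
    have : x ∈ range Θ := by rw [hΘ.range]; exact hx
    obtain ⟨w, rfl⟩ := this
    rw [hPT]
  have hPinf : Tendsto P (𝓝[≠] b) (cocompact ℂ) := by
    rw [(hasBasis_cocompact (X := ℂ)).tendsto_right_iff]
    intro K hK
    have h1 : IsCompact (Θ '' K) := hK.image hΘ.cont
    have h2 : (Θ '' K)ᶜ ∈ 𝓝 b := h1.isClosed.isOpen_compl.mem_nhds (by
      rintro ⟨w, -, hw⟩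
      exact hTb w hw)
    filter_upwards [mem_nhdsWithin_of_mem_nhds h2, self_mem_nhdsWithin] with x hx hxb hxK
    exact hx ⟨P x, hxK, hTP x hxb⟩
  have hPc : ∀ x, x ≠ b → ContinuousAt P x := by
    intro x hx
    obtain ⟨w, rfl⟩ : x ∈ range Θ := by rw [hΘ.range]; exact hx
    rw [ContinuousAt, hPT, (nhds_basis_ball (x := w)).tendsto_right_iff]
    intro ε hε
    obtain ⟨A, B, hA, hB, hxA, hbB, hAB⟩ := t2_separation hx
    have h1 : Θ ⁻¹' B ∈ cocompact ℂ := hΘ.inf (hB.mem_nhds hbB)
    rw [mem_cocompact] at h1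
    obtain ⟨K, hK, hKB⟩ := h1
    have h2 : IsCompact (Θ '' (K \ ball w ε)) := (hK.diff isOpen_ball).image hΘ.cont
    have h3 : (Θ '' (K \ ball w ε))ᶜ ∈ 𝓝 (Θ w) := h2.isClosed.isOpen_compl.mem_nhds (by
      rintro ⟨v, hv, hvw⟩
      rw [hΘ.inj hvw] at hv
      exact hv.2 (mem_ball_self hε))
    filter_upwards [h3, hA.mem_nhds hxA, isOpen_compl_singleton.mem_nhds hx] with y hy hyA hyb
    by_contra hcon
    have hyT : Θ (P y) = y := hTP y hyb
    by_cases hPK : P y ∈ K
    · exact hy ⟨P y, ⟨hPK, hcon⟩, hyT⟩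
    · have h4 : Θ (P y) ∈ B := hKB hPK
      rw [hyT] at h4
      exact disjoint_left.1 hAB hyA h4
  -- the map in the coordinate
  obtain ⟨k, hk⟩ : ∃ k : ℂ → ℂ, k = fun w => P (H (Θ w)) := ⟨_, rfl⟩
  have hkT : ∀ w, H (Θ w) ≠ b → Θ (k w) = H (Θ w) := by
    intro w hw
    rw [hk]
    exact hTP _ hw
  have hkconf : ∀ w, H (Θ w) ≠ b → ConfAt k w := by
    intro w hw
    obtain ⟨K, hK1, hK2⟩ := hΘ.conf h w (k w) (by rw [← hH]; exact (hkT w hw).symm)
    refine confAt_congr hK1 ?_
    filter_upwards [hK2] with v hv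
    rw [← hH] at hv
    rw [hk]
    show K v = P (H (Θ v))
    rw [hv, hPT]
  have hΘne : Tendsto Θ (cocompact ℂ) (𝓝[≠] b) := by
    rw [tendsto_nhdsWithin_iff]
    exact ⟨hΘ.inf, Eventually.of_forall fun w => hTb w⟩
  have hid : ∀ z : ℂ, (fun z : ℂ => z) ((fun z : ℂ => z) z) = z := fun z => rfl
  have hcj : ∀ z : ℂ, (fun z : ℂ => (starRingEnd ℂ) z) ((fun z : ℂ => (starRingEnd ℂ) z) z) = z :=
    fun z => Complex.conj_conj z
  have hcc : Continuous (fun z : ℂ => (starRingEnd ℂ) z) := Complex.continuous_conj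
  by_cases hb : H b = b
  · have hnb : ∀ w, H (Θ w) ≠ b := by
      intro w hw
      rw [← hb] at hw
      exact hTb w (hHi hw)
    have hki : Function.Injective k := by
      intro w w' hww
      apply hΘ.inj
      apply hHi
      rw [← hkT w (hnb w), ← hkT w' (hnb w'), hww]
    have hkinf : Tendsto k (cocompact ℂ) (cocompact ℂ) := by
      have h1 : Tendsto H (𝓝[≠] b) (𝓝[≠] b) := by
        rw [tendsto_nhdsWithin_iff]
        constructor
        · have := hHc.tendsto b
          rw [hb] at this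
          exact this.mono_left nhdsWithin_le_nhds
        · filter_upwards [self_mem_nhdsWithin] with x hx hxb
          apply hx
          apply hHi
          rw [hb]
          exact hxb
      rw [hk]
      exact hPinf.comp (h1.comp hΘne)
    rcases hd k univ isOpen_univ isPreconnected_univ hki.injOn fun z _ => hkconf z (hnb z) with
      h1 | h1
    · left
      obtain ⟨c, d, hc0, hcd⟩ := case1 ha hid continuous_id' hki hkinf (differentiableOn_univ.1 h1)
      exact Or.inl ⟨c, d, hc0, hb, fun w => by rw [← hkT w (hnb w), hcd w]⟩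
    · right
      obtain ⟨c, d, hc0, hcd⟩ := case1 ha hcj hcc hki hkinf (differentiableOn_univ.1 h1)
      exact Or.inl ⟨c, d, hc0, hb, fun w => by rw [← hkT w (hnb w), hcd w]⟩
  · have hb' : H' b ≠ b := by
      intro h1
      apply hb
      conv_lhs => rw [← h1]
      exact hHH' b
    obtain ⟨p, hp⟩ : ∃ p, p = P (H' b) := ⟨_, rfl⟩
    obtain ⟨q0, hq0⟩ : ∃ q0, q0 = P (H b) := ⟨_, rfl⟩
    have hTp : Θ p = H' b := by rw [hp]; exact hTP _ hb'
    have hTq : Θ q0 = H b := by rw [hq0]; exact hTP _ hb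
    have hHp : H (Θ p) = b := by rw [hTp, hHH']
    have hnb : ∀ w, w ≠ p → H (Θ w) ≠ b := by
      intro w hw h1
      apply hw
      apply hΘ.inj
      apply hHi
      rw [h1, hHp]
    have hki : InjOn k {p}ᶜ := by
      intro w hw w' hw' hww
      apply hΘ.inj
      apply hHi
      rw [← hkT w (hnb w hw), ← hkT w' (hnb w' hw'), hww]
    have hkq : ∀ w, w ≠ p → k w ≠ q0 := by
      intro w hw h1
      apply hTb w
      apply hHi
      rw [← hkT w (hnb w hw), h1, hTq]
    have h1 : Tendsto k (𝓝[≠] p) (cocompact ℂ) := by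
      have h2 : Tendsto (fun w => H (Θ w)) (𝓝[≠] p) (𝓝[≠] b) := by
        rw [tendsto_nhdsWithin_iff]
        constructor
        · have h3 := (hHc.comp hΘ.cont).tendsto p
          have h4 : (H ∘ Θ) p = b := hHp
          rw [h4] at h3
          exact h3.mono_left nhdsWithin_le_nhds
        · filter_upwards [self_mem_nhdsWithin] with w hw
          exact hnb w hw
      rw [hk]
      exact hPinf.comp h2
    have h2 : Tendsto k (cocompact ℂ) (𝓝 q0) := by
      have h3 : Tendsto (fun w => H (Θ w)) (cocompact ℂ) (𝓝 (H b)) :=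
        (hHc.tendsto b).comp hΘ.inf
      have h4 : Tendsto P (𝓝 (H b)) (𝓝 q0) := by
        rw [hq0]
        exact hPc (H b) hb
      rw [hk]
      exact h4.comp h3
    have hpre : IsPreconnected ({p}ᶜ : Set ℂ) :=
      (isConnected_compl_singleton_of_one_lt_rank (by
        rw [Complex.rank_real_complex]
        exact Nat.one_lt_ofNat) p).isPreconnected
    rcases hd k {p}ᶜ isOpen_compl_singleton hpre hki fun z hz => hkconf z (hnb z hz) with h3 | h3
    · left
      obtain ⟨c, q, hc0, hqq, hcd⟩ := case2 ha hid continuous_id' hki hkq h1 h2 h3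
      exact Or.inr ⟨c, p, q, hc0, by rw [← hTq, hqq], hHp, fun w hw => by
        rw [← hkT w (hnb w hw), hcd w hw]⟩
    · right
      obtain ⟨c, q, hc0, hqq, hcd⟩ := case2 ha hcj hcc hki hkq h1 h2 h3
      exact Or.inr ⟨c, p, q, hc0, by rw [← hTq, hqq], hHp, fun w hw => by
        rw [← hkT w (hnb w hw), hcd w hw]⟩

end Pool.TH345.CC
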