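import Pool.Agent.TH345.CC.Stmts

/-! # Stereographic projection -/

set_option autoImplicit false

open Filter Topology Set Metric

namespace Pool.TH345.CC

namespace Ster

/-- stereographic projection -/
noncomputable def pr (x : Pool.Agent.TH289.C.Sph E3) : ℂ :=
  ⟨(x : E3) 0 / (1 - (x : E3) 2), (x : E3) 1 / (1 - (x : E3) 2)⟩

theorem sq_sum (x : Pool.Agent.TH289.C.Sph E3) :
    (x : E3) 0 ^ 2 + (x : E3) 1 ^ 2 + (x : E3) 2 ^ 2 = 1 := by
  have h : ‖(x : E3)‖ = 1 := mem_sphere_zero_iff_norm.1 x.2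
  rw [EuclideanSpace.norm_eq, Real.sqrt_eq_one, Fin.sum_univ_three] at h
  simpa only [Real.norm_eq_abs, sq_abs] using h

theorem ext3 {x y : Pool.Agent.TH289.C.Sph E3} (h0 : (x : E3) 0 = (y : E3) 0)
    (h1 : (x : E3) 1 = (y : E3) 1) (h2 : (x : E3) 2 = (y : E3) 2) : x = y := by
  apply Subtype.ext
  ext i
  fin_cases i
  · exact h0
  · exact h1
  · exact h2

theorem np0 : (np : E3) 0 = 0 := rfl
theorem np1 : (np : E3) 1 = 0 := rfl
theorem np2 : (np : E3) 2 = 1 := rfl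

theorem sg0 (w : ℂ) : (sg w : E3) 0 = 2 * w.re / (‖w‖ ^ 2 + 1) := rfl
theorem sg1 (w : ℂ) : (sg w : E3) 1 = 2 * w.im / (‖w‖ ^ 2 + 1) := rfl
theorem sg2 (w : ℂ) : (sg w : E3) 2 = (‖w‖ ^ 2 - 1) / (‖w‖ ^ 2 + 1) := rfl

theorem lt_one {x : Pool.Agent.TH289.C.Sph E3} (hx : x ≠ np) : (x : E3) 2 < 1 := by
  have h := sq_sum x
  have h1 : (x : E3) 2 ≤ 1 := by nlinarith [sq_nonneg ((x : E3) 0), sq_nonneg ((x : E3) 1)]
  rcases h1.lt_or_eq with h2 | h2
  · exact h2
  · exfalso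
    apply hx
    rw [h2] at h
    have h3 : (x : E3) 0 ^ 2 = 0 := by nlinarith [sq_nonneg ((x : E3) 0), sq_nonneg ((x : E3) 1)]
    have h4 : (x : E3) 1 ^ 2 = 0 := by nlinarith [sq_nonneg ((x : E3) 0), sq_nonneg ((x : E3) 1)]
    refine ext3 ?_ ?_ ?_
    · rw [np0]; exact pow_eq_zero_iff (two_ne_zero) |>.1 h3
    · rw [np1]; exact pow_eq_zero_iff (two_ne_zero) |>.1 h4
    · rw [np2]; exact h2

theorem pr_norm {x : Pool.Agent.TH289.C.Sph E3} (hx : x ≠ np) :
    ‖pr x‖ ^ 2 = 2 * (1 - (x : E3) 2)⁻¹ + -1 := by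
  have h := sq_sum x
  have h1 : 1 - (x : E3) 2 ≠ 0 := by linarith [lt_one hx]
  rw [← Complex.normSq_eq_norm_sq, Complex.normSq_apply]
  unfold pr
  simp only
  have h0 : (x : E3) 0 ^ 2 + (x : E3) 1 ^ 2 = 1 - (x : E3) 2 ^ 2 := by linarith
  field_simp
  nlinarith [h0]

end Ster

open Ster

theorem ster : S_ster := by
  refine ⟨pr, fun w => ?_, fun x hx => ?_, fun w hw => ?_, ?_, ?_⟩
  · have h1 : ‖w‖ ^ 2 + 1 ≠ 0 := by positivity
    apply Complex.ext
    · show (sg w : E3) 0 / (1 - (sg w : E3) 2) = w.re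
      rw [sg0, sg2]
      field_simp
      ring
    · show (sg w : E3) 1 / (1 - (sg w : E3) 2) = w.im
      rw [sg1, sg2]
      field_simp
      ring
  · have h1 : 1 - (x : E3) 2 ≠ 0 := by linarith [lt_one hx]
    have h2 := pr_norm hx
    have h3 : ‖pr x‖ ^ 2 + 1 = 2 * (1 - (x : E3) 2)⁻¹ := by linarith
    have h4 : ‖pr x‖ ^ 2 - 1 = 2 * (1 - (x : E3) 2)⁻¹ - 2 := by linarith
    refine ext3 ?_ ?_ ?_
    · rw [sg0, h3]
      show 2 * ((x : E3) 0 / (1 - (x : E3) 2)) / _ = _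
      field_simp
    · rw [sg1, h3]
      show 2 * ((x : E3) 1 / (1 - (x : E3) 2)) / _ = _
      field_simp
    · rw [sg2, h3, h4]
      field_simp
      ring
  · have h1 : ‖w‖ ^ 2 + 1 ≠ 0 := by positivity
    have h2 : (sg w : E3) 2 = (np : E3) 2 := by rw [hw]
    rw [sg2, np2, div_eq_one_iff_eq h1] at h2
    linarith
  · have hc : ∀ i : Fin 3, Continuous fun x : Pool.Agent.TH289.C.Sph E3 => (x : E3) i := by
      intro i
      exact (EuclideanSpace.proj i : E3 →L[ℝ] ℝ).continuous.comp continuous_subtype_val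
    have h0 : ∀ x ∈ ({np}ᶜ : Set (Pool.Agent.TH289.C.Sph E3)), 1 - (x : E3) 2 ≠ 0 := by
      intro x hx
      have := lt_one (x := x) hx
      linarith
    have h1 : ContinuousOn (fun x : Pool.Agent.TH289.C.Sph E3 => (x : E3) 0 / (1 - (x : E3) 2))
        {np}ᶜ :=
      ContinuousOn.div (hc 0).continuousOn (continuous_const.sub (hc 2)).continuousOn h0
    have h2 : ContinuousOn (fun x : Pool.Agent.TH289.C.Sph E3 => (x : E3) 1 / (1 - (x : E3) 2))
        {np}ᶜ :=
      ContinuousOn.div (hc 1).continuousOn (continuous_const.sub (hc 2)).continuousOn h0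
    have h3 : pr = fun x : Pool.Agent.TH289.C.Sph E3 =>
        (((x : E3) 0 / (1 - (x : E3) 2) : ℝ) : ℂ) +
          (((x : E3) 1 / (1 - (x : E3) 2) : ℝ) : ℂ) * Complex.I := by
      funext x
      exact (Complex.re_add_im (pr x)).symm
    rw [h3]
    exact (Complex.continuous_ofReal.comp_continuousOn h1).add
      ((Complex.continuous_ofReal.comp_continuousOn h2).mul continuousOn_const)
  · rw [← Metric.cobounded_eq_cocompact, ← tendsto_norm_atTop_iff_cobounded]
    have hc : Continuous fun x : Pool.Agent.TH289.C.Sph E3 => (x : E3) 2 :=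
      (EuclideanSpace.proj 2 : E3 →L[ℝ] ℝ).continuous.comp continuous_subtype_val
    have h1 : Tendsto (fun x : Pool.Agent.TH289.C.Sph E3 => 1 - (x : E3) 2) (𝓝[≠] np)
        (𝓝[>] 0) := by
      rw [tendsto_nhdsWithin_iff]
      constructor
      · have h2 : Tendsto (fun x : Pool.Agent.TH289.C.Sph E3 => 1 - (x : E3) 2) (𝓝 np)
            (𝓝 (1 - (np : E3) 2)) := (continuous_const.sub hc).tendsto np
        rw [np2, sub_self] at h2
        exact h2.mono_left nhdsWithin_le_nhds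
      · filter_upwards [self_mem_nhdsWithin] with x hx
        have := lt_one (x := x) hx
        show (0 : ℝ) < 1 - (x : E3) 2
        linarith
    have h2 : Tendsto (fun x : Pool.Agent.TH289.C.Sph E3 => (1 - (x : E3) 2)⁻¹) (𝓝[≠] np)
        atTop := tendsto_inv_nhdsGT_zero.comp h1
    have h3 : Tendsto (fun x : Pool.Agent.TH289.C.Sph E3 => 2 * (1 - (x : E3) 2)⁻¹ + -1)
        (𝓝[≠] np) atTop :=
      tendsto_atTop_add_const_right _ _ (h2.const_mul_atTop (by norm_num))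
    have h4 := Real.tendsto_sqrt_atTop.comp h3
    refine h4.congr' ?_
    filter_upwards [self_mem_nhdsWithin] with x hx
    show Real.sqrt (2 * (1 - (x : E3) 2)⁻¹ + -1) = ‖pr x‖
    rw [← pr_norm (x := x) hx, Real.sqrt_sq (norm_nonneg _)]

end Pool.TH345.CC
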