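import Pool.Agent.TH345.CC.Stmts
import Pool.Agent.Helper859.SP.T15

/-! Job CC-AFF (written by helper637): injective entire functions with a pole at infinity are
affine. -/

set_option autoImplicit false
open Filter Topology Set Metric
namespace Pool.TH345.CC

theorem affine : S_affine := by
  intro k hk hinj htend
  set k1 : ℂ → ℂ := fun z => k z - k 0 with hk1
  have h10 : k1 0 = 0 := by simp [hk1]
  have hk1d : Differentiable ℂ k1 := hk.sub_const _
  have hk1i : Function.Injective k1 := fun a b hab => hinj (by simpa [hk1] using hab)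
  have hk1ne : ∀ z, z ≠ 0 → k1 z ≠ 0 := fun z hz h => hz (hk1i (by rw [h, h10]))
  have hk1t : Tendsto k1 (cocompact ℂ) (cocompact ℂ) := by
    have h1 := ((Homeomorph.addRight (-(k 0))).isClosedEmbedding.tendsto_cocompact).comp htend
    refine h1.congr fun z => ?_
    simp [hk1, sub_eq_add_neg]
  rw [← Metric.cobounded_eq_cocompact] at hk1t
  set j : ℂ → ℂ := fun w => (k1 w⁻¹)⁻¹ with hj
  have hj0 : j 0 = 0 := by simp [hj, h10]
  have hjd : ∀ w, w ≠ 0 → DifferentiableAt ℂ j w := fun w hw =>
    (hk1d.differentiableAt.comp w (differentiableAt_inv hw)).inv (hk1ne _ (inv_ne_zero hw))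
  have hjc : ContinuousAt j 0 := by
    rw [continuousAt_iff_punctured_nhds, hj0]
    exact tendsto_inv₀_cobounded.comp (hk1t.comp tendsto_inv₀_nhdsNE_zero)
  have hjD : DifferentiableOn ℂ j univ := by
    rw [← Complex.differentiableOn_compl_singleton_and_continuousAt_iff (c := 0) univ_mem]
    refine ⟨fun w hw => (hjd w ?_).differentiableWithinAt, hjc⟩
    simpa using hw
  have hji : InjOn j univ := by
    intro a _ b _ hab
    exact inv_injective (hk1i (inv_injective hab))
  have hc0 : deriv j 0 ≠ 0 :=
    Pool.Agent.Helper859.SP.T15.deriv_ne_zero_of_injOn isOpen_univ hjD hji (mem_univ _)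
  have hjd0 : HasDerivAt j (deriv j 0) 0 :=
    (hjD.differentiableAt univ_mem).hasDerivAt
  set c : ℂ := (deriv j 0)⁻¹ with hc
  have hlim : Tendsto (fun z => k1 z / z) (cocompact ℂ) (𝓝 c) := by
    rw [← Metric.cobounded_eq_cocompact]
    have h1 := (hasDerivAt_iff_tendsto_slope_zero.1 hjd0).inv₀ hc0
    have h2 := h1.comp tendsto_inv₀_cobounded'
    refine h2.congr fun z => ?_
    simp [hj, h10, div_eq_mul_inv]
    try ring
  have hds : Differentiable ℂ (dslope k1 0) := by
    rw [← differentiableOn_univ]
    exact (Complex.differentiableOn_dslope univ_mem).2 hk1d.differentiableOn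
  have hlim2 : Tendsto (dslope k1 0) (cocompact ℂ) (𝓝 c) := by
    refine hlim.congr' ?_
    have : ∀ᶠ z : ℂ in cocompact ℂ, z ≠ 0 := by
      have := (isCompact_singleton (x := (0 : ℂ))).compl_mem_cocompact
      filter_upwards [this] with z hz
      simpa using hz
    filter_upwards [this] with z hz
    rw [dslope_of_ne _ hz, slope_def_field, h10, sub_zero, sub_zero]
  refine ⟨c, k 0, inv_ne_zero hc0, fun z => ?_⟩
  have h3 := hds.apply_eq_of_tendsto_cocompact z hlim2
  by_cases hz : z = 0
  · simp [hz]
  · rw [dslope_of_ne _ hz, slope_def_field, h10, sub_zero, sub_zero, div_eq_iff hz] at h3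
    have : k z - k 0 = c * z := h3
    linear_combination this

end Pool.TH345.CC
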