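import Pool.Agent.TH345.CC.Stmts

/-! # Conformal charts: from the global coordinate to a lattice -/

set_option autoImplicit false

open Filter Topology Set Metric

namespace Pool.TH345.CC

open Pool.Agent.TH631.RC (Action IsConvergence GeomFinite HypAct IsLatticeAct IsEquivariant IsProper)
open Pool.TH345.LC (IsoGrp)

abbrev S2 : Type := Pool.Agent.TH289.C.Sph E3

set_option linter.unusedSectionVars false

section

variable {X : Type} [MetricSpace X]

open Classical in
/-- The map from the sphere to `X` given by the coordinate `Θ`. -/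
noncomputable def hS (π : S2 → ℂ) (b : X) (Θ : ℂ → X) : S2 → X :=
  fun x => if x = np then b else Θ (π x)

theorem hS_np (π : S2 → ℂ) (b : X) (Θ : ℂ → X) : hS π b Θ np = b := by
  simp [hS]

theorem hS_sg {π : S2 → ℂ} (h1 : ∀ w, π (sg w) = w) (h3 : ∀ w, sg w ≠ np) (b : X) (Θ : ℂ → X)
    (w : ℂ) : hS π b Θ (sg w) = Θ w := by
  simp [hS, h3, h1]

theorem cont_hS {π : S2 → ℂ} (hc : ContinuousOn π {np}ᶜ) (ht : Tendsto π (𝓝[≠] np) (cocompact ℂ))
    {b : X} {Θ : ℂ → X} (hΘ : Continuous Θ) (hinf : Tendsto Θ (cocompact ℂ) (𝓝 b)) :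
    Continuous (hS π b Θ) := by
  rw [continuous_iff_continuousAt]
  intro x
  by_cases hx : x = np
  · subst hx
    rw [continuousAt_iff_punctured_nhds, hS_np]
    refine (hinf.comp ht).congr' ?_
    filter_upwards [self_mem_nhdsWithin] with y hy
    have hy' : y ≠ np := hy
    simp [hS, hy']
  · have h1 : {np}ᶜ ∈ 𝓝 x := isOpen_compl_singleton.mem_nhds hx
    have h2 : ContinuousAt (fun y => Θ (π y)) x :=
      hΘ.continuousAt.comp (hc.continuousAt h1)
    refine h2.congr ?_
    filter_upwards [h1] with y hy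
    have hy' : y ≠ np := hy
    simp [hS, hy']

theorem inj_hS {π : S2 → ℂ} (h1 : ∀ w, π (sg w) = w) (h2 : ∀ x, x ≠ np → sg (π x) = x)
    (h3 : ∀ w, sg w ≠ np) {b : X} {Θ : ℂ → X} (hi : Function.Injective Θ)
    (hr : range Θ = {b}ᶜ) : Function.Injective (hS π b Θ) := by
  have hne : ∀ w, Θ w ≠ b := by
    intro w h
    have : Θ w ∈ ({b}ᶜ : Set X) := by rw [← hr]; exact ⟨w, rfl⟩
    exact this h
  intro x y hxy
  by_cases hx : x = np
  · by_cases hy : y = np
    · rw [hx, hy]
    · rw [hx, hS_np, ← h2 y hy, hS_sg h1 h3] at hxy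
      exact absurd hxy.symm (hne _)
  · by_cases hy : y = np
    · rw [hy, hS_np, ← h2 x hx, hS_sg h1 h3] at hxy
      exact absurd hxy (hne _)
    · rw [← h2 x hx, ← h2 y hy, hS_sg h1 h3, hS_sg h1 h3] at hxy
      rw [← h2 x hx, ← h2 y hy, hi hxy]

theorem exists_iso {π : S2 → ℂ} (h1 : ∀ w, π (sg w) = w) (h2 : ∀ x, x ≠ np → sg (π x) = x)
    (h3 : ∀ w, sg w ≠ np) (hl : S_lor) {b : X} {Θ : ℂ → X} {h : X → X} {e : ℂ → ℂ}
    (he : ∃ T : IsoGrp E3, T • np = np ∧ ∀ w, T • sg w = sg (e w)) (hm : IsMoeb h b Θ e) :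
    ∃ T : IsoGrp E3, ∀ x, hS π b Θ (T • x) = h (hS π b Θ x) := by
  obtain ⟨haff, -, ⟨I, hI1, hI2, hI3⟩⟩ := hl
  obtain ⟨Te, he1, he2⟩ := he
  have hcase : ∀ (T : IsoGrp E3), hS π b Θ (T • np) = h b →
      (∀ w, hS π b Θ (T • sg w) = h (Θ w)) → ∃ T : IsoGrp E3, ∀ x,
        hS π b Θ (T • x) = h (hS π b Θ x) := by
    intro T hT1 hT2
    refine ⟨T, fun x => ?_⟩
    by_cases hx : x = np
    · rw [hx, hT1, hS_np]
    · rw [← h2 x hx, hT2, hS_sg h1 h3]
  rcases hm with ⟨c, d, hc, hb, hw⟩ | ⟨c, p, q, hc, hb, hp, hw⟩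
  · obtain ⟨A, hA1, hA2⟩ := haff c d hc
    refine hcase (Te * A) ?_ fun w => ?_
    · rw [mul_smul, hA1, he1, hS_np, hb]
    · rw [mul_smul, hA2, he2, hS_sg h1 h3, hw]
  · obtain ⟨A, hA1, hA2⟩ := haff c (-(c * p)) hc
    obtain ⟨B, hB1, hB2⟩ := haff 1 q one_ne_zero
    refine hcase (Te * (B * (I * A))) ?_ fun w => ?_
    · rw [mul_smul, mul_smul, mul_smul, hA1, hI1, hB2, he2, hS_sg h1 h3, hb]
      congr 2
      ring
    · rw [mul_smul, mul_smul, mul_smul, hA2]
      by_cases hwp : w = p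
      · rw [hwp, show c * p + -(c * p) = 0 by ring, hI2, hB1, he1, hS_np, hp]
      · have hne : c * w + -(c * p) ≠ 0 := by
          rw [show c * w + -(c * p) = c * (w - p) by ring]
          exact mul_ne_zero hc (sub_ne_zero.2 hwp)
        rw [hI3 _ hne, hB2, he2, hS_sg h1 h3, hw w hwp]
        congr 2
        rw [show c * w + -(c * p) = c * (w - p) by ring]
        ring

theorem finrank_E3 : 2 ≤ Module.finrank ℝ E3 := by simp

end

/-- From the global coordinate to the lattice. -/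
theorem lattice (hster : S_ster) (hl : S_lor) (hmo : S_moeb) {G : Type} [Group G] {X : Type}
    [MetricSpace X] [CompactSpace X] (α : Action G X) (hα : IsConvergence α)
    {b : X} {Θ : ℂ → X} (hG : Global α b Θ) :
    ∃ (ρ : HypAct G 2) (h : Pool.Agent.TH631.RC.Sph 2 → X), IsEquivariant ρ α h ∧
      IsHomeomorph h ∧ IsProper ρ ∧ (GeomFinite α → IsLatticeAct ρ) := by
  obtain ⟨π, h1, h2, h3, h4, h5⟩ := hster
  have hlor := hl
  obtain ⟨haff, hconj, -⟩ := hl
  have hid : ∃ T : IsoGrp E3, T • np = np ∧ ∀ w, T • sg w = sg ((fun z => z) w) :=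
    ⟨1, one_smul _ _, fun w => one_smul _ _⟩
  have hex : ∀ g : G, ∃ T : IsoGrp E3, ∀ x, hS π b Θ (T • x) = α.map g (hS π b Θ x) := by
    intro g
    rcases hmo G X α b Θ hG g with h | h
    · exact exists_iso h1 h2 h3 hlor hid h
    · exact exists_iso h1 h2 h3 hlor hconj h
  choose T hT using hex
  have hinj := inj_hS h1 h2 h3 hG.inj hG.range
  have huniq : ∀ A B : IsoGrp E3, (∀ x, hS π b Θ (A • x) = hS π b Θ (B • x)) → A = B := by
    intro A B hAB
    exact Pool.TH345.LC.eq_of_eqOn finrank_E3 isOpen_univ ⟨np, mem_univ _⟩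
      fun y _ => hinj (hAB y)
  have hmul : ∀ g g' : G, T (g * g') = T g * T g' := by
    intro g g'
    apply huniq
    intro x
    rw [hT, α.map_mul, mul_smul, hT, hT]
  have hone : T 1 = 1 := by
    apply huniq
    intro x
    rw [hT, α.map_one, one_smul]
  set ρ : HypAct G 2 :=
    { map := fun g v => ((T g : IsoGrp E3) : (ℝ × E3) ≃L[ℝ] (ℝ × E3)) (show ℝ × E3 from v)
      map_add := fun g v w => map_add ((T g : IsoGrp E3) : (ℝ × E3) ≃L[ℝ] (ℝ × E3)) _ _
      map_smul := fun g c v => map_smul ((T g : IsoGrp E3) : (ℝ × E3) ≃L[ℝ] (ℝ × E3)) _ _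
      map_one := fun v => by
        rw [hone]; rfl
      map_mul := fun g g' v => by
        rw [hmul]; rfl
      form_map := fun g v w => Pool.TH345.LC.bf_iso (T g).2 _ _
      time_pos := fun g => (T g).2.2 } with hρ
  have heq : IsEquivariant ρ α (hS π b Θ : S2 → X) := by
    intro g x x' c hc hx
    have h6 : T g • (show S2 from x) = (show S2 from x') :=
      Pool.TH345.LC.smul_eq_of (T := T g) hc hx
    have h7 := hT g (show S2 from x)
    rw [h6] at h7
    exact h7
  have hcont : Continuous (hS π b Θ) := cont_hS h4 h5 hG.cont hG.inf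
  have hne : ∃ x y : S2, hS π b Θ x ≠ hS π b Θ y :=
    ⟨np, sg 0, fun h => h3 0 (hinj h).symm⟩
  have hsurj : Function.Surjective (hS π b Θ) := by
    intro x
    by_cases hx : x = b
    · exact ⟨np, by rw [hS_np, hx]⟩
    · have hx' : x ∈ ({b}ᶜ : Set X) := hx
      rw [← hG.range] at hx'
      obtain ⟨w, hw⟩ := hx'
      exact ⟨sg w, by rw [hS_sg h1 h3, hw]⟩
  have hhom : IsHomeomorph (hS π b Θ) := by
    have hcS : CompactSpace S2 := isCompact_iff_compactSpace.1 (isCompact_sphere (0 : E3) 1)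
    exact isHomeomorph_iff_continuous_bijective.2 ⟨hcont, hinj, hsurj⟩
  have hE : 1 < Module.finrank ℝ (Pool.Agent.TH631.RC.Euc 2) := by
    have : Module.finrank ℝ (EuclideanSpace ℝ (Fin (2 + 1))) = 2 + 1 := by simp
    change 1 < Module.finrank ℝ (EuclideanSpace ℝ (Fin (2 + 1)))
    omega
  have hfd : FiniteDimensional ℝ (Pool.Agent.TH631.RC.Euc 2) :=
    Module.finite_of_finrank_pos (by omega)
  have hd : Pool.Agent.TH631.RC.Data ρ.to α
      (hS π b Θ : Pool.Agent.TH631.RC.Sp (Pool.Agent.TH631.RC.Euc 2) → X) :=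
    ⟨hcont, Pool.Agent.TH631.RC.equi_of heq, Pool.Agent.TH631.RC.inf_of hE hcont hne⟩
  refine ⟨ρ, (hS π b Θ : S2 → X), heq, hhom, ?_, fun hgf => ?_⟩
  · exact Pool.Agent.TH631.RC.properly (hd.finite hα)
  · exact (Pool.Agent.TH631.RC.main (n := 2) (by norm_num) α hα hgf ρ (hS π b Θ : S2 → X) hcont
      hne heq).2

/-- The whole argument, from the pieces. -/
theorem whole (hster : S_ster) (hl : S_lor) (hmo : S_moeb) (hgl : S_global) (hlx : S_lox)
    {G : Type} [Group G] {X : Type} [MetricSpace X] [CompactSpace X] (α : Action G X)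
    (hα : IsConvergence α) (hmin : Minimal α) {U : Set X} {φ : X → ℂ}
    (hφ : Chart U φ) (hr : Returns α univ U φ) :
    ∃ (ρ : HypAct G 2) (h : Pool.Agent.TH631.RC.Sph 2 → X), IsEquivariant ρ α h ∧
      IsHomeomorph h ∧ IsProper ρ ∧ (GeomFinite α → IsLatticeAct ρ) := by
  obtain ⟨t, g, a, R, F, hL⟩ := hlx G X α U φ hα hmin hφ hr
  have hφ' : Chart U (fun x => φ x - t) := by
    refine ⟨hφ.isOpen, hφ.nonempty, hφ.cont.sub continuousOn_const, fun x hx y hy h => ?_,
      fun W hW hWo => ?_⟩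
    · have h' : φ x - t = φ y - t := h
      exact hφ.inj hx hy (by linear_combination h')
    · have h1 : (fun x => φ x - t) '' W = (fun z => z - t) '' (φ '' W) := by
        rw [← image_comp]; rfl
      rw [h1]
      exact (Homeomorph.subRight t).isOpenMap _ (hφ.image W hW hWo)
  have hr' : Returns α univ U (fun x => φ x - t) := by
    intro g' hg' x hx hgx
    obtain ⟨F', hF', hF''⟩ := hr g' hg' x hx hgx
    refine ⟨fun z => F' (z + t) - t, ?_, ?_⟩
    · have hsh : AnalyticAt ℂ (fun z : ℂ => z + t) (φ x - t) := by fun_prop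
      rcases hF' with h | h
      · left
        exact (h.comp_of_eq hsh (sub_add_cancel _ _)).sub analyticAt_const
      · right
        have h'' := (h.comp_of_eq hsh (sub_add_cancel _ _)).sub
          (analyticAt_const (v := (starRingEnd ℂ) t))
        refine h''.congr (Eventually.of_forall fun z => ?_)
        simp [Function.comp]
    · filter_upwards [hF''] with y hy
      simp [hy]
  obtain ⟨b, Θ, hG⟩ := hgl G X α U _ g a R F hα hφ' hr' hL
  exact lattice hster hl hmo α hα hG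

end Pool.TH345.CC
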