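import Pool.Agent.TH345.CC.Asm

/-! # Conformal charts: the converse -/

set_option autoImplicit false
set_option linter.unusedSectionVars false

open Filter Topology Set Metric

namespace Pool.TH345.CC

open Pool.Agent.TH631.RC (Action IsConvergence GeomFinite HypAct IsLatticeAct IsEquivariant IsProper)
open Pool.TH345.LC (IsoGrp)

def S_germ : Prop := ∀ (T : IsoGrp E3) (w w2 : ℂ), T • sg w = sg w2 →
  ∃ F : ℂ → ℂ, ConfAt F w ∧ ∀ᶠ v in 𝓝 w, T • sg v = sg (F v)

theorem continuous_sg : Continuous sg := by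
  refine Continuous.subtype_mk ?_ _
  have h : ∀ w : ℂ, ‖w‖ ^ 2 + 1 ≠ 0 := fun w => by positivity
  refine (PiLp.continuous_toLp 2 _).comp ?_
  rw [continuous_pi_iff]
  intro i
  fin_cases i
  · exact (continuous_const.mul Complex.continuous_re).div (by fun_prop) h
  · exact (continuous_const.mul Complex.continuous_im).div (by fun_prop) h
  · exact Continuous.div (by fun_prop) (by fun_prop) h

section

variable {G : Type} [Group G] {X : Type} [MetricSpace X] [CompactSpace X]

/-- The isometry of `g`. -/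
theorem exists_isoOf (ρ : HypAct G 2) (g : G) : ∃ T : IsoGrp E3, ∀ v : ℝ × E3,
    ((T : (ℝ × E3) ≃L[ℝ] (ℝ × E3)) v : ℝ × E3) = ρ.map g v := by
  have hinv : ∀ (a b : G) (v : Pool.Agent.TH631.RC.Mink 2), a * b = 1 →
      ρ.map a (ρ.map b v) = v := fun a b v hab => by
    rw [← ρ.map_mul, hab, ρ.map_one]
  have hlin : ∃ L : (ℝ × E3) ≃ₗ[ℝ] (ℝ × E3), ∀ v, L v = ρ.map g v :=
    ⟨{ toFun := fun v => ρ.map g v
       map_add' := fun v w => ρ.map_add g v w
       map_smul' := fun c v => ρ.map_smul g c v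
       invFun := fun v => ρ.map g⁻¹ v
       left_inv := fun v => hinv g⁻¹ g v (inv_mul_cancel g)
       right_inv := fun v => hinv g g⁻¹ v (mul_inv_cancel g) }, fun v => rfl⟩
  obtain ⟨L, hL⟩ := hlin
  refine ⟨⟨L.toContinuousLinearEquiv, ⟨fun v => ?_, ?_⟩⟩, fun v => hL v⟩
  · have h1 := ρ.form_map g v v
    change Pool.Agent.TH289.C.qf (L v) = Pool.Agent.TH289.C.qf v
    rw [hL]
    have h2 : ∀ u : ℝ × E3, Pool.Agent.TH289.C.qf u = Pool.Agent.TH631.RC.form (n := 2) u u := by
      intro u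
      change u.1 ^ 2 - ‖u.2‖ ^ 2 = u.1 * u.1 - inner ℝ u.2 u.2
      rw [real_inner_self_eq_norm_sq]
      ring
    have h3 := h2 v
    have h4 := h2 (ρ.map g v)
    exact h4.trans (h1.trans h3.symm)
  · change 0 < (L ((1 : ℝ), (0 : E3))).1
    rw [hL]
    exact ρ.time_pos g

theorem move_np (hl : S_lor) (hs : ∀ x : S2, x ≠ np → ∃ w, sg w = x) (x : S2) :
    ∃ T : IsoGrp E3, T • x = np := by
  obtain ⟨haff, -, ⟨I, hI1, hI2, hI3⟩⟩ := hl
  by_cases hx : x = np
  · exact ⟨1, by rw [one_smul, hx]⟩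
  · obtain ⟨w, rfl⟩ := hs x hx
    obtain ⟨A, hA1, hA2⟩ := haff 1 (-w) one_ne_zero
    refine ⟨I * A, ?_⟩
    rw [mul_smul, hA2, show (1 : ℂ) * w + -w = 0 by ring, hI2]

/-- If the action is conjugate to an action by isometries at infinity, then every open set `U ≠ X`
has a chart in which all elements are conformal. -/
theorem converse (hster : S_ster) (hl : S_lor) (hg : S_germ) (α : Action G X) (ρ : HypAct G 2)
    (h : Pool.Agent.TH631.RC.Sph 2 → X) (he : IsEquivariant ρ α h) (hh : IsHomeomorph h)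
    {U : Set X} (hU : IsOpen U) (hne : U.Nonempty) (hU1 : U ≠ univ) :
    ∃ φ : X → ℂ, Chart U φ ∧ Returns α univ U φ := by
  obtain ⟨π, h1, h2, h3, h4, h5⟩ := hster
  obtain ⟨y₀, hy₀⟩ := (ne_univ_iff_exists_notMem U).1 hU1
  set e : S2 ≃ₜ X := IsHomeomorph.homeomorph (h : S2 → X) hh with hedef
  have hee : ∀ x : S2, e x = h x := fun x => rfl
  obtain ⟨T₀, hT₀⟩ := move_np hl (fun x hx => ⟨π x, h2 x hx⟩) (e.symm y₀)
  have hcT : ∀ T : IsoGrp E3, Continuous fun x : S2 => T • x := fun T =>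
    Pool.TH345.LC.continuous_smul_left T
  set k : X → S2 := fun y => T₀ • e.symm y with hk
  have hkc : Continuous k := (hcT T₀).comp e.symm.continuous
  have hki : Function.Injective k := fun y y' hyy => e.symm.injective (smul_left_cancel T₀ hyy)
  have hkU : ∀ y ∈ U, k y ≠ np := by
    intro y hy hcon
    apply hy₀
    have h6 : k y = k y₀ := by rw [hcon]; exact hT₀.symm
    rw [← hki h6]
    exact hy
  have hk2 : ∀ x : S2, k (e (T₀⁻¹ • x)) = x := by
    intro x
    rw [hk]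
    simp only [Homeomorph.symm_apply_apply, smul_inv_smul]
  set φ : X → ℂ := fun y => π (k y) with hφ
  have hsφ : ∀ y ∈ U, sg (φ y) = k y := fun y hy => h2 _ (hkU y hy)
  have hφc : ContinuousOn φ U := by
    refine h4.comp hkc.continuousOn fun y hy => ?_
    exact hkU y hy
  refine ⟨φ, ⟨hU, hne, hφc, ?_, ?_⟩, ?_⟩
  · intro y hy y' hy' hyy
    apply hki
    rw [← hsφ y hy, ← hsφ y' hy', hyy]
  · intro W hW hWo
    have h6 : φ '' W = (fun w => e (T₀⁻¹ • sg w)) ⁻¹' W := by
      apply Subset.antisymm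
      · rintro _ ⟨y, hy, rfl⟩
        change e (T₀⁻¹ • sg (φ y)) ∈ W
        rw [hsφ y (hW hy), hk]
        simp only [inv_smul_smul, Homeomorph.apply_symm_apply]
        exact hy
      · intro w hw
        refine ⟨e (T₀⁻¹ • sg w), hw, ?_⟩
        change π (k (e (T₀⁻¹ • sg w))) = w
        rw [hk2, h1]
    rw [h6]
    exact hWo.preimage (e.continuous.comp ((hcT _).comp continuous_sg))
  · intro g _ y hy hgy
    obtain ⟨T, hT⟩ := exists_isoOf ρ g
    have heq : ∀ x : S2, e (T • x) = α.map g (e x) := by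
      intro x
      obtain ⟨c, hc, hc'⟩ := Pool.TH345.LC.smul_spec T x
      refine he g x (T • x) c hc ?_
      rw [hT] at hc'
      exact hc'
    have hkg : ∀ y, k (α.map g y) = (T₀ * T * T₀⁻¹) • k y := by
      intro y
      have h6 : e (T • e.symm y) = α.map g y := by
        rw [heq, Homeomorph.apply_symm_apply]
      rw [hk]
      simp only [← h6, Homeomorph.symm_apply_apply, mul_smul, inv_smul_smul]
    have h7 : (T₀ * T * T₀⁻¹) • sg (φ y) = sg (φ (α.map g y)) := by
      rw [hsφ y hy, hsφ _ hgy, hkg]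
    obtain ⟨F, hF, hF'⟩ := hg _ _ _ h7
    refine ⟨F, hF, ?_⟩
    have h8 : Tendsto φ (𝓝 y) (𝓝 (φ y)) := hφc.continuousAt (hU.mem_nhds hy)
    filter_upwards [h8.eventually hF', hU.mem_nhds hy] with y' hy' hyU
    rw [hsφ y' hyU, ← hkg] at hy'
    change π (k (α.map g y')) = F (φ y')
    rw [hy', h1]

/-- Consequences of the conjugacy. -/
theorem lattice_of (α : Action G X) (hα : IsConvergence α) (ρ : HypAct G 2)
    (h : Pool.Agent.TH631.RC.Sph 2 → X) (he : IsEquivariant ρ α h) (hh : IsHomeomorph h) :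
    IsProper ρ ∧ (GeomFinite α → IsLatticeAct ρ) := by
  have hE : 1 < Module.finrank ℝ (Pool.Agent.TH631.RC.Euc 2) := by
    have : Module.finrank ℝ (EuclideanSpace ℝ (Fin (2 + 1))) = 2 + 1 := by simp
    change 1 < Module.finrank ℝ (EuclideanSpace ℝ (Fin (2 + 1)))
    omega
  have hfd : FiniteDimensional ℝ (Pool.Agent.TH631.RC.Euc 2) :=
    Module.finite_of_finrank_pos (by omega)
  have hne : ∃ x y : Pool.Agent.TH631.RC.Sph 2, h x ≠ h y := by
    obtain ⟨π, h1, h2, h3, h4, h5⟩ : ∃ x : S2, ∃ y : S2, x ≠ y ∧ True ∧ True ∧ True := by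
      refine ⟨sg 0, sg 1, ?_, trivial, trivial, trivial⟩
      intro h
      have h1 := congrArg (fun x : S2 => (x : E3) 2) h
      simp [sg] at h1
    exact ⟨π, h1, fun hcon => h2 (hh.injective hcon)⟩
  have hd : Pool.Agent.TH631.RC.Data ρ.to α
      (h : Pool.Agent.TH631.RC.Sp (Pool.Agent.TH631.RC.Euc 2) → X) :=
    ⟨hh.continuous, Pool.Agent.TH631.RC.equi_of he,
      Pool.Agent.TH631.RC.inf_of hE hh.continuous hne⟩
  exact ⟨Pool.Agent.TH631.RC.properly (hd.finite hα), fun hgf =>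
    (Pool.Agent.TH631.RC.main (n := 2) (by norm_num) α hα hgf ρ h hh.continuous hne he).2⟩

end

end Pool.TH345.CC
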