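import Pool.Agent.TH345.CC.Stmts

/-! # The global coordinate -/

set_option autoImplicit false

open Filter Topology Set Metric

namespace Pool.TH345.CC.Glob

open Pool.Agent.TH631.RC (Action IsConvergence)

/-! ## Holomorphic injections -/

/-- A holomorphic injective function on an open set has non-vanishing derivative. -/
theorem deriv_ne {f : ℂ → ℂ} {U : Set ℂ} (hU : IsOpen U) (hf : DifferentiableOn ℂ f U)
    (hinj : Set.InjOn f U) {z₀ : ℂ} (hz : z₀ ∈ U) : deriv f z₀ ≠ 0 := by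
  intro h0
  have hfa : AnalyticAt ℂ f z₀ := hf.analyticAt (hU.mem_nhds hz)
  have hFa : AnalyticAt ℂ (fun z => f z - f z₀) z₀ := hfa.sub analyticAt_const
  have hne : ¬ ∀ᶠ z in 𝓝 z₀, f z - f z₀ = 0 := by
    intro h
    have h1 : ∀ᶠ z in 𝓝[≠] z₀, f z - f z₀ = 0 ∧ z ∈ U ∧ z ≠ z₀ := by
      filter_upwards [h.filter_mono nhdsWithin_le_nhds,
        (hU.mem_nhds hz |> fun h => mem_nhdsWithin_of_mem_nhds h),
        self_mem_nhdsWithin] with z h1 h2 h3
      exact ⟨h1, h2, h3⟩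
    obtain ⟨z, hz1, hz2, hz3⟩ := h1.exists
    exact hz3 (hinj hz2 hz (sub_eq_zero.mp hz1))
  obtain ⟨n, g, hga, hg0, hgeq⟩ := hFa.exists_eventuallyEq_pow_smul_nonzero_iff.mpr hne
  have hn0 : n ≠ 0 := by
    rintro rfl
    have := hgeq.self_of_nhds
    simp at this
    exact hg0 this.symm
  have hn1 : n ≠ 1 := by
    rintro rfl
    have h1 : HasDerivAt (fun z => (z - z₀) ^ 1 • g z) (g z₀) z₀ := by
      have h2 := ((hasDerivAt_id z₀).sub_const z₀).mul hga.differentiableAt.hasDerivAt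
      simpa using! h2
    have h3 : HasDerivAt (fun z => f z - f z₀) (g z₀) z₀ := h1.congr_of_eventuallyEq hgeq
    have h4 : HasDerivAt f (g z₀) z₀ := by simpa using h3.add_const (f z₀)
    rw [h4.deriv] at h0
    exact hg0 h0
  obtain ⟨c, hc⟩ := IsAlgClosed.exists_pow_nat_eq (g z₀) (Nat.pos_of_ne_zero hn0)
  have hc0 : c ≠ 0 := by
    rintro rfl
    rw [zero_pow hn0] at hc
    exact hg0 hc.symm
  set h : ℂ → ℂ := fun z => c * (g z / g z₀) ^ (1 / (n : ℂ)) with hh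
  have hslit : g z₀ / g z₀ ∈ Complex.slitPlane := by rw [div_self hg0]; exact Complex.one_mem_slitPlane
  have hha : AnalyticAt ℂ h z₀ := by
    apply analyticAt_const.mul
    exact (hga.div analyticAt_const hg0).cpow analyticAt_const hslit
  have hnC : (n : ℂ) ≠ 0 := by exact_mod_cast hn0
  have hhn : ∀ z, h z ^ n = g z := by
    intro z
    rw [hh]
    simp only
    rw [mul_pow, hc, ← Complex.cpow_mul_nat]
    rw [one_div, inv_mul_cancel₀ hnC, Complex.cpow_one]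
    field_simp
  have hh0 : h z₀ = c := by
    rw [hh]; simp [div_self hg0]
  set φ : ℂ → ℂ := fun z => (z - z₀) * h z with hφ
  have hφd : HasStrictDerivAt φ c z₀ := by
    have h1 : HasStrictDerivAt h (deriv h z₀) z₀ := hha.hasStrictDerivAt
    have h2 : HasStrictDerivAt (fun z : ℂ => z - z₀) 1 z₀ := (hasStrictDerivAt_id z₀).sub_const z₀
    have h3 := h2.mul h1
    rw [← hh0]
    simpa using! h3
  have hmap : map φ (𝓝 z₀) = 𝓝 0 := by
    have := hφd.map_nhds_eq hc0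
    rw [this]
    congr 1
    rw [hφ]; simp
  have hV : ∀ᶠ z in 𝓝 z₀, z ∈ U ∧ f z - f z₀ = φ z ^ n := by
    filter_upwards [hU.mem_nhds hz, hgeq] with z h1 h2
    refine ⟨h1, ?_⟩
    rw [h2, hφ]
    simp only
    rw [mul_pow, hhn, smul_eq_mul]
  obtain ⟨V, hVm, hV2⟩ := hV.exists_mem
  have himg : φ '' V ∈ 𝓝 (0 : ℂ) := by
    rw [← hmap]
    exact image_mem_map hVm
  set ζ : ℂ := Complex.exp (2 * Real.pi * Complex.I / n) with hζ
  have hprim : IsPrimitiveRoot ζ n := Complex.isPrimitiveRoot_exp n hn0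
  have hζ1 : ζ ≠ 1 := hprim.ne_one (by omega)
  have hζn : ζ ^ n = 1 := hprim.pow_eq_one
  have hcont : Tendsto (fun w : ℂ => ζ * w) (𝓝 0) (𝓝 0) := by
    have : Continuous (fun w : ℂ => ζ * w) := by fun_prop
    simpa using this.tendsto 0
  have hboth : ∀ᶠ w in 𝓝[≠] (0 : ℂ), w ∈ φ '' V ∧ ζ * w ∈ φ '' V ∧ w ≠ 0 := by
    filter_upwards [mem_nhdsWithin_of_mem_nhds himg, mem_nhdsWithin_of_mem_nhds (hcont himg),
      self_mem_nhdsWithin] with w h1 h2 h3
    exact ⟨h1, h2, h3⟩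
  obtain ⟨w, ⟨z1, hz1, hw1⟩, ⟨z2, hz2, hw2⟩, hw0⟩ := hboth.exists
  have e1 := (hV2 z1 hz1).2
  have e2 := (hV2 z2 hz2).2
  rw [hw1] at e1
  rw [hw2, mul_pow, hζn, one_mul] at e2
  have e3 : f z1 = f z2 := by
    have : f z1 - f z₀ = f z2 - f z₀ := by rw [e1, e2]
    linear_combination this
  have e4 := hinj (hV2 z1 hz1).1 (hV2 z2 hz2).1 e3
  rw [← e4, hw1] at hw2
  apply hζ1
  have : (ζ - 1) * w = 0 := by linear_combination -hw2
  rcases mul_eq_zero.mp this with h1 | h1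
  · linear_combination h1
  · exact absurd h1 hw0

/-- inverse of an injective holomorphic map -/
theorem inv_facts {U : Set ℂ} (hU : IsOpen U) {f : ℂ → ℂ}
    (hf : DifferentiableOn ℂ f U) (hi : InjOn f U) :
    IsOpen (f '' U) ∧ ∃ g : ℂ → ℂ, DifferentiableOn ℂ g (f '' U) ∧ (∀ z ∈ U, g (f z) = z) := by
  have hs : ∀ z ∈ U, HasStrictDerivAt f (deriv f z) z := fun z hz =>
    (hf.analyticAt (hU.mem_nhds hz)).hasStrictDerivAt
  have hleft : ∀ z ∈ U, Function.invFunOn f U (f z) = z := fun z hz => hi.leftInvOn_invFunOn hz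
  have hder : ∀ z ∈ U, HasDerivAt (Function.invFunOn f U) (deriv f z)⁻¹ (f z) := by
    intro z hz
    apply HasStrictDerivAt.hasDerivAt
    apply (hs z hz).to_local_left_inverse (deriv_ne hU hf hi hz)
    filter_upwards [hU.mem_nhds hz] with x hx
    exact hleft x hx
  refine ⟨?_, Function.invFunOn f U, ?_, hleft⟩
  · rw [isOpen_iff_mem_nhds]
    rintro _ ⟨z, hz, rfl⟩
    rw [← (hs z hz).map_nhds_eq (deriv_ne hU hf hi hz)]
    exact Filter.image_mem_map (hU.mem_nhds hz)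
  · rintro _ ⟨z, hz, rfl⟩
    exact (hder z hz).differentiableAt.differentiableWithinAt

/-! ## The linearising chart -/

set_option linter.unusedSectionVars false

variable {G : Type} [Group G] {X : Type} [MetricSpace X] [CompactSpace X]

theorem act_inv_left (α : Action G X) (g : G) (x : X) : α.map g⁻¹ (α.map g x) = x := by
  rw [← α.map_mul, inv_mul_cancel, α.map_one]

theorem act_inv_right (α : Action G X) (g : G) (x : X) : α.map g (α.map g⁻¹ x) = x := by
  rw [← α.map_mul, mul_inv_cancel, α.map_one]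

theorem act_inj (α : Action G X) (g : G) {x y : X} (h : α.map g x = α.map g y) : x = y := by
  rw [← act_inv_left α g x, h, act_inv_left]

/-- A chart `ψ` on `D` in which `g` is the multiplication by `lam`. -/
structure Dat (α : Action G X) (D : Set X) (ψ : X → ℂ) (g : G) (b : X) (lam : ℂ) (B : Set ℂ)
    (ξ : ℂ → X) (M : ℝ) : Prop where
  opD : IsOpen D
  maps : ∀ x ∈ D, α.map g x ∈ D
  lin : ∀ x ∈ D, ψ (α.map g x) = lam * ψ x
  lam0 : lam ≠ 0
  lam1 : ‖lam‖ < 1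
  ex : ∀ x, x ≠ b → ∃ n : ℕ, α.map (g ^ n) x ∈ D
  nb : ∀ n : ℕ, α.map (g ^ n) b ∉ D
  bound : ∀ x ∈ D, ‖ψ x‖ ≤ M
  opB : IsOpen B
  zB : (0 : ℂ) ∈ B
  xi_cont : ContinuousOn ξ B
  xi : ∀ w ∈ B, ξ w ∈ D ∧ ψ (ξ w) = w
  xi' : ∀ x ∈ D, ψ x ∈ B ∧ ξ (ψ x) = x
  ret : ∀ (h : G) (x : X), x ∈ D → α.map h x ∈ D → ∃ F : ℂ → ℂ, ConfAt F (ψ x) ∧
    ∀ᶠ y in 𝓝 x, ψ (α.map h y) = F (ψ y)

section

variable {α : Action G X} {D : Set X} {ψ : X → ℂ} {g : G} {b : X} {lam : ℂ} {B : Set ℂ}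
  {ξ : ℂ → X} {M : ℝ}

/-- `x` is the point with the coordinate `w`. -/
def P (α : Action G X) (D : Set X) (ψ : X → ℂ) (g : G) (lam : ℂ) (w : ℂ) (x : X) : Prop :=
  ∃ n : ℕ, α.map (g ^ n) x ∈ D ∧ ψ (α.map (g ^ n) x) = lam ^ n * w

theorem Dat.step (d : Dat α D ψ g b lam B ξ M) {x : X} {n : ℕ} (h : α.map (g ^ n) x ∈ D) (k : ℕ) :
    α.map (g ^ (n + k)) x ∈ D ∧
      ψ (α.map (g ^ (n + k)) x) = lam ^ k * ψ (α.map (g ^ n) x) := by
  induction k with
  | zero => simpa using h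
  | succ k ih =>
    have h1 : α.map (g ^ (n + (k + 1))) x = α.map g (α.map (g ^ (n + k)) x) := by
      rw [← add_assoc, pow_succ', α.map_mul]
    rw [h1]
    refine ⟨d.maps _ ih.1, ?_⟩
    rw [d.lin _ ih.1, ih.2, pow_succ]
    ring

theorem Dat.val (d : Dat α D ψ g b lam B ξ M) {w : ℂ} {x : X} (hP : P α D ψ g lam w x) {n : ℕ}
    (h : α.map (g ^ n) x ∈ D) : ψ (α.map (g ^ n) x) = lam ^ n * w := by
  obtain ⟨m, hm, he⟩ := hP
  have h1 := (d.step h m).2
  have h2 := (d.step hm n).2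
  rw [add_comm n m, h2, he] at h1
  have h3 : lam ^ m ≠ 0 := pow_ne_zero _ d.lam0
  apply mul_left_cancel₀ h3
  rw [← h1]
  ring

theorem Dat.uniq (d : Dat α D ψ g b lam B ξ M) {w : ℂ} {x y : X} (hx : P α D ψ g lam w x)
    (hy : P α D ψ g lam w y) : x = y := by
  obtain ⟨n, hn, -⟩ := id hx
  obtain ⟨m, hm, -⟩ := id hy
  have h1 := (d.step hn m).1
  have h2 := (d.step hm n).1
  rw [add_comm m n] at h2
  have e1 := d.val hx h1
  have e2 := d.val hy h2
  apply act_inj α (g ^ (n + m))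
  rw [← (d.xi' _ h1).2, e1, ← e2, (d.xi' _ h2).2]

theorem Dat.uniq' (d : Dat α D ψ g b lam B ξ M) {w w' : ℂ} {x : X} (hx : P α D ψ g lam w x)
    (hy : P α D ψ g lam w' x) : w = w' := by
  obtain ⟨n, hn, he⟩ := id hx
  have e2 := d.val hy hn
  exact mul_left_cancel₀ (pow_ne_zero n d.lam0) (he.symm.trans e2)

theorem Dat.mk' (d : Dat α D ψ g b lam B ξ M) {w : ℂ} {n : ℕ} (h : lam ^ n * w ∈ B) :
    P α D ψ g lam w (α.map (g ^ n)⁻¹ (ξ (lam ^ n * w))) := by
  refine ⟨n, ?_, ?_⟩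
  · rw [act_inv_right]; exact (d.xi _ h).1
  · rw [act_inv_right]; exact (d.xi _ h).2

theorem Dat.exB (d : Dat α D ψ g b lam B ξ M) (w : ℂ) : ∃ n : ℕ, lam ^ n * w ∈ B := by
  have h1 : Tendsto (fun n : ℕ => lam ^ n * w) atTop (𝓝 0) := by
    have := (tendsto_pow_atTop_nhds_zero_of_norm_lt_one d.lam1).mul_const w
    simpa using this
  exact (h1.eventually (d.opB.mem_nhds d.zB)).exists

theorem Dat.exP (d : Dat α D ψ g b lam B ξ M) (w : ℂ) : ∃ x, P α D ψ g lam w x := by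
  obtain ⟨n, hn⟩ := d.exB w
  exact ⟨_, d.mk' hn⟩

theorem Dat.global (d : Dat α D ψ g b lam B ξ M) (hc : S_comp) : ∃ Θ : ℂ → X, Global α b Θ := by
  choose Θ hΘ using d.exP
  have hloc : ∀ w : ℂ, ∀ n : ℕ, lam ^ n * w ∈ B →
      Θ w = α.map (g ^ n)⁻¹ (ξ (lam ^ n * w)) := fun w n h => d.uniq (hΘ w) (d.mk' h)
  refine ⟨Θ, ?_, ?_, ?_, ?_, ?_⟩
  · rw [continuous_iff_continuousAt]
    intro w
    obtain ⟨n, hn⟩ := d.exB w
    have hcm : Continuous (fun v : ℂ => lam ^ n * v) := by fun_prop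
    have hev : ∀ᶠ v in 𝓝 w, lam ^ n * v ∈ B := hcm.continuousAt.eventually (d.opB.mem_nhds hn)
    have h1 : ContinuousAt (fun v => α.map (g ^ n)⁻¹ (ξ (lam ^ n * v))) w := by
      refine (α.cont _).continuousAt.comp ?_
      exact ContinuousAt.comp (f := fun v : ℂ => lam ^ n * v) (g := ξ)
        (d.xi_cont.continuousAt (d.opB.mem_nhds hn)) hcm.continuousAt
    refine h1.congr ?_
    filter_upwards [hev] with v hv
    exact (hloc v n hv).symm
  · intro w w' h
    exact d.uniq' (hΘ w) (h ▸ hΘ w')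
  · ext x
    simp only [Set.mem_range, mem_compl_iff, mem_singleton_iff]
    constructor
    · rintro ⟨w, rfl⟩ hb
      obtain ⟨n, hn, -⟩ := hΘ w
      rw [hb] at hn
      exact d.nb n hn
    · intro hx
      obtain ⟨n, hn⟩ := d.ex x hx
      refine ⟨ψ (α.map (g ^ n) x) / lam ^ n, d.uniq (hΘ _) ⟨n, hn, ?_⟩⟩
      rw [mul_div_cancel₀ _ (pow_ne_zero n d.lam0)]
  · intro W hW
    obtain ⟨W', hW', hWo, hbW⟩ := _root_.mem_nhds_iff.1 hW
    have hmono : Monotone fun n : ℕ => {x : X | α.map (g ^ n) x ∈ D} := by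
      refine monotone_nat_of_le_succ fun n => ?_
      intro x hx
      exact (d.step (n := n) hx 1).1
    obtain ⟨N, hN⟩ := (hWo.isClosed_compl.isCompact : IsCompact W'ᶜ).elim_directed_cover
      (fun n : ℕ => {x : X | α.map (g ^ n) x ∈ D})
      (fun n => d.opD.preimage (α.cont _))
      (fun x hx => by
        have hxb : x ≠ b := fun h => hx (h ▸ hbW)
        obtain ⟨n, hn⟩ := d.ex x hxb
        exact mem_iUnion.2 ⟨n, hn⟩)
      hmono.directed_le
    have hev : ∀ᶠ w in cocompact ℂ, M / ‖lam‖ ^ N < ‖w‖ :=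
      (tendsto_norm_cocompact_atTop (E := ℂ)).eventually (eventually_gt_atTop _)
    rw [mem_map]
    filter_upwards [hev] with w hw
    by_contra hcon
    have h1 : Θ w ∈ W'ᶜ := fun h => hcon (hW' h)
    have h2 : α.map (g ^ N) (Θ w) ∈ D := hN h1
    have h3 := d.val (hΘ w) h2
    have h4 := d.bound _ h2
    rw [h3, norm_mul, norm_pow] at h4
    have h5 : 0 < ‖lam‖ ^ N := pow_pos (norm_pos_iff.2 d.lam0) N
    rw [div_lt_iff₀ h5] at hw
    linarith [mul_comm (‖lam‖ ^ N) ‖w‖]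
  · intro h w w' hh
    obtain ⟨n, hn, hen⟩ := hΘ w
    obtain ⟨m, hm, -⟩ := hΘ w'
    set x := α.map (g ^ n) (Θ w) with hx
    set γ := g ^ m * h * (g ^ n)⁻¹ with hγ
    have hγx : α.map γ x = α.map (g ^ m) (Θ w') := by
      rw [hγ, hx, α.map_mul, act_inv_left, α.map_mul, hh]
    obtain ⟨F', hF', hev⟩ := d.ret γ x hn (hγx ▸ hm)
    rw [hen] at hF'
    have hwB : lam ^ n * w ∈ B := hen ▸ (d.xi' x hn).1
    refine ⟨fun v => (lam ^ m)⁻¹ * F' (lam ^ n * v), ?_, ?_⟩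
    · have h1 : ConfAt (fun v : ℂ => F' (lam ^ n * v)) w :=
        hc (fun v => lam ^ n * v) F' w (Or.inl (by fun_prop)) hF'
      exact hc (fun v => F' (lam ^ n * v)) (fun z => (lam ^ m)⁻¹ * z) w h1
        (Or.inl (by fun_prop))
    · have hcm : Continuous (fun v : ℂ => lam ^ n * v) := by fun_prop
      have hevB : ∀ᶠ v in 𝓝 w, lam ^ n * v ∈ B := hcm.continuousAt.eventually (d.opB.mem_nhds hwB)
      have hxv : Tendsto (fun v : ℂ => ξ (lam ^ n * v)) (𝓝 w) (𝓝 x) := by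
        have h1 : ContinuousAt (fun v : ℂ => ξ (lam ^ n * v)) w :=
          ContinuousAt.comp (f := fun v : ℂ => lam ^ n * v) (g := ξ)
            (d.xi_cont.continuousAt (d.opB.mem_nhds hwB)) hcm.continuousAt
        have h2 : ξ (lam ^ n * w) = x := by rw [← hen]; exact (d.xi' x hn).2
        rw [← h2]
        exact h1
      have hev2 : ∀ᶠ y in 𝓝 x, α.map γ y ∈ D :=
        (α.cont γ).continuousAt.eventually (d.opD.mem_nhds (hγx ▸ hm))
      filter_upwards [hevB, hxv.eventually hev, hxv.eventually hev2] with v h1 h2 h3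
      refine d.uniq (w := (lam ^ m)⁻¹ * F' (lam ^ n * v)) ⟨m, ?_, ?_⟩ (hΘ _)
      all_goals
        have h4 : α.map (g ^ m) (α.map h (Θ v)) = α.map γ (ξ (lam ^ n * v)) := by
          rw [hloc v n h1, hγ, α.map_mul, α.map_mul]
        rw [h4]
      · exact h3
      · rw [h2, (d.xi _ h1).2, mul_inv_cancel_left₀ (pow_ne_zero m d.lam0)]

end

/-! ## The construction of the linearising chart -/

theorem chart_inv {U : Set X} {φ : X → ℂ} (h : Chart U φ) : ∃ χ : ℂ → X,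
    ContinuousOn χ (φ '' U) ∧ (∀ z ∈ φ '' U, χ z ∈ U ∧ φ (χ z) = z) ∧ ∀ x ∈ U, χ (φ x) = x := by
  have : Nonempty X := ⟨h.nonempty.some⟩
  have hleft : ∀ x ∈ U, Function.invFunOn φ U (φ x) = x := fun x hx =>
    h.inj.leftInvOn_invFunOn hx
  refine ⟨Function.invFunOn φ U, ?_, fun z hz => ⟨Function.invFunOn_mem hz,
    Function.invFunOn_eq hz⟩, hleft⟩
  rintro _ ⟨x, hx, rfl⟩
  apply ContinuousAt.continuousWithinAt
  intro V hV
  rw [hleft x hx] at hV
  obtain ⟨V', hV', hVo, hxV⟩ := _root_.mem_nhds_iff.1 hV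
  have h1 : IsOpen (φ '' (V' ∩ U)) := h.image _ inter_subset_right (hVo.inter h.isOpen)
  rw [mem_map]
  filter_upwards [h1.mem_nhds ⟨x, ⟨hxV, hx⟩, rfl⟩] with z hz
  obtain ⟨y, hy, rfl⟩ := hz
  show Function.invFunOn φ U (φ y) ∈ V
  rw [hleft y hy.2]
  exact hV' hy.1

theorem glob_aux (hk : S_koenigs) (hc : S_comp) (α : Action G X) (U : Set X) (φ : X → ℂ) (g : G)
    (a : X) (R : ℝ) (F : ℂ → ℂ) (hconv : IsConvergence α) (hch : Chart U φ)
    (hret : Returns α univ U φ) (hL : Lox α U φ g a R F) :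
    ∃ (b : X) (Θ : ℂ → X), Global α b Θ := by
  obtain ⟨χ, hχc, hχ, hχ'⟩ := chart_inv hch
  have hRpos := hL.pos
  have h0R : (0 : ℂ) ∈ ball (0 : ℂ) R := mem_ball_self hRpos
  have hFinj : InjOn F (ball 0 R) := by
    intro z hz w hw hzw
    obtain ⟨hx, hxz⟩ := hχ z (hL.sub hz)
    obtain ⟨hy, hyw⟩ := hχ w (hL.sub hw)
    have e1 := hL.maps _ hx (by rw [hxz]; exact hz)
    have e2 := hL.maps _ hy (by rw [hyw]; exact hw)
    have e3 : α.map g (χ z) = α.map g (χ w) := by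
      apply hch.inj e1.1 e2.1
      rw [e1.2, e2.2, hxz, hyw, hzw]
    have e4 := act_inj α g e3
    rw [← hxz, ← hyw, e4]
  have hF0 : F 0 = 0 := by
    have e1 := (hL.maps a hL.mem (by rw [hL.zero]; exact h0R)).2
    rw [hL.fix, hL.zero] at e1
    exact e1.symm
  have hlam0 : deriv F 0 ≠ 0 := deriv_ne isOpen_ball hL.diff hFinj h0R
  have hFd : DifferentiableAt ℂ F 0 := hL.diff.differentiableAt (isOpen_ball.mem_nhds h0R)
  have hlam1 : ‖deriv F 0‖ ≤ 2 / 3 := by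
    have hp : (0 : ℝ) ≤ 2 / 3 := by norm_num
    refine norm_deriv_le_of_lip' hp ?_
    filter_upwards [isOpen_ball.mem_nhds h0R] with z hz
    rw [hF0, sub_zero, sub_zero]
    exact hL.contr z hz
  obtain ⟨s, κ, hs, hsR, hκd, hκi, hκ0, hκ2, hκF⟩ := hk F R (2 / 3) hRpos (by norm_num)
    (by norm_num) hL.diff hF0 hL.contr hlam0
  obtain ⟨hBo, ki, hkid, hki⟩ := inv_facts isOpen_ball hκd hκi
  have hsub : ball (0 : ℂ) s ⊆ ball 0 R := ball_subset_ball hsR
  set lam := deriv F 0 with hlam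
  set D : Set X := {x | x ∈ U ∧ φ x ∈ ball (0 : ℂ) s} with hD
  have hDo : IsOpen D := hch.cont.isOpen_inter_preimage hch.isOpen isOpen_ball
  -- the maps on `D`
  have hDmap : ∀ x ∈ D, α.map g x ∈ D ∧ φ (α.map g x) = F (φ x) := by
    intro x hx
    have e1 := hL.maps x hx.1 (hsub hx.2)
    refine ⟨⟨e1.1, ?_⟩, e1.2⟩
    rw [e1.2, mem_ball_zero_iff]
    have e2 := hL.contr _ (hsub hx.2)
    have e3 := mem_ball_zero_iff.1 hx.2
    linarith [norm_nonneg (φ x)]
  have haD : a ∈ D := ⟨hL.mem, by rw [hL.zero]; exact mem_ball_self hs⟩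
  have hχD : ∀ z ∈ ball (0 : ℂ) s, χ z ∈ D ∧ φ (χ z) = z := by
    intro z hz
    obtain ⟨e1, e2⟩ := hχ z (hL.sub (hsub hz))
    exact ⟨⟨e1, by rw [e2]; exact hz⟩, e2⟩
  have hiter : ∀ x ∈ D, ∀ n : ℕ, α.map (g ^ n) x ∈ D ∧
      ‖φ (α.map (g ^ n) x)‖ ≤ (2 / 3) ^ n * ‖φ x‖ := by
    intro x hx n
    induction n with
    | zero => rw [pow_zero, α.map_one]; exact ⟨hx, by simp⟩
    | succ n ih =>
      have e1 : α.map (g ^ (n + 1)) x = α.map g (α.map (g ^ n) x) := by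
        rw [pow_succ', α.map_mul]
      rw [e1]
      obtain ⟨e2, e3⟩ := hDmap _ ih.1
      refine ⟨e2, ?_⟩
      rw [e3]
      have e4 := hL.contr _ (hsub ih.1.2)
      calc ‖F (φ (α.map (g ^ n) x))‖ ≤ 2 / 3 * ‖φ (α.map (g ^ n) x)‖ := e4
        _ ≤ 2 / 3 * ((2 / 3) ^ n * ‖φ x‖) := by linarith [ih.2]
        _ = (2 / 3) ^ (n + 1) * ‖φ x‖ := by ring
  have hlim : ∀ x ∈ D, Tendsto (fun n : ℕ => α.map (g ^ n) x) atTop (𝓝 a) := by
    intro x hx
    have e1 : Tendsto (fun n : ℕ => φ (α.map (g ^ n) x)) atTop (𝓝 0) := by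
      rw [tendsto_zero_iff_norm_tendsto_zero]
      refine squeeze_zero (fun n => norm_nonneg _) (fun n => (hiter x hx n).2) ?_
      have := (tendsto_pow_atTop_nhds_zero_of_lt_one (r := (2 / 3 : ℝ)) (by norm_num)
        (by norm_num)).mul_const ‖φ x‖
      simpa using this
    have e2 : ContinuousAt χ 0 := hχc.continuousAt
      (mem_of_superset (isOpen_ball.mem_nhds h0R) hL.sub)
    have e3 : χ 0 = a := by rw [← hL.zero]; exact hχ' a hL.mem
    have e4 : Tendsto (fun n : ℕ => χ (φ (α.map (g ^ n) x))) atTop (𝓝 a) := by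
      rw [← e3]
      exact e2.tendsto.comp e1
    refine e4.congr fun n => hχ' _ (hiter x hx n).1.1
  -- a second point of `D`
  have hsC : ((s / 2 : ℝ) : ℂ) ∈ ball (0 : ℂ) s := by
    rw [mem_ball_zero_iff, Complex.norm_real, Real.norm_eq_abs, abs_of_pos (by linarith)]
    linarith
  set c := χ ((s / 2 : ℝ) : ℂ) with hcdef
  obtain ⟨hcD, hφc⟩ := hχD _ hsC
  rw [← hcdef] at hcD hφc
  have hφc0 : φ c ≠ 0 := by
    rw [hφc]
    simp only [ne_eq, Complex.ofReal_eq_zero]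
    linarith
  have hca : c ≠ a := fun h => hφc0 (by rw [h, hL.zero])
  -- powers of `g` are different
  have hpow : Function.Injective fun n : ℕ => g ^ n := by
    have key : ∀ n m : ℕ, n < m → g ^ n ≠ g ^ m := by
      intro n m hnm he
      obtain ⟨k, rfl⟩ := Nat.exists_eq_add_of_lt hnm
      have e1 : g ^ (k + 1) = 1 := by
        have : g ^ n * g ^ (k + 1) = g ^ n * 1 := by rw [← pow_add, mul_one, ← add_assoc]; exact he.symm
        exact mul_left_cancel this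
      have e2 := (hiter c hcD (k + 1)).2
      rw [e1, α.map_one] at e2
      have e3 : 0 < ‖φ c‖ := norm_pos_iff.2 hφc0
      have e4 : (2 / 3 : ℝ) ^ (k + 1) < 1 := pow_lt_one₀ (by norm_num) (by norm_num) (by omega)
      nlinarith
    intro n m h
    rcases lt_trichotomy n m with h1 | h1 | h1
    · exact absurd h (key n m h1)
    · exact h1
    · exact absurd h.symm (key m n h1)
  have htend : Tendsto (fun n : ℕ => g ^ n) atTop cofinite := by
    rw [← Nat.cofinite_eq_atTop]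
    exact hpow.tendsto_cofinite
  obtain ⟨θ, hθ, p, b, hpb⟩ := hconv _ htend
  have hoff : ∀ x, x ≠ b → Tendsto (fun n => α.map (g ^ (θ n)) x) atTop (𝓝 p) := by
    intro x hx V hV
    have hW : {y | y ≠ x} ∈ 𝓝 b := isOpen_ne.mem_nhds hx.symm
    rw [mem_map]
    filter_upwards [hpb V hV _ hW] with n hn
    exact hn x (fun h => h rfl)
  have hpa : p = a := by
    obtain ⟨x, hxD, hxb⟩ : ∃ x ∈ D, x ≠ b := by
      by_cases h : a = b
      · exact ⟨c, hcD, fun h' => hca (h'.trans h.symm)⟩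
      · exact ⟨a, haD, h⟩
    exact tendsto_nhds_unique (hoff x hxb) ((hlim x hxD).comp hθ.tendsto_atTop)
  have hex : ∀ x, x ≠ b → ∃ n : ℕ, α.map (g ^ n) x ∈ D := by
    intro x hx
    have e1 := hoff x hx
    rw [hpa] at e1
    obtain ⟨n, hn⟩ := (e1.eventually (hDo.mem_nhds haD)).exists
    exact ⟨θ n, hn⟩
  have hmono : Monotone fun n : ℕ => {x : X | α.map (g ^ n) x ∈ D} := by
    refine monotone_nat_of_le_succ fun n => ?_
    intro x hx
    show α.map (g ^ (n + 1)) x ∈ D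
    rw [pow_succ', α.map_mul]
    exact (hDmap _ hx).1
  have hnb : ∀ n : ℕ, α.map (g ^ n) b ∉ D := by
    intro N hN
    have hall : ∀ x, ∃ n : ℕ, α.map (g ^ n) x ∈ D := by
      intro x
      by_cases h : x = b
      · exact ⟨N, h ▸ hN⟩
      · exact hex x h
    obtain ⟨n, hn⟩ := (isCompact_univ : IsCompact (univ : Set X)).elim_directed_cover
      (fun n : ℕ => {x : X | α.map (g ^ n) x ∈ D})
      (fun n => hDo.preimage (α.cont _))
      (fun x _ => mem_iUnion.2 (hall x))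
      hmono.directed_le
    have hDuniv : ∀ x, x ∈ D := by
      intro x
      have := hn (mem_univ (α.map (g ^ n)⁻¹ x))
      rw [mem_ofPred_eq, act_inv_right] at this
      exact this
    have hUuniv : U = univ := eq_univ_of_forall fun x => (hDuniv x).1
    have himg : φ '' univ = ball (0 : ℂ) s := by
      ext z
      constructor
      · rintro ⟨x, -, rfl⟩
        exact (hDuniv x).2
      · intro hz
        exact ⟨χ z, mem_univ _, (hχD z hz).2⟩
    have hcomp : IsCompact (ball (0 : ℂ) s) := by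
      rw [← himg]
      refine isCompact_univ.image_of_continuousOn ?_
      rw [← hUuniv]
      exact hch.cont
    have hcl : closure (ball (0 : ℂ) s) = closedBall 0 s := closure_ball 0 hs.ne'
    rw [hcomp.isClosed.closure_eq] at hcl
    have e1 : ((s : ℝ) : ℂ) ∈ closedBall (0 : ℂ) s := by
      rw [mem_closedBall_zero_iff, Complex.norm_real, Real.norm_eq_abs, abs_of_pos hs]
    rw [← hcl, mem_ball_zero_iff, Complex.norm_real, Real.norm_eq_abs, abs_of_pos hs] at e1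
    exact lt_irrefl _ e1
  -- the chart
  have hkiB : ∀ w ∈ κ '' ball (0 : ℂ) s, ki w ∈ ball (0 : ℂ) s ∧ κ (ki w) = w := by
    rintro _ ⟨z, hz, rfl⟩
    rw [hki z hz]
    exact ⟨hz, rfl⟩
  have d : Dat α D (fun x => κ (φ x)) g b lam (κ '' ball (0 : ℂ) s) (fun w => χ (ki w))
      (2 * s) := by
    refine ⟨hDo, fun x hx => (hDmap x hx).1, ?_, hlam0, by linarith, hex, hnb, ?_, hBo, ?_, ?_,
      ?_, ?_, ?_⟩
    · intro x hx
      show κ (φ (α.map g x)) = lam * κ (φ x)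
      rw [(hDmap x hx).2]
      exact hκF _ hx.2
    · intro x hx
      have e1 := hκ2 _ hx.2
      have e2 := mem_ball_zero_iff.1 hx.2
      linarith
    · exact ⟨0, mem_ball_self hs, hκ0⟩
    · refine ContinuousOn.comp (t := φ '' U) hχc hkid.continuousOn ?_
      intro w hw
      exact hL.sub (hsub (hkiB w hw).1)
    · intro w hw
      obtain ⟨e1, e2⟩ := hkiB w hw
      obtain ⟨e3, e4⟩ := hχD _ e1
      refine ⟨e3, ?_⟩
      show κ (φ (χ (ki w))) = w
      rw [e4, e2]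
    · intro x hx
      refine ⟨⟨φ x, hx.2, rfl⟩, ?_⟩
      show χ (ki (κ (φ x))) = x
      rw [hki _ hx.2, hχ' x hx.1]
    · intro h x hx hhx
      obtain ⟨F', hF', hev⟩ := hret h (mem_univ h) x hx.1 hhx.1
      have hself : φ (α.map h x) = F' (φ x) := hev.self_of_nhds
      have hψB : κ (φ x) ∈ κ '' ball (0 : ℂ) s := ⟨φ x, hx.2, rfl⟩
      refine ⟨fun w => κ (F' (ki w)), ?_, ?_⟩
      · have h1 : ConfAt ki (κ (φ x)) := Or.inl (hkid.analyticAt (hBo.mem_nhds hψB))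
        have h2 : ConfAt (fun w => F' (ki w)) (κ (φ x)) := by
          refine hc ki F' _ h1 ?_
          rw [hki _ hx.2]
          exact hF'
        refine hc (fun w => F' (ki w)) κ _ h2 ?_
        left
        show AnalyticAt ℂ κ (F' (ki (κ (φ x))))
        rw [hki _ hx.2, ← hself]
        exact hκd.analyticAt (isOpen_ball.mem_nhds hhx.2)
      · filter_upwards [hev, hDo.mem_nhds hx] with y hy hyD
        show κ (φ (α.map h y)) = κ (F' (ki (κ (φ y))))
        rw [hy, hki _ hyD.2]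
  obtain ⟨Θ, hΘ⟩ := d.global hc
  exact ⟨b, Θ, hΘ⟩

end Pool.TH345.CC.Glob

namespace Pool.TH345.CC

theorem global (hk : S_koenigs) (hc : S_comp) : S_global := by
  intro G _ X _ _ α U φ g a R F h1 h2 h3 h4
  exact Glob.glob_aux hk hc α U φ g a R F h1 h2 h3 h4

end Pool.TH345.CC
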