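import Pool.Agent.TH345.LC.C
import Pool.Agent.TH631.RC.Stmt

/-! # Conformal charts: definitions and statements of the pieces -/

set_option autoImplicit false

open Filter Topology Set Metric

namespace Pool.TH345.CC

/-- `f` is holomorphic or antiholomorphic near `z`. -/
def ConfAt (f : ℂ → ℂ) (z : ℂ) : Prop :=
  AnalyticAt ℂ f z ∨ AnalyticAt ℂ (fun w => (starRingEnd ℂ) (f w)) z

/-! ## Complex analysis -/

/-- Compositions. -/
def S_comp : Prop := ∀ (f g : ℂ → ℂ) (z : ℂ), ConfAt f z → ConfAt g (f z) →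
  ConfAt (fun w => g (f w)) z

/-- On a connected open set an injective function with `ConfAt` everywhere is holomorphic or
antiholomorphic. -/
def S_dich : Prop := ∀ (f : ℂ → ℂ) (Ω : Set ℂ), IsOpen Ω → IsPreconnected Ω → InjOn f Ω →
  (∀ z ∈ Ω, ConfAt f z) →
  DifferentiableOn ℂ f Ω ∨ DifferentiableOn ℂ (fun w => (starRingEnd ℂ) (f w)) Ω

/-- Injective entire functions with a pole at infinity are affine. -/
def S_affine : Prop := ∀ k : ℂ → ℂ, Differentiable ℂ k → Function.Injective k →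
  Tendsto k (cocompact ℂ) (cocompact ℂ) → ∃ c d : ℂ, c ≠ 0 ∧ ∀ z, k z = c * z + d

/-- Koenigs linearisation. -/
def S_koenigs : Prop := ∀ (F : ℂ → ℂ) (R q : ℝ), 0 < R → 0 < q → q < 1 →
  DifferentiableOn ℂ F (ball 0 R) → F 0 = 0 → (∀ z ∈ ball (0 : ℂ) R, ‖F z‖ ≤ q * ‖z‖) →
  deriv F 0 ≠ 0 →
  ∃ (s : ℝ) (κ : ℂ → ℂ), 0 < s ∧ s ≤ R ∧ DifferentiableOn ℂ κ (ball 0 s) ∧
    InjOn κ (ball 0 s) ∧ κ 0 = 0 ∧ (∀ z ∈ ball (0 : ℂ) s, ‖κ z‖ ≤ 2 * ‖z‖) ∧
    ∀ z ∈ ball (0 : ℂ) s, κ (F z) = deriv F 0 * κ z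

/-- Contractions. -/
def S_fix : Prop := ∀ (F : ℂ → ℂ) (c : ℂ) (r : ℝ), 0 < r → DifferentiableOn ℂ F (ball c r) →
  MapsTo F (ball c r) (ball c (r / 4)) →
  ∃ a ∈ ball c r, F a = a ∧ ∃ R : ℝ, 0 < R ∧ ball a R ⊆ ball c r ∧
    ∀ z ∈ ball a R, ‖F z - a‖ ≤ (2 / 3) * ‖z - a‖

/-! ## The sphere at infinity of hyperbolic 3-space -/

abbrev E3 : Type := EuclideanSpace ℝ (Fin 3)

theorem sg_norm (w : ℂ) : ‖(!₂[2 * w.re / (‖w‖ ^ 2 + 1), 2 * w.im / (‖w‖ ^ 2 + 1),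
    (‖w‖ ^ 2 - 1) / (‖w‖ ^ 2 + 1)] : E3)‖ = 1 := by
  rw [EuclideanSpace.norm_eq, Real.sqrt_eq_one, Fin.sum_univ_three]
  have h1 : ‖w‖ ^ 2 = w.re ^ 2 + w.im ^ 2 := by
    rw [← Complex.normSq_eq_norm_sq, Complex.normSq_apply]; ring
  have h2 : w.re ^ 2 + w.im ^ 2 + 1 ≠ 0 := by positivity
  simp only [Real.norm_eq_abs, sq_abs, h1]
  simp
  field_simp
  ring

/-- Inverse stereographic projection. -/
noncomputable def sg (w : ℂ) : Pool.Agent.TH289.C.Sph E3 :=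
  ⟨!₂[2 * w.re / (‖w‖ ^ 2 + 1), 2 * w.im / (‖w‖ ^ 2 + 1), (‖w‖ ^ 2 - 1) / (‖w‖ ^ 2 + 1)], by
    rw [mem_sphere_zero_iff_norm]; exact sg_norm w⟩

/-- The north pole. -/
noncomputable def np : Pool.Agent.TH289.C.Sph E3 :=
  ⟨!₂[0, 0, 1], by
    rw [mem_sphere_zero_iff_norm, EuclideanSpace.norm_eq, Real.sqrt_eq_one, Fin.sum_univ_three]
    simp⟩

/-- Stereographic projection. -/
def S_ster : Prop := ∃ π : Pool.Agent.TH289.C.Sph E3 → ℂ, (∀ w, π (sg w) = w) ∧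
  (∀ x, x ≠ np → sg (π x) = x) ∧ (∀ w, sg w ≠ np) ∧ ContinuousOn π {np}ᶜ ∧
  Tendsto π (𝓝[≠] np) (cocompact ℂ)

/-- Isometries of hyperbolic space with given boundary maps. The action of `IsoGrp E3` on the sphere
is in `Pool/Agent/TH345/LC/B.lean`. -/
def S_lor : Prop :=
  (∀ c d : ℂ, c ≠ 0 → ∃ T : Pool.TH345.LC.IsoGrp E3, T • np = np ∧ ∀ w, T • sg w = sg (c * w + d)) ∧
  (∃ T : Pool.TH345.LC.IsoGrp E3, T • np = np ∧ ∀ w, T • sg w = sg ((starRingEnd ℂ) w)) ∧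
  (∃ T : Pool.TH345.LC.IsoGrp E3, T • np = sg 0 ∧ T • sg 0 = np ∧ ∀ w, w ≠ 0 → T • sg w = sg w⁻¹)

/-! ## Dynamics -/

open Pool.Agent.TH631.RC (Action IsConvergence)

/-- `φ` is a chart on `U`: a homeomorphism of the nonempty open set `U` onto an open subset of the
plane. -/
structure Chart {X : Type} [TopologicalSpace X] (U : Set X) (φ : X → ℂ) : Prop where
  isOpen : IsOpen U
  nonempty : U.Nonempty
  cont : ContinuousOn φ U
  inj : InjOn φ U
  image : ∀ W ⊆ U, IsOpen W → IsOpen (φ '' W)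

/-- In the chart `φ` the return maps to `U` of the elements of `S` are holomorphic or
antiholomorphic. -/
def Returns {G : Type} [Group G] {X : Type} [TopologicalSpace X] (α : Action G X) (S : Set G)
    (U : Set X) (φ : X → ℂ) : Prop :=
  ∀ g ∈ S, ∀ x ∈ U, α.map g x ∈ U → ∃ F : ℂ → ℂ, ConfAt F (φ x) ∧
    ∀ᶠ y in 𝓝 x, φ (α.map g y) = F (φ y)

/-- All orbits are dense. -/
def Minimal {G : Type} [Group G] {X : Type} [TopologicalSpace X] (α : Action G X) : Prop :=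
  ∀ x, Dense (range fun g => α.map g x)

/-- Finitely many elements suffice. -/
def S_fin : Prop := ∀ (G : Type) [Group G] (X : Type) [MetricSpace X] [CompactSpace X]
  (α : Action G X) (U : Set X), Group.FG G → Minimal α → IsOpen U → U.Nonempty →
  ∃ S₀ : Finset G, ∀ φ : X → ℂ, Chart U φ → Returns α S₀ U φ → Returns α univ U φ

/-- Some element maps the complement of a small neighbourhood of `q ≠ ξ` close to `ξ`. -/
def S_attr : Prop := ∀ (G : Type) [Group G] (X : Type) [MetricSpace X] [CompactSpace X]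
  (α : Action G X), Infinite X → IsConvergence α → Minimal α → ∀ ξ : X, ∃ q : X, q ≠ ξ ∧
    ∀ V ∈ 𝓝 ξ, ∀ W ∈ 𝓝 q, ∃ g : G, ∀ x, x ∉ W → α.map g x ∈ V

/-- The element `g` has an attracting fixed point `a` in `U`, with `φ a = 0`, and `g` is given by the
holomorphic function `F` in the chart, near `a`. -/
structure Lox {G : Type} [Group G] {X : Type} [TopologicalSpace X] (α : Action G X) (U : Set X)
    (φ : X → ℂ) (g : G) (a : X) (R : ℝ) (F : ℂ → ℂ) : Prop where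
  mem : a ∈ U
  fix : α.map g a = a
  zero : φ a = 0
  pos : 0 < R
  sub : ball (0 : ℂ) R ⊆ φ '' U
  maps : ∀ x ∈ U, φ x ∈ ball (0 : ℂ) R → α.map g x ∈ U ∧ φ (α.map g x) = F (φ x)
  diff : DifferentiableOn ℂ F (ball 0 R)
  contr : ∀ z ∈ ball (0 : ℂ) R, ‖F z‖ ≤ (2 / 3) * ‖z‖

/-- Existence of an attracting fixed point in `U` (after adding a constant to the chart). -/
def S_lox : Prop := ∀ (G : Type) [Group G] (X : Type) [MetricSpace X] [CompactSpace X]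
  (α : Action G X) (U : Set X) (φ : X → ℂ), IsConvergence α → Minimal α → Chart U φ →
  Returns α univ U φ → ∃ (t : ℂ) (g : G) (a : X) (R : ℝ) (F : ℂ → ℂ),
    Lox α U (fun x => φ x - t) g a R F

/-- A global coordinate `Θ`, with `Θ(∞) = b`, in which the action is by holomorphic and
antiholomorphic maps. -/
structure Global {G : Type} [Group G] {X : Type} [TopologicalSpace X] (α : Action G X) (b : X)
    (Θ : ℂ → X) : Prop where
  cont : Continuous Θ
  inj : Function.Injective Θ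
  range : range Θ = {b}ᶜ
  inf : Tendsto Θ (cocompact ℂ) (𝓝 b)
  conf : ∀ (h : G) (w w' : ℂ), α.map h (Θ w) = Θ w' → ∃ K : ℂ → ℂ, ConfAt K w ∧
    ∀ᶠ v in 𝓝 w, α.map h (Θ v) = Θ (K v)

/-- The global coordinate. -/
def S_global : Prop := ∀ (G : Type) [Group G] (X : Type) [MetricSpace X] [CompactSpace X]
  (α : Action G X) (U : Set X) (φ : X → ℂ) (g : G) (a : X) (R : ℝ) (F : ℂ → ℂ),
  IsConvergence α → Chart U φ → Returns α univ U φ → Lox α U φ g a R F →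
  ∃ (b : X) (Θ : ℂ → X), Global α b Θ

/-- In the coordinate `Θ` the homeomorphism `h` is the Moebius map `c w + d` or
`q + 1 / (c (w - p))`, followed by `e` (the identity or complex conjugation). -/
def IsMoeb {X : Type} (h : X → X) (b : X) (Θ : ℂ → X) (e : ℂ → ℂ) : Prop :=
  (∃ c d : ℂ, c ≠ 0 ∧ h b = b ∧ ∀ w, h (Θ w) = Θ (e (c * w + d))) ∨
  (∃ c p q : ℂ, c ≠ 0 ∧ h b = Θ (e q) ∧ h (Θ p) = b ∧
    ∀ w, w ≠ p → h (Θ w) = Θ (e (q + (c * (w - p))⁻¹)))

/-- All elements act by Moebius maps. -/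
def S_moeb : Prop := ∀ (G : Type) [Group G] (X : Type) [MetricSpace X] [CompactSpace X]
  (α : Action G X) (b : X) (Θ : ℂ → X), Global α b Θ → ∀ h : G,
  IsMoeb (α.map h) b Θ (fun z => z) ∨ IsMoeb (α.map h) b Θ (fun z => (starRingEnd ℂ) z)

end Pool.TH345.CC
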